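import Mathlib
import Pool.Agent.Lib.MP_f58a57_nt.LT.Defs
import Pool.Agent.Lib.MP_f58a57_nt.LT.D0

/-!
# MP_f58a57_nt, large transcendence degree, version 2 (all nonreal quartic fields): definitions

Paper: /team-store/lt49_v2.md (on top of /team-store/lt49_paper.md).
-/

open Complex Matrix

noncomputable section

namespace Pool.Agent.LT

/-! ### Towers with free variables -/

/-- prefix a vector by `q` zeros -/
def zcV {c : ℕ} : (q : ℕ) → Vc c → Vc (c + q)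
  | 0, z => z
  | q + 1, z => (Fin.cons 0 (zcV q z) : Fin (c + q + 1 + 1) → ℂ)

/-- the covering property with `p` free variables (coordinates `1..p`); coordinate `0` is real, of coordinate `p + 1` only the imaginary part matters -/
def CovG {c : ℕ} (p : ℕ) (Γ : AddSubgroup (Vc c)) : Prop :=
  ∃ C : ℝ, 0 < C ∧ ∀ r ρ k : ℝ, 0 < r → 0 < ρ → 0 < k → C ≤ r * ρ ^ (2 * p) * k → C * r ≤ ρ → C * ρ ≤ k → ∀ w : Vc c, ∃ γ ∈ Γ,
    (∀ l : Fin (c + 1), (l : ℕ) = 0 → (γ l).im = 0 ∧ |(w l).re - (γ l).re| ≤ r) ∧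
    (∀ l : Fin (c + 1), 0 < (l : ℕ) → (l : ℕ) ≤ p → ‖w l - γ l‖ ≤ ρ) ∧
    (∀ l : Fin (c + 1), (l : ℕ) = p + 1 → |(w l).im - (γ l).im| ≤ k)

/-- towers with free variables -/
inductive TowG : (c : ℕ) → AddSubgroup (Vc c) → Prop
  | base (Γ : AddSubgroup (Vc 0)) (h : ∃ g ∈ Γ, g 0 ≠ 0 ∧ (g 0).im = 0) : TowG 0 Γ
  | step (c p : ℕ) (Γ₁ : AddSubgroup (Vc c)) (Γ : AddSubgroup (Vc (c + p + 1))) (h1 : TowG c Γ₁)
      (h2 : ∀ γ ∈ Γ₁, (zcV (p + 1) γ : Vc (c + p + 1)) ∈ Γ) (h3 : CovG p Γ) : TowG (c + p + 1) Γ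

/-- the conclusion of Theorem B for the group `Γ` -/
def IntB (c : ℕ) (Γ : AddSubgroup (Vc c)) : Prop :=
  ∀ ε A : ℝ, 0 < ε → ε ≤ 1 / 20 → 0 ≤ A → ∃ C T0 : ℝ, 1 ≤ C ∧ ∀ T : ℝ, T0 ≤ T → ∀ k : ℝ,
    T ^ (1 / 2 + ε) ≤ k → k ≤ T ^ ((c : ℝ) + 1 - ε) → ∀ G : Vc c → ℂ, Aut Γ G →
      (∀ z, |(z 0).im| ≤ k → NN G z ≤ Real.exp (A * (1 + (z 0).im ^ 2))) → JJ G T (Real.exp (-(T ^ ε * k ^ 2))) →
        ∀ z, |(z 0).im| ≤ k / C → NN G z ≤ Real.exp (-(k ^ 2 / C))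

/-- THEOREM B, version 2 -/
def ThmB2 : Prop := ∀ (c : ℕ) (Γ : AddSubgroup (Vc c)), TowG c Γ → IntB c Γ

/-! ### The flag with blocks of length `p + 1` -/

/-- `cp p m = (p + 1) m` -/
def cp (p : ℕ) : ℕ → ℕ
  | 0 => 0
  | m + 1 => cp p m + p + 1

/-- the covering property of the integral vectors `a` with `x_l · a = 0` for `l < i`, in the coordinates `x_i, ..., x_{i+p+1}` -/
def CovX {c n : ℕ} (p i : ℕ) (x : Fin (c + 1) → Fin n → ℂ) : Prop :=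
  ∃ C : ℝ, 0 < C ∧ ∀ r ρ k : ℝ, 0 < r → 0 < ρ → 0 < k → C ≤ r * ρ ^ (2 * p) * k → C * r ≤ ρ → C * ρ ≤ k →
    ∀ w : Fin (c + 1) → ℂ, ∃ a : Fin n → ℤ,
      (∀ l : Fin (c + 1), (l : ℕ) < i → x l ⬝ᵥ zv a = 0) ∧
      (∀ l : Fin (c + 1), (l : ℕ) = i → (x l ⬝ᵥ zv a).im = 0 ∧ |(w l).re - (x l ⬝ᵥ zv a).re| ≤ r) ∧
      (∀ l : Fin (c + 1), i < (l : ℕ) → (l : ℕ) ≤ i + p → ‖w l - x l ⬝ᵥ zv a‖ ≤ ρ) ∧
      (∀ l : Fin (c + 1), (l : ℕ) = i + p + 1 → |(w l).im - (x l ⬝ᵥ zv a).im| ≤ k)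

/-- the flag of functionals `x_0, ..., x_c` on `ℂ^N / ker P`, `c = (p+1) m`, blocks of length `p + 1` -/
structure FlagG (p m : ℕ) {n : ℕ} (P : Matrix (Fin n) (Fin n) ℂ) (x : Fin (cp p m + 1) → Fin n → ℂ) : Prop where
  /-- the functionals cut out the kernel of `P` -/
  ker : ∀ u, P *ᵥ u = 0 ↔ ∀ i, x i ⬝ᵥ u = 0
  li : LinearIndependent ℂ x
  /-- `x_0` is real on real vectors -/
  real0 : ∀ b : Fin n → ℝ, (x 0 ⬝ᵥ rv b).im = 0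
  /-- the covering property of each block -/
  step : ∀ t : ℕ, t < m → CovX p ((p + 1) * t) x
  /-- the last step -/
  last : ∃ a : Fin n → ℤ, (∀ l : Fin (cp p m + 1), (l : ℕ) < cp p m → x l ⬝ᵥ zv a = 0) ∧
    x (Fin.last (cp p m)) ⬝ᵥ zv a ≠ 0 ∧ (x (Fin.last (cp p m)) ⬝ᵥ zv a).im = 0

/-- a nonreal quartic field `K` with `[K K̄ : K] = p + 1` -/
structure QG (K : Subfield ℂ) (p : ℕ) : Prop where
  dim : Module.finrank ℚ K = 4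
  nr : ∃ x ∈ K, x.im ≠ 0
  rel : Module.finrank ℚ ↥(K ⊔ K.map (starRingEnd ℂ)) = 4 * (p + 1)

/-- FLAG LEMMA, version 2 (D'), for `P = Z - M`, `M` any rational matrix (so it applies to `M` and `Mᵀ`) -/
def ThmFlagG : Prop :=
  ∀ (K : Subfield ℂ) (p : ℕ), QG K p → ∀ (m : ℕ) (z : Fin (2 * cp p m + 1) → ℂ), (∀ j, z j ∈ K) → (∀ j, 0 < (z j).im) → (∀ j, NQ (z j)) →
    (∀ i j, z i ≠ z j → ¬ GEq (z i) (z j)) → ∀ M : Matrix (Fin (2 * cp p m + 1)) (Fin (2 * cp p m + 1)) ℚ,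
      cp p m ≤ Module.finrank ℂ (LinearMap.ker (Matrix.mulVecLin (Matrix.diagonal z - M.map (fun q : ℚ => (q : ℂ))))) →
        ∃ x : Fin (cp p m + 1) → Fin (2 * cp p m + 1) → ℂ, FlagG p m (Matrix.diagonal z - M.map (fun q : ℚ => (q : ℂ))) x

/-- THEOREM D1, version 2: existence of the matrix `M` (for `c + 1` points) -/
def ThmD1G : Prop :=
  ∀ (K : Subfield ℂ), Module.finrank ℚ K = 4 → ∀ (c : ℕ) (z : Fin (c + 1) → ℂ), (∀ i, z i ∈ K) → (∀ i, 0 < (z i).im) → (∀ i, NQ (z i)) →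
    (∀ i j, i ≠ j → ¬ GEq (z i) (z j)) → ∃ (D : Dat c) (idx : Fin (2 * c + 1) → Fin (c + 1)), ∀ j, D.z j = z (idx j)

/-- THEOREM D2, version 2: interpolation for sections (uses Theorem B, version 2, and the flag lemma) -/
def ThmD2G : Prop :=
  ∀ (K : Subfield ℂ) (p : ℕ), QG K p → ∀ (m : ℕ) (D : Dat (cp p m)), (∀ j, D.z j ∈ K) → (∀ j, NQ (D.z j)) →
    (∀ i j, D.z i ≠ D.z j → ¬ GEq (D.z i) (D.z j)) → (∀ C, MulOK D.d D.z C → INT D.d D.g D.Lt C) ∧ (∀ C, MulOK D.d D.z C → INT D.d D.g D.L C)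

end Pool.Agent.LT
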