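import Mathlib
import Pool.Agent.Lib.MP_f58a57_nt.LT.D6
import Pool.Agent.Lib.MP_f58a57_nt.LT.V.V0

/-!
# MP_f58a57_nt, large transcendence degree, version 2: THEOREM D1 for all quartic fields
-/

open Module Submodule Complex Matrix

noncomputable section

namespace Pool.Agent.LT.DA

/-- THEOREM D1, version 2 -/
theorem thmD1G0 : ThmD1G := by
  intro K hK c z hzK him hNQ hG
  let ζ : Fin (c + 1) → K := fun i => ⟨z i, hzK i⟩
  have hnq : ∀ i, nq (ζ i) := fun i => nq_of K (hNQ i)
  have hrl : ∀ i j, i ≠ j → rl (ζ i) (ζ j) := fun i j hij => rl_of K (hNQ i) (hNQ j) (hG j i hij.symm)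
  obtain ⟨idx, M, v, hv, hMv⟩ := exists_M hK c ζ hnq hrl
  obtain ⟨d, dM, hd, hdM⟩ := exists_d M
  obtain ⟨g, hg, hMg⟩ := exists_g (n := 2 * c + 1) (c := c) rfl M
  have hker : c ≤ Module.finrank ℂ (LinearMap.ker (Matrix.mulVecLin (Matrix.diagonal (fun j => z (idx j)) - M.map (fun q : ℚ => (q : ℂ))))) := by
    set V := LinearMap.ker (Matrix.mulVecLin (Matrix.diagonal (fun j => z (idx j)) - M.map (fun q : ℚ => (q : ℂ)))) with hV
    have h1 : ∀ i, (fun j => ((v i j : K) : ℂ)) ∈ V := by
      intro i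
      rw [hV, LinearMap.mem_ker, Matrix.mulVecLin_apply]
      funext j
      have h2 := congrArg (fun t : K => (t : ℂ)) (congrFun (hMv i) j)
      simp only [Matrix.mulVec, dotProduct] at h2 ⊢
      push_cast at h2
      rw [Pi.zero_apply]
      rw [Pi.zero_apply] at h2
      refine Eq.trans ?_ h2
      apply Finset.sum_congr rfl
      intro k _
      congr 1
      rw [Matrix.sub_apply, Matrix.sub_apply, Matrix.map_apply, Matrix.map_apply, Matrix.diagonal_apply, Matrix.diagonal_apply]
      split_ifs <;> push_cast <;> rfl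
    have h3 : LinearIndependent ℂ (fun i : Fin c => (⟨fun j => ((v i j : K) : ℂ), h1 i⟩ : V)) := by
      apply LinearIndependent.of_comp V.subtype
      exact li_KC K hv
    have h4 := h3.fintype_card_le_finrank
    simpa using h4
  exact ⟨⟨fun j => z (idx j), fun j => him _, M, d, hd, dM, hdM, g, hg, hMg, hker⟩, idx, fun j => rfl⟩

end Pool.Agent.LT.DA

/-- THEOREM D1, version 2 -/
theorem Pool.Agent.LT.thmD1G : Pool.Agent.LT.ThmD1G := Pool.Agent.LT.DA.thmD1G0
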