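import Pool.Agent.Lib.MP_f58a57_nt.LT.V.V0
import Pool.Agent.Lib.MP_f58a57_nt.LT.DD.R4
import Pool.Agent.Lib.MP_f58a57_nt.LT.DD.R7
import Pool.Agent.Lib.MP_f58a57_nt.LT.DD.R9
import Pool.Agent.Lib.MP_f58a57_nt.LT.DD.R10
import Pool.Agent.Lib.MP_f58a57_nt.LT.DD.R11
import Pool.Agent.Lib.MP_f58a57_nt.LT.DD.R13
import Pool.Agent.Lib.MP_f58a57_nt.LT.DD.R15
import Pool.Agent.Lib.MP_f58a57_nt.LT.DD.R16

/-!
# MP_f58a57_nt, large transcendence degree, version 2: ThmD2G from ThmB2 and ThmFlagG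
-/

open Complex Matrix

noncomputable section

namespace Pool.Agent.LT

namespace D2G

variable {c : ℕ}

/-! ### prefixing zeros -/

theorem zc_apply : ∀ (q : ℕ) (z : Vc c) (l : Fin (c + q + 1)), (zcV q z) l = if h : (l : ℕ) < q then 0 else z ⟨(l : ℕ) - q, by omega⟩
  | 0, z, l => by
    simp only [Nat.not_lt_zero, dite_false]
    rfl
  | q + 1, z, l => by
    refine Fin.cases ?_ (fun l' => ?_) l
    · have h0 : ((0 : Fin (c + (q + 1) + 1)) : ℕ) < q + 1 := by simp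
      rw [dif_pos h0]
      rfl
    · have e : (zcV (q + 1) z : Vc (c + (q + 1))) (Fin.succ l') = (zcV q z) l' := rfl
      rw [e, zc_apply q z l']
      by_cases h : (l' : ℕ) < q
      · have h' : ((Fin.succ l' : Fin (c + (q + 1) + 1)) : ℕ) < q + 1 := by
          rw [Fin.val_succ]; omega
        rw [dif_pos h, dif_pos h']
      · have h' : ¬ ((Fin.succ l' : Fin (c + (q + 1) + 1)) : ℕ) < q + 1 := by
          rw [Fin.val_succ]; omega
        rw [dif_neg h, dif_neg h']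
        congr 1
        apply Fin.ext
        show (l' : ℕ) - q = ((Fin.succ l' : Fin (c + (q + 1) + 1)) : ℕ) - (q + 1)
        rw [Fin.val_succ]; omega

/-- prefixing zeros as a homomorphism -/
def zcH (q : ℕ) : Vc c →+ Vc (c + q) where
  toFun := zcV q
  map_zero' := by
    funext l
    rw [zc_apply]
    split <;> rfl
  map_add' := by
    intro a b
    funext l
    rw [Pi.add_apply, zc_apply, zc_apply, zc_apply]
    split
    · simp
    · rfl

/-- removing the first coordinates -/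
def drop (q : ℕ) (γ : Vc (c + q)) : Vc c := fun l => γ ⟨(l : ℕ) + q, by omega⟩

theorem zc_drop (q : ℕ) (γ : Vc (c + q)) (h : ∀ l : Fin (c + q + 1), (l : ℕ) < q → γ l = 0) : zcV q (drop q γ) = γ := by
  funext l
  rw [zc_apply]
  split
  · rename_i hl
    exact (h l hl).symm
  · rename_i hl
    show γ ⟨(l : ℕ) - q + q, _⟩ = γ l
    congr 1
    apply Fin.ext
    show (l : ℕ) - q + q = l
    omega

/-! ### the tower -/

/-- the covering property at the level `i` -/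
def CovZ (p i : ℕ) (Γ : AddSubgroup (Vc c)) : Prop :=
  ∃ C : ℝ, 0 < C ∧ ∀ r ρ k : ℝ, 0 < r → 0 < ρ → 0 < k → C ≤ r * ρ ^ (2 * p) * k → C * r ≤ ρ → C * ρ ≤ k → ∀ w : Vc c, ∃ γ ∈ Γ,
    (∀ l : Fin (c + 1), (l : ℕ) < i → γ l = 0) ∧
    (∀ l : Fin (c + 1), (l : ℕ) = i → (γ l).im = 0 ∧ |(w l).re - (γ l).re| ≤ r) ∧
    (∀ l : Fin (c + 1), i < (l : ℕ) → (l : ℕ) ≤ i + p → ‖w l - γ l‖ ≤ ρ) ∧
    (∀ l : Fin (c + 1), (l : ℕ) = i + p + 1 → |(w l).im - (γ l).im| ≤ k)

theorem covG_of {p : ℕ} {Γ : AddSubgroup (Vc c)} (h : CovZ p 0 Γ) : CovG p Γ := by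
  obtain ⟨C, hC, h⟩ := h
  refine ⟨C, hC, fun r ρ k hr hρ hk h1 h2 h3 w => ?_⟩
  obtain ⟨γ, hγ, -, a1, a2, a3⟩ := h r ρ k hr hρ hk h1 h2 h3 w
  exact ⟨γ, hγ, a1, fun l hl hl' => a2 l hl (by omega), fun l hl => a3 l (by omega)⟩

theorem covZ_comap {p q i : ℕ} {Γ : AddSubgroup (Vc (c + q))} (h : CovZ p (i + q) Γ) : CovZ p i (Γ.comap (zcH q)) := by
  obtain ⟨C, hC, h⟩ := h
  refine ⟨C, hC, fun r ρ k hr hρ hk h1 h2 h3 w => ?_⟩
  obtain ⟨γ, hγ, a0, a1, a2, a3⟩ := h r ρ k hr hρ hk h1 h2 h3 (zcV q w)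
  have hz : zcV q (drop q γ) = γ := zc_drop q γ (fun l hl => a0 l (by omega))
  have hw : ∀ l : Fin (c + 1), (zcV q w) ⟨(l : ℕ) + q, by omega⟩ = w l := by
    intro l
    rw [zc_apply, dif_neg (by simp)]
    congr 1
    apply Fin.ext
    show (l : ℕ) + q - q = l
    omega
  refine ⟨drop q γ, ?_, ?_, ?_, ?_, ?_⟩
  · show zcV q (drop q γ) ∈ Γ
    rw [hz]; exact hγ
  · intro l hl
    exact a0 ⟨(l : ℕ) + q, by omega⟩ (by show (l : ℕ) + q < i + q; omega)
  · intro l hl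
    have := a1 ⟨(l : ℕ) + q, by omega⟩ (by show (l : ℕ) + q = i + q; omega)
    rw [hw] at this
    exact this
  · intro l hl hl'
    have := a2 ⟨(l : ℕ) + q, by omega⟩ (by show i + q < (l : ℕ) + q; omega) (by show (l : ℕ) + q ≤ i + q + p; omega)
    rw [hw] at this
    exact this
  · intro l hl
    have := a3 ⟨(l : ℕ) + q, by omega⟩ (by show (l : ℕ) + q = i + q + p + 1; omega)
    rw [hw] at this
    exact this

theorem towG_of (p : ℕ) : ∀ (m : ℕ) (Γ : AddSubgroup (Vc (cp p m))), (∀ t : ℕ, t < m → CovZ p ((p + 1) * t) Γ) →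
    (∃ g ∈ Γ, (∀ l : Fin (cp p m + 1), (l : ℕ) < cp p m → g l = 0) ∧ g (Fin.last _) ≠ 0 ∧ (g (Fin.last _)).im = 0) → TowG (cp p m) Γ
  | 0, Γ, _, h2 => by
    obtain ⟨g, hg, -, h3, h4⟩ := h2
    exact TowG.base Γ ⟨g, hg, h3, h4⟩
  | m + 1, Γ, h1, h2 => by
    refine TowG.step (cp p m) p (AddSubgroup.comap (zcH (p + 1)) Γ) Γ (towG_of p m _ (fun t ht => ?_) ?_) (fun γ hγ => hγ) ?_
    · have := h1 (t + 1) (by omega)
      rw [Nat.mul_add, Nat.mul_one] at this
      exact covZ_comap (q := p + 1) this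
    · obtain ⟨g, hg, h3, h4, h5⟩ := h2
      have hz : zcV (p + 1) (drop (c := cp p m) (p + 1) g) = g := zc_drop (c := cp p m) (p + 1) g (fun l hl => h3 l (by
        show (l : ℕ) < cp p m + p + 1
        omega))
      refine ⟨drop (c := cp p m) (p + 1) g, ?_, ?_, ?_, ?_⟩
      · show zcV (p + 1) (drop (c := cp p m) (p + 1) g) ∈ Γ
        rw [hz]; exact hg
      · intro l hl
        exact h3 ⟨(l : ℕ) + (p + 1), by show (l : ℕ) + (p + 1) < cp p m + p + 1 + 1; omega⟩ (by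
          show (l : ℕ) + (p + 1) < cp p m + p + 1
          omega)
      · exact h4
      · exact h5
    · have := h1 0 (by omega)
      rw [Nat.mul_zero] at this
      exact covG_of this

/-! ### from the functionals to the coordinates -/

open R10_

section
variable {P : Matrix (Fin (2 * c + 1)) (Fin (2 * c + 1)) ℂ} {x : Fin (c + 1) → Fin (2 * c + 1) → ℂ} {H : VN c → VN c → ℂ}
    {ζ : VN c →ₗ[ℂ] Vc c} {sec : Vc c →ₗ[ℂ] VN c} {r : Fin (c + 1) → Fin (c + 1) → ℂ}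

theorem xzero (hz : Zt P x H ζ sec r) {i : ℕ} {u : VN c} (hu : ∀ l : Fin (c + 1), (l : ℕ) < i → ζ u l = 0) :
    ∀ l : Fin (c + 1), (l : ℕ) < i → x l ⬝ᵥ u = 0 := by
  have key : ∀ n : ℕ, ∀ l : Fin (c + 1), (l : ℕ) = n → (l : ℕ) < i → x l ⬝ᵥ u = 0 := by
    intro n
    induction n using Nat.strong_induction_on with
    | _ n ih =>
      intro l hl hli
      have h1 : ∀ l' : Fin (c + 1), (l' : ℕ) < l → x l' ⬝ᵥ u = 0 := fun l' hl' => ih l' (by omega) l' rfl (by omega)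
      have h2 := zeq hz (i := l) h1
      rw [hu l hli] at h2
      have h3 : r l l ≠ 0 := by
        intro h0
        have := (hz.diag l).1
        rw [h0] at this
        simp at this
      rcases mul_eq_zero.mp h2.symm with h | h
      · exact absurd h h3
      · exact h
  exact fun l hl => key l l rfl hl

theorem covZ_of {d : ℕ} (hd : 0 < d) {p i : ℕ} (hz : Zt P x H ζ sec r) (hx : CovX p i x) : CovZ p i (Gam d ζ) := by
  obtain ⟨C, hC, hcov⟩ := hx
  have hd0 : (0 : ℝ) < d := by exact_mod_cast hd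
  have hd1 : (1 : ℝ) ≤ d := by exact_mod_cast hd
  set S : ℝ := 1 + ∑ l, ∑ l', ‖r l l'‖ with hS
  have hSl : ∀ l, ∑ l', ‖r l l'‖ ≤ S := by
    intro l
    have h1 : ∑ l', ‖r l l'‖ ≤ ∑ l, ∑ l', ‖r l l'‖ :=
      Finset.single_le_sum (f := fun l => ∑ l', ‖r l l'‖) (fun l _ => Finset.sum_nonneg fun l' _ => norm_nonneg _) (Finset.mem_univ l)
    linarith
  have hS1 : 1 ≤ S := by
    have : 0 ≤ ∑ l, ∑ l', ‖r l l'‖ := Finset.sum_nonneg fun l _ => Finset.sum_nonneg fun l' _ => norm_nonneg _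
    linarith
  set E : ℝ := d * S with hE
  have hE1 : 1 ≤ E := by nlinarith
  have hE0 : 0 < E := by linarith
  refine ⟨2 * E ^ (2 * p + 2) * C + 2 * C + 2, by positivity, ?_⟩
  intro r0 ρ k hr hρ hk h1 h2 h3 w
  have hEp : 0 < E ^ (2 * p + 2) := by positivity
  -- the parameters
  have g1 : C ≤ r0 / E * (ρ / E) ^ (2 * p) * (k / (2 * E)) := by
    have e : r0 / E * (ρ / E) ^ (2 * p) * (k / (2 * E)) = (r0 * ρ ^ (2 * p) * k) / (2 * E ^ (2 * p + 2)) := by
      rw [div_pow, pow_succ, pow_succ]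
      field_simp
    rw [e, le_div_iff₀ (by positivity)]
    nlinarith [mul_pos hEp hC]
  have hrρ : C * r0 ≤ ρ := by
    have : 0 ≤ (2 * E ^ (2 * p + 2) * C + C + 2) * r0 := by positivity
    nlinarith
  have hrρ' : r0 ≤ ρ := by
    have : 0 ≤ (2 * E ^ (2 * p + 2) * C + 2 * C + 1) * r0 := by positivity
    nlinarith
  have hρk : 2 * (C * ρ) ≤ k := by
    have : 0 ≤ (2 * E ^ (2 * p + 2) * C + 2) * ρ := by positivity
    nlinarith
  have hρk' : 2 * ρ ≤ k := by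
    have : 0 ≤ (2 * E ^ (2 * p + 2) * C + 2 * C) * ρ := by positivity
    nlinarith
  have g2 : C * (r0 / E) ≤ ρ / E := by
    rw [← mul_div_assoc]
    exact div_le_div_of_nonneg_right hrρ hE0.le
  have g3 : C * (ρ / E) ≤ k / (2 * E) := by
    rw [← mul_div_assoc, div_le_div_iff₀ hE0 (by positivity)]
    nlinarith
  -- the target
  let w' : Vc c := fun l => if (l : ℕ) < i then 0 else if (l : ℕ) = i then ((w l).re : ℂ) else w l
  set u : VN c := sec ((d : ℂ)⁻¹ • w') with hu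
  have hζu : ∀ l, ζ u l = (d : ℂ)⁻¹ * w' l := by
    intro l
    rw [hu, hz.hsec, Pi.smul_apply, smul_eq_mul]
  have hdc : (d : ℂ) ≠ 0 := by exact_mod_cast hd.ne'
  obtain ⟨a, a0, a1, a2, a3⟩ := hcov (r0 / E) (ρ / E) (k / (2 * E)) (by positivity) (by positivity) (by positivity) g1 g2 g3 (fun l => x l ⬝ᵥ u)
  have hW0 : ∀ l : Fin (c + 1), (l : ℕ) < i → x l ⬝ᵥ u = 0 := xzero hz (fun l hl => by
    rw [hζu]
    show (d : ℂ)⁻¹ * (if (l : ℕ) < i then 0 else _) = 0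
    rw [if_pos hl, mul_zero])
  set Dl : Fin (c + 1) → ℂ := fun l => x l ⬝ᵥ u - x l ⬝ᵥ zv a with hDl
  have hD0 : ∀ l : Fin (c + 1), (l : ℕ) < i → Dl l = 0 := fun l hl => by
    show x l ⬝ᵥ u - x l ⬝ᵥ zv a = 0
    rw [hW0 l hl, a0 l hl, sub_zero]
  have hWi : ∀ l : Fin (c + 1), (l : ℕ) = i → (x l ⬝ᵥ u).im = 0 := by
    intro l hl
    have e := zeq hz (i := l) (u := u) (fun l' hl' => hW0 l' (by omega))
    rw [hζu] at e
    have e2 : w' l = ((w l).re : ℂ) := by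
      show (if (l : ℕ) < i then 0 else if (l : ℕ) = i then ((w l).re : ℂ) else w l) = _
      rw [if_neg (by omega), if_pos hl]
    rw [e2, re_eq (hz.diag l).2] at e
    have e3 := congrArg Complex.im e
    rw [Complex.im_ofReal_mul] at e3
    have e4 : ((d : ℂ)⁻¹ * ((w l).re : ℂ)).im = 0 := by
      have : ((d : ℂ)⁻¹ * ((w l).re : ℂ)) = (((d : ℝ)⁻¹ * (w l).re : ℝ) : ℂ) := by push_cast; rfl
      rw [this, Complex.ofReal_im]
    rw [e4] at e3
    exact (mul_eq_zero.mp e3.symm).resolve_left (hz.diag l).1.ne'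
  have hDi : ∀ l : Fin (c + 1), (l : ℕ) = i → (Dl l).im = 0 ∧ ‖Dl l‖ ≤ r0 / E := by
    intro l hl
    have him : (Dl l).im = 0 := by
      show (x l ⬝ᵥ u - x l ⬝ᵥ zv a).im = 0
      rw [Complex.sub_im, hWi l hl, (a1 l hl).1, sub_zero]
    refine ⟨him, ?_⟩
    rw [re_eq him, Complex.norm_real, Real.norm_eq_abs]
    have := (a1 l hl).2
    show |(x l ⬝ᵥ u - x l ⬝ᵥ zv a).re| ≤ _
    rw [Complex.sub_re]
    exact this
  have hDm : ∀ l : Fin (c + 1), (l : ℕ) ≤ i + p → ‖Dl l‖ ≤ ρ / E := by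
    intro l hl
    rcases lt_trichotomy (l : ℕ) i with h | h | h
    · rw [hD0 l h, norm_zero]; positivity
    · exact (hDi l h).2.trans (div_le_div_of_nonneg_right hrρ' hE0.le)
    · exact a2 l h hl
  have hmain : ∀ l, w' l - ζ (lat d a) l = d * ∑ l', r l l' * Dl l' := by
    intro l
    have e1 : w' l = d * ζ u l := by rw [hζu, ← mul_assoc, mul_inv_cancel₀ hdc, one_mul]
    rw [e1, hz.coord, hz.coord, Finset.mul_sum, Finset.mul_sum, ← Finset.sum_sub_distrib]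
    refine Finset.sum_congr rfl fun l' _ => ?_
    rw [dot_lat]
    show _ = (d : ℂ) * (r l l' * (x l' ⬝ᵥ u - x l' ⬝ᵥ zv a))
    ring
  have hsum : ∀ (l : Fin (c + 1)) (B : ℝ), (∀ l' : Fin (c + 1), l' ≤ l → ‖Dl l'‖ ≤ B) → 0 ≤ B → ‖∑ l', r l l' * Dl l'‖ ≤ S * B := by
    intro l B hB hB0
    refine (norm_sum_le _ _).trans ?_
    refine le_trans ?_ (mul_le_mul_of_nonneg_right (hSl l) hB0)
    rw [Finset.sum_mul]
    refine Finset.sum_le_sum fun l' _ => ?_
    rw [norm_mul]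
    rcases le_or_gt l' l with h | h
    · exact mul_le_mul_of_nonneg_left (hB l' h) (norm_nonneg _)
    · rw [hz.tri l l' h, norm_zero, zero_mul, zero_mul]
  have hlat0 : ∀ l : Fin (c + 1), (l : ℕ) < i → x l ⬝ᵥ lat d a = 0 := fun l hl => by rw [dot_lat, a0 l hl, mul_zero]
  refine ⟨ζ (lat d a), mem_Gam.2 ⟨a, rfl⟩, ?_, ?_, ?_, ?_⟩
  · exact fun l hl => zlt hz hlat0 l hl
  · intro l hl
    have e1 : ζ (lat d a) l = r l l * (x l ⬝ᵥ lat d a) := zeq hz (i := l) (fun l' hl' => hlat0 l' (by omega))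
    have e2 : (ζ (lat d a) l).im = 0 := by
      rw [e1, dot_lat, re_eq (hz.diag l).2, Complex.im_ofReal_mul]
      have : ((d : ℂ) * (x l ⬝ᵥ zv a)).im = 0 := by
        have h' : ((d : ℂ) * (x l ⬝ᵥ zv a)) = ((d : ℝ) : ℂ) * (x l ⬝ᵥ zv a) := by push_cast; rfl
        rw [h', Complex.im_ofReal_mul, (a1 l hl).1, mul_zero]
      rw [this, mul_zero]
    refine ⟨e2, ?_⟩
    have e3 := hmain l
    have e4 : w' l = ((w l).re : ℂ) := by
      show (if (l : ℕ) < i then 0 else if (l : ℕ) = i then ((w l).re : ℂ) else w l) = _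
      rw [if_neg (by omega), if_pos hl]
    have e5 : |(w l).re - (ζ (lat d a) l).re| = ‖w' l - ζ (lat d a) l‖ := by
      rw [e4, re_eq e2, ← Complex.ofReal_sub, Complex.norm_real, Real.norm_eq_abs, Complex.ofReal_re]
    have h5 := hsum l (r0 / E) (fun l' hl' => by
      rcases lt_or_eq_of_le hl' with h | h
      · rw [hD0 l' (by rw [Fin.lt_def] at h; omega), norm_zero]; positivity
      · rw [h]; exact (hDi l hl).2) (by positivity)
    rw [e5, e3, norm_mul, Complex.norm_natCast]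
    calc (d : ℝ) * ‖∑ l', r l l' * Dl l'‖ ≤ d * (S * (r0 / E)) := mul_le_mul_of_nonneg_left h5 hd0.le
      _ = E * (r0 / E) := by rw [hE]; ring
      _ = r0 := by field_simp
  · intro l hl hl'
    have e4 : w' l = w l := by
      show (if (l : ℕ) < i then 0 else if (l : ℕ) = i then ((w l).re : ℂ) else w l) = _
      rw [if_neg (by omega), if_neg (by omega)]
    rw [← e4, hmain l, norm_mul, Complex.norm_natCast]
    have h5 := hsum l (ρ / E) (fun l' h => hDm l' (by rw [Fin.le_def] at h; omega)) (by positivity)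
    calc (d : ℝ) * ‖∑ l', r l l' * Dl l'‖ ≤ d * (S * (ρ / E)) := mul_le_mul_of_nonneg_left h5 hd0.le
      _ = E * (ρ / E) := by rw [hE]; ring
      _ = ρ := by field_simp
  · intro l hl
    have e4 : w' l = w l := by
      show (if (l : ℕ) < i then 0 else if (l : ℕ) = i then ((w l).re : ℂ) else w l) = _
      rw [if_neg (by omega), if_neg (by omega)]
    rw [← Complex.sub_im, ← e4, hmain l]
    have e5 : ((d : ℂ) * ∑ l', r l l' * Dl l').im = d * (∑ l', r l l' * Dl l').im := by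
      have h' : (d : ℂ) = ((d : ℝ) : ℂ) := by push_cast; rfl
      rw [h', Complex.im_ofReal_mul]
    rw [e5, abs_mul, abs_of_pos hd0]
    -- split off the term `l`
    have e6 : ∑ l', r l l' * Dl l' = r l l * Dl l + ∑ l' ∈ Finset.univ.erase l, r l l' * Dl l' :=
      (Finset.add_sum_erase Finset.univ (fun l' => r l l' * Dl l') (Finset.mem_univ l)).symm
    have e7 : ‖∑ l' ∈ Finset.univ.erase l, r l l' * Dl l'‖ ≤ (∑ l' ∈ Finset.univ.erase l, ‖r l l'‖) * (ρ / E) := by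
      refine (norm_sum_le _ _).trans ?_
      rw [Finset.sum_mul]
      refine Finset.sum_le_sum fun l' hl' => ?_
      rw [norm_mul]
      rcases lt_or_ge l' l with h | h
      · exact mul_le_mul_of_nonneg_left (hDm l' (by rw [Fin.lt_def] at h; omega)) (norm_nonneg _)
      · have h8 : l < l' := lt_of_le_of_ne h (Finset.ne_of_mem_erase hl').symm
        rw [hz.tri l l' h8, norm_zero, zero_mul, zero_mul]
    have e8 : ‖r l l‖ + ∑ l' ∈ Finset.univ.erase l, ‖r l l'‖ ≤ S :=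
      (Finset.add_sum_erase Finset.univ (fun l' => ‖r l l'‖) (Finset.mem_univ l)).le.trans (hSl l)
    have e9 : |(r l l * Dl l).im| ≤ ‖r l l‖ * (k / (2 * E)) := by
      have h1 : (r l l * Dl l).im = (r l l).re * (Dl l).im := by
        conv_lhs => rw [re_eq (hz.diag l).2]
        rw [Complex.im_ofReal_mul]
      rw [h1, abs_mul]
      refine mul_le_mul (Complex.abs_re_le_norm _) ?_ (abs_nonneg _) (norm_nonneg _)
      have := a3 l hl
      show |(x l ⬝ᵥ u - x l ⬝ᵥ zv a).im| ≤ _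
      rw [Complex.sub_im]
      exact this
    have e10 : |(∑ l', r l l' * Dl l').im| ≤ ‖r l l‖ * (k / (2 * E)) + (∑ l' ∈ Finset.univ.erase l, ‖r l l'‖) * (ρ / E) := by
      rw [e6, Complex.add_im]
      exact (abs_add_le _ _).trans (add_le_add e9 ((Complex.abs_im_le_norm _).trans e7))
    have hn1 : 0 ≤ ‖r l l‖ := norm_nonneg _
    have hn2 : 0 ≤ ∑ l' ∈ Finset.univ.erase l, ‖r l l'‖ := Finset.sum_nonneg fun _ _ => norm_nonneg _
    have e11 : ‖r l l‖ * (k / (2 * E)) ≤ S * (k / (2 * E)) := mul_le_mul_of_nonneg_right (by linarith) (by positivity)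
    have e12 : (∑ l' ∈ Finset.univ.erase l, ‖r l l'‖) * (ρ / E) ≤ S * (ρ / E) := mul_le_mul_of_nonneg_right (by linarith) (by positivity)
    calc (d : ℝ) * |(∑ l', r l l' * Dl l').im| ≤ d * (S * (k / (2 * E)) + S * (ρ / E)) :=
          mul_le_mul_of_nonneg_left (by linarith) hd0.le
      _ = E * (k / (2 * E)) + E * (ρ / E) := by rw [hE]; ring
      _ = k / 2 + ρ := by field_simp
      _ ≤ k := by linarith

end

theorem tow_GamG {p m : ℕ} (D : Dat (cp p m)) {x : Fin (cp p m + 1) → Fin (2 * cp p m + 1) → ℂ} (hx : FlagG p m D.Lt x)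
    {H : VN (cp p m) → VN (cp p m) → ℂ} {ζ : VN (cp p m) →ₗ[ℂ] Vc (cp p m)} {sec : Vc (cp p m) →ₗ[ℂ] VN (cp p m)}
    {r : Fin (cp p m + 1) → Fin (cp p m + 1) → ℂ} (hz : Zt D.Lt x H ζ sec r) : TowG (cp p m) (Gam D.d ζ) := by
  refine towG_of p m _ (fun t ht => covZ_of D.hd hz (hx.step t ht)) ?_
  obtain ⟨a, hl, hne, him⟩ := hx.last
  have hua : ∀ l : Fin (cp p m + 1), (l : ℕ) < cp p m → x l ⬝ᵥ lat D.d a = 0 := fun l h => by rw [dot_lat, hl l h, mul_zero]
  have hr0 := re_eq (hz.diag (Fin.last (cp p m))).2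
  have hp0 := (hz.diag (Fin.last (cp p m))).1
  have ea : ζ (lat D.d a) (Fin.last (cp p m)) = r (Fin.last (cp p m)) (Fin.last (cp p m)) * ((D.d : ℂ) * (x (Fin.last (cp p m)) ⬝ᵥ zv a)) := by
    rw [zeq hz (i := Fin.last (cp p m)) (by simpa using hua), dot_lat]
  refine ⟨ζ (lat D.d a), ⟨a, rfl⟩, fun l h => zlt hz hua l h, ?_, ?_⟩
  · rw [ea]
    refine mul_ne_zero ?_ (mul_ne_zero (by exact_mod_cast D.hd.ne') hne)
    intro h0; rw [h0] at hp0; simp at hp0
  · rw [ea, hr0, re_eq him]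
    simp

end D2G

end Pool.Agent.LT
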