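import Pool.Agent.Lib.MP_f58a57_nt.LT.V.D2G

/-!
# MP_f58a57_nt, large transcendence degree, version 2: assembly of ThmD2G (ThmB2 -> ThmFlagG -> ThmD2G)
-/

open Complex Matrix

noncomputable section

namespace Pool.Agent.LT

namespace D2G

open R10_

variable {c : ℕ}

/-- the normal form of the sections (without the tower) -/
structure NG (D : Dat c) (b : VN c →ₗ[ℝ] (Fin (2 * c + 1) → ℝ)) (Y : VN c →ₗ[ℝ] ℝ) (l : Fin (2 * c + 1) → ℝ) (ζ : VN c →ₗ[ℂ] Vc c)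
    (sec : Vc c →ₗ[ℂ] VN c) (q : VN c → ℂ) (c3 C : ℝ) : Prop where
  dec : Dec D D.Lt b Y
  hsec : ∀ z, ζ (sec z) = z
  ker : ∀ u, ζ u = 0 ↔ D.Lt *ᵥ u = 0
  diff : Differentiable ℂ q
  qker : ∀ k, D.Lt *ᵥ k = 0 → ∀ u, q (u + k) = q u
  trans : ∀ a : Fin (2 * c + 1) → ℤ, ∃ κ : ℂ,
    κ.re = Real.pi * nsq (ζ (lat D.d a)) -
      (Real.pi * ∑ j, (D.z j).im * ((D.d : ℝ) * (a j : ℝ)) ^ 2 + ∑ j, l j * ((D.d : ℝ) * (a j : ℝ))) ∧
    ∀ u, q (u + lat D.d a) = q u + 2 * Real.pi * I * (lat D.d a ⬝ᵥ (D.Lt *ᵥ u)) + 2 * Real.pi * herm (ζ u) (ζ (lat D.d a)) + κ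
  c3ne : c3 ≠ 0
  im0 : ∀ (b' : Fin (2 * c + 1) → ℝ) (y : ℝ), (ζ (pt D.g b' y) 0).im = c3 * y
  C0 : 0 ≤ C
  bd : ∀ (b' : Fin (2 * c + 1) → ℝ) (y : ℝ), (∀ j, 0 ≤ b' j ∧ b' j ≤ D.d) →
    |(q (pt D.g b' y)).re - Real.pi * nsq (ζ (pt D.g b' y))| ≤ C * (1 + y ^ 2)

section
variable {D : Dat c} {b : VN c →ₗ[ℝ] (Fin (2 * c + 1) → ℝ)} {Y : VN c →ₗ[ℝ] ℝ} {l : Fin (2 * c + 1) → ℝ} {ζ : VN c →ₗ[ℂ] Vc c}
  {sec : Vc c →ₗ[ℂ] VN c} {q : VN c → ℂ} {c3 C : ℝ} {Cf : (Fin (2 * c + 1) → ℤ) → ℂ} {F : VN c → ℂ}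

private theorem R13_zero (hN : NG D b Y l ζ sec q c3 C) {k : VN c} (hk : ζ k = 0) : D.Lt *ᵥ k = 0 :=
  (hN.ker k).1 hk

theorem Gf_aut (hN : NG D b Y l ζ sec q c3 C) (hC : MulL D.d D.z l Cf) (hF : Sec D.d D.Lt Cf F) : Aut (Gam D.d ζ) (Gf sec q F) := by
  refine ⟨?_, ?_⟩
  · have hs : Differentiable ℂ (fun z : Vc c => sec z) := (LinearMap.toContinuousLinearMap sec).differentiable
    have h1 : Differentiable ℂ (fun z : Vc c => F (sec z)) := hF.diff.comp hs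
    have h2 : Differentiable ℂ (fun z : Vc c => cexp (q (sec z))) := (hN.diff.comp hs).cexp
    exact h1.mul h2
  · intro γ hγ
    obtain ⟨a, ha⟩ := mem_Gam.1 hγ
    obtain ⟨κ, hκ, htr⟩ := hN.trans a
    rw [ha] at hκ
    refine ⟨Cf a * cexp κ * cexp (-((Real.pi * nsq γ : ℝ) : ℂ)), ?_, ?_⟩
    · rw [norm_mul, norm_mul, hC a, Complex.norm_exp, Complex.norm_exp, hκ, ← Real.exp_add, ← Real.exp_add]
      rw [Complex.neg_re, Complex.ofReal_re]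
      rw [show Real.pi * ∑ j, (D.z j).im * ((D.d : ℝ) * (a j : ℝ)) ^ 2 + ∑ j, l j * ((D.d : ℝ) * (a j : ℝ)) +
        (Real.pi * nsq γ - (Real.pi * ∑ j, (D.z j).im * ((D.d : ℝ) * (a j : ℝ)) ^ 2 + ∑ j, l j * ((D.d : ℝ) * (a j : ℝ)))) +
        -(Real.pi * nsq γ) = 0 by ring]
      exact Real.exp_zero
    · intro z
      have hk : ζ (sec (z + γ) - (sec z + lat D.d a)) = 0 := by
        rw [map_sub, hN.hsec, map_add ζ, hN.hsec, ha, sub_self]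
      have hk' := R13_zero hN hk
      have e1 : sec (z + γ) = (sec z + lat D.d a) + (sec (z + γ) - (sec z + lat D.d a)) := by abel
      have hFz : F (sec (z + γ)) = Cf a * ee (-(lat D.d a ⬝ᵥ (D.Lt *ᵥ (sec z)))) * F (sec z) := by
        rw [e1, hF.ker _ hk', hF.per]
      have hqz : q (sec (z + γ)) = q (sec z) + 2 * Real.pi * I * (lat D.d a ⬝ᵥ (D.Lt *ᵥ (sec z))) +
          2 * Real.pi * herm z γ + κ := by
        rw [e1, hN.qker _ hk', htr, hN.hsec, ha]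
      show F (sec (z + γ)) * cexp (q (sec (z + γ))) = _ * (F (sec z) * cexp (q (sec z)))
      rw [hFz, hqz]
      unfold ee
      have e2 : cexp (q (sec z) + 2 * Real.pi * I * (lat D.d a ⬝ᵥ (D.Lt *ᵥ (sec z))) + 2 * Real.pi * herm z γ + κ) =
          cexp (q (sec z)) * cexp (2 * Real.pi * I * (lat D.d a ⬝ᵥ (D.Lt *ᵥ (sec z)))) * cexp (2 * Real.pi * herm z γ) * cexp κ := by
        rw [← Complex.exp_add, ← Complex.exp_add, ← Complex.exp_add]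
      have e3 : cexp (2 * Real.pi * herm z γ + Real.pi * nsq γ) = cexp (2 * Real.pi * herm z γ) * cexp ((Real.pi * nsq γ : ℝ) : ℂ) := by
        rw [← Complex.exp_add]
        push_cast
        rfl
      have e4 : cexp (-((Real.pi * nsq γ : ℝ) : ℂ)) * cexp ((Real.pi * nsq γ : ℝ) : ℂ) = 1 := by
        rw [← Complex.exp_add, neg_add_cancel, Complex.exp_zero]
      have e5 : cexp (2 * Real.pi * I * (-(lat D.d a ⬝ᵥ (D.Lt *ᵥ (sec z))))) * cexp (2 * Real.pi * I * (lat D.d a ⬝ᵥ (D.Lt *ᵥ (sec z)))) = 1 := by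
        rw [← Complex.exp_add, mul_neg, neg_add_cancel, Complex.exp_zero]
      rw [e2, e3]
      linear_combination (Cf a * F (sec z) * cexp (q (sec z)) * cexp (2 * Real.pi * herm z γ) * cexp κ) * e5 -
        (Cf a * cexp κ * cexp (2 * Real.pi * herm z γ) * F (sec z) * cexp (q (sec z))) * e4

theorem NN_Gf (hN : NG D b Y l ζ sec q c3 C) (hF : Sec D.d D.Lt Cf F) (u : VN c) :
    NN (Gf sec q F) (ζ u) = ‖F u‖ * Real.exp ((q u).re - Real.pi * nsq (ζ u)) := by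
  have hk : ζ (sec (ζ u) - u) = 0 := by rw [map_sub, hN.hsec, sub_self]
  have hk' := R13_zero hN hk
  have e1 : sec (ζ u) = u + (sec (ζ u) - u) := by abel
  have h1 : F (sec (ζ u)) = F u := by rw [e1, hF.ker _ hk']
  have h2 : q (sec (ζ u)) = q u := by rw [e1, hN.qker _ hk']
  unfold NN Gf
  rw [h1, h2, norm_mul, Complex.norm_exp, mul_assoc, ← Real.exp_add]
  congr 2

theorem exists_box (hN : NG D b Y l ζ sec q c3 C) (hC : MulL D.d D.z l Cf) (hF : Sec D.d D.Lt Cf F) (z : Vc c) :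
    ∃ (b' : Fin (2 * c + 1) → ℝ) (y : ℝ), (∀ j, 0 ≤ b' j ∧ b' j ≤ D.d) ∧ (z 0).im = c3 * y ∧
      NN (Gf sec q F) z = NN (Gf sec q F) (ζ (pt D.g b' y)) := by
  have hd : (0 : ℝ) < D.d := by exact_mod_cast D.hd
  have hz : z = ζ (pt D.g (b (sec z)) (Y (sec z))) := by
    have h1 := (hN.ker _).2 (hN.dec.dec (sec z))
    rw [map_sub, hN.hsec, sub_eq_zero] at h1
    exact h1
  set y := Y (sec z) with hy
  set B := b (sec z) with hB
  let a : Fin (2 * c + 1) → ℤ := fun j => ⌊B j / D.d⌋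
  let b' : Fin (2 * c + 1) → ℝ := fun j => B j - D.d * (a j : ℝ)
  have hpt : pt D.g B y = pt D.g b' y + lat D.d a := by
    funext j
    simp only [pt, lat, b', Pi.add_apply]
    push_cast
    ring
  refine ⟨b', y, ?_, ?_, ?_⟩
  · intro j
    have h1 : (a j : ℝ) ≤ B j / D.d := Int.floor_le _
    have h2 : B j / D.d < (a j : ℝ) + 1 := Int.lt_floor_add_one _
    rw [le_div_iff₀ hd] at h1
    rw [div_lt_iff₀ hd] at h2
    constructor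
    · show 0 ≤ B j - D.d * (a j : ℝ)
      linarith
    · show B j - D.d * (a j : ℝ) ≤ D.d
      linarith
  · rw [hz]
    exact hN.im0 B y
  · have h1 : z = ζ (pt D.g b' y) + ζ (lat D.d a) := by
      rw [← map_add, ← hpt]
      exact hz
    rw [h1]
    exact NN_inv (Gf_aut hN hC hF) (mem_Gam.2 ⟨a, rfl⟩) _

/-- the imaginary part of the first coordinate -/
theorem im_zeta (D : Dat c) {x : Fin (c + 1) → Fin (2 * c + 1) → ℂ} (hker : ∀ u, D.Lt *ᵥ u = 0 ↔ ∀ i, x i ⬝ᵥ u = 0)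
    (hli : LinearIndependent ℂ x) (hreal : ∀ b : Fin (2 * c + 1) → ℝ, (x 0 ⬝ᵥ rv b).im = 0) {H : VN c → VN c → ℂ}
    {ζ : VN c →ₗ[ℂ] Vc c} {sec : Vc c →ₗ[ℂ] VN c} {r : Fin (c + 1) → Fin (c + 1) → ℂ} (hz : Zt D.Lt x H ζ sec r)
    {b : VN c →ₗ[ℝ] (Fin (2 * c + 1) → ℝ)} {Y : VN c →ₗ[ℝ] ℝ} (hd : Dec D D.Lt b Y) :
    ∃ c3 : ℝ, c3 ≠ 0 ∧ ∀ (b' : Fin (2 * c + 1) → ℝ) (y : ℝ), (ζ (pt D.g b' y) 0).im = c3 * y := by
  set G : ℝ := (x 0 ⬝ᵥ rv (fun j => (D.g j : ℝ))).re with hG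
  have hGc : x 0 ⬝ᵥ rv (fun j => (D.g j : ℝ)) = (G : ℂ) := re_eq (hreal _)
  have hpt : ∀ (b' : Fin (2 * c + 1) → ℝ) (y : ℝ), x 0 ⬝ᵥ pt D.g b' y = x 0 ⬝ᵥ rv b' + I * y * G := by
    intro b' y
    have e : pt D.g b' y = rv b' + (I * y) • rv (fun j => (D.g j : ℝ)) := by
      funext j; simp [pt, rv]
    rw [e, dotProduct_add, dotProduct_smul, hGc, smul_eq_mul]
  have him : ∀ (b' : Fin (2 * c + 1) → ℝ) (y : ℝ), (x 0 ⬝ᵥ pt D.g b' y).im = y * G := by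
    intro b' y
    rw [hpt, Complex.add_im, hreal]
    simp
  have hG0 : G ≠ 0 := by
    intro h0
    have hall : ∀ u : VN c, (x 0 ⬝ᵥ u).im = 0 := by
      intro u
      have hk := (hker _).1 (hd.dec u) 0
      rw [dotProduct_sub, sub_eq_zero] at hk
      rw [hk, him, h0, mul_zero]
    have hz0 : ∀ u : VN c, x 0 ⬝ᵥ u = 0 := by
      intro u
      have h1 := hall u
      have h2 := hall (I • u)
      rw [dotProduct_smul, smul_eq_mul] at h2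
      simp at h2
      exact Complex.ext h2 h1
    have hx0 : x 0 = 0 := by
      funext j
      have := hz0 (Pi.single j 1)
      rw [dotProduct_single, mul_one] at this
      exact this
    exact hli.ne_zero 0 hx0
  have hp0 := (hz.diag 0).1
  refine ⟨(r 0 0).re * G, mul_ne_zero hp0.ne' hG0, fun b' y => ?_⟩
  have e0 : ζ (pt D.g b' y) 0 = r 0 0 * (x 0 ⬝ᵥ pt D.g b' y) := zeq hz (i := 0) fun l h => absurd h (by simp)
  rw [e0, Complex.mul_im, (hz.diag 0).2, him]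
  ring

end

theorem int_of_NG {D : Dat c} {b : VN c →ₗ[ℝ] (Fin (2 * c + 1) → ℝ)} {Y : VN c →ₗ[ℝ] ℝ} {l : Fin (2 * c + 1) → ℝ} {ζ : VN c →ₗ[ℂ] Vc c}
    {sec : Vc c →ₗ[ℂ] VN c} {q : VN c → ℂ} {c3 C1 : ℝ} (hB : IntB c (Gam D.d ζ)) (hN : NG D b Y l ζ sec q c3 C1)
    {Cf : (Fin (2 * c + 1) → ℤ) → ℂ} (hC : MulL D.d D.z l Cf) : INT D.d D.g D.Lt Cf := by
  intro ε A hε hε1 hA
  have hc3 : 0 < |c3| := abs_pos.mpr hN.c3ne
  have hc32 : 0 < c3 ^ 2 := by have := hN.c3ne; positivity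
  obtain ⟨CB, TB, hCB, hB1⟩ := hB (ε / 2) ((A + C1) * (1 + 1 / c3 ^ 2)) (by linarith) (by linarith)
    (mul_nonneg (add_nonneg hA hN.C0) (by positivity))
  obtain ⟨C3, hC3, hJ⟩ := jets_DD sec q hN.diff
  obtain ⟨C, T0, hC1, hT0, hest⟩ := est c ε c3 C1 C3 CB TB hε hε1 hN.c3ne hN.C0 hC3 hCB
  refine ⟨C, T0, hC1, ?_⟩
  intro T hT k hk1 hk2 F hF hbox hjet b' y hb' hy
  obtain ⟨hk0, e1, e2, e3, e4⟩ := hest T hT k hk1 hk2
  obtain ⟨e5, e6⟩ := e4 y hy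
  have hG := Gf_aut hN hC hF
  have hgrow : ∀ z, |(z 0).im| ≤ |c3| * k → NN (Gf sec q F) z ≤ Real.exp ((A + C1) * (1 + 1 / c3 ^ 2) * (1 + (z 0).im ^ 2)) := by
    intro z hz
    obtain ⟨b2, y2, h1, h2, h3⟩ := exists_box hN hC hF z
    rw [h3, NN_Gf hN hF]
    have hy2 : |y2| ≤ k := by
      rw [h2, abs_mul] at hz
      exact le_of_mul_le_mul_left hz hc3
    have h4 := hbox b2 y2 h1 hy2
    have h5 : (q (pt D.g b2 y2)).re - Real.pi * nsq (ζ (pt D.g b2 y2)) ≤ C1 * (1 + y2 ^ 2) := (le_abs_self _).trans (hN.bd b2 y2 h1)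
    calc ‖F (pt D.g b2 y2)‖ * Real.exp ((q (pt D.g b2 y2)).re - Real.pi * nsq (ζ (pt D.g b2 y2)))
        ≤ Real.exp (A * (1 + y2 ^ 2)) * Real.exp (C1 * (1 + y2 ^ 2)) :=
          mul_le_mul h4 (Real.exp_le_exp.mpr h5) (Real.exp_pos _).le (Real.exp_pos _).le
      _ = Real.exp ((A + C1) * (1 + y2 ^ 2)) := by rw [← Real.exp_add]; ring_nf
      _ ≤ _ := by
        apply Real.exp_le_exp.mpr
        rw [mul_assoc]
        apply mul_le_mul_of_nonneg_left _ (add_nonneg hA hN.C0)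
        rw [h2]
        have hne := hN.c3ne
        have : (1 + 1 / c3 ^ 2) * (1 + (c3 * y2) ^ 2) = 1 + y2 ^ 2 + (c3 ^ 2 * y2 ^ 2 + 1 / c3 ^ 2) := by
          field_simp
          ring
        rw [this]
        have : 0 ≤ c3 ^ 2 * y2 ^ 2 + 1 / c3 ^ 2 := by positivity
        linarith
  have hJJ : JJ (Gf sec q F) T (Real.exp (-((T : ℝ) ^ (ε / 2) * (|c3| * k) ^ 2))) := by
    intro v hv d hd
    exact (hJ F hF.diff T _ (Real.exp_pos _).le hjet v hv d hd).trans e3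
  have hsmall := hB1 T (hT0.trans hT) (|c3| * k) e1 e2 (Gf sec q F) hG hgrow hJJ (ζ (pt D.g b' y)) (by rw [hN.im0]; exact e5)
  rw [NN_Gf hN hF] at hsmall
  have h5 : -(C1 * (1 + y ^ 2)) ≤ (q (pt D.g b' y)).re - Real.pi * nsq (ζ (pt D.g b' y)) := (abs_le.mp (hN.bd b' y hb')).1
  have h6 : ‖F (pt D.g b' y)‖ * Real.exp (-(C1 * (1 + y ^ 2))) ≤ Real.exp (-((|c3| * k) ^ 2 / CB)) :=
    (mul_le_mul_of_nonneg_left (Real.exp_le_exp.mpr h5) (norm_nonneg _)).trans hsmall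
  calc ‖F (pt D.g b' y)‖ = ‖F (pt D.g b' y)‖ * Real.exp (-(C1 * (1 + y ^ 2))) * Real.exp (C1 * (1 + y ^ 2)) := by
        rw [mul_assoc, ← Real.exp_add, neg_add_cancel, Real.exp_zero, mul_one]
    _ ≤ Real.exp (-((|c3| * k) ^ 2 / CB)) * Real.exp (C1 * (1 + y ^ 2)) := mul_le_mul_of_nonneg_right h6 (Real.exp_pos _).le
    _ ≤ _ := e6

theorem int_of_flagG (hB : ThmB2) {p m : ℕ} (D : Dat (cp p m)) {x : Fin (cp p m + 1) → Fin (2 * cp p m + 1) → ℂ} (hx : FlagG p m D.Lt x)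
    {Cf : (Fin (2 * cp p m + 1) → ℤ) → ℂ} (hC : MulOK D.d D.z Cf) : INT D.d D.g D.Lt Cf := by
  obtain ⟨l, hl⟩ := hC
  obtain ⟨b, Y, hd⟩ := exists_dec D D.Lt (Or.inl rfl)
  have hR : RB (Rf D b Y) := Rf_RB
  have hHk : ∀ u, D.Lt *ᵥ u = 0 → ∀ v, Hf (Rf D b Y) u v = 0 := by
    intro u hu v
    have h2 : D.Lt *ᵥ (I • u) = 0 := by rw [Matrix.mulVec_smul, hu, smul_zero]
    simp only [Hf, Rf_ker hd hu, Rf_ker hd h2]
    simp
  obtain ⟨ζ, sec, r, hz⟩ := exists_zeta hx.ker hx.li (Hf (Rf D b Y)) (Hf_add hR) (Hf_smul hR) (Hf_conj hR) hHk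
    (fun u hu => Hf_Rf_pos hd hu)
  obtain ⟨c3, hc3, him⟩ := im_zeta D hx.ker hx.li hx.real0 hz hd
  obtain ⟨C, hC0, hbd⟩ := qf_bd hd l hz.hh
  exact int_of_NG (l := l) (C1 := C) (hB _ _ (tow_GamG D hx hz)) {
    dec := hd
    hsec := hz.hsec
    ker := hz.ker
    diff := qf_diff l
    qker := fun k hk u => qf_ker hd l hk u
    trans := fun a => qf_trans hd l hz.hh a
    c3ne := hc3
    im0 := him
    C0 := hC0
    bd := hbd } hl

end D2G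

theorem thmD2G (hB : ThmB2) (hFl : ThmFlagG) : ThmD2G := by
  intro K p hK m D h1 h2 h3
  constructor
  · intro C hC
    obtain ⟨x, hx⟩ := hFl K p hK m D.z h1 D.im h2 h3 D.M D.rk
    exact D2G.int_of_flagG hB D hx hC
  · intro C hC
    obtain ⟨x, hx⟩ := hFl K p hK m D.tr.z h1 D.tr.im h2 h3 D.tr.M D.tr.rk
    exact D2G.int_of_flagG hB D.tr hx hC

end Pool.Agent.LT
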