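import Mathlib
import Pool.Agent.Lib.MP_f58a57_nt.LT.V.V0

/-!
# MP_f58a57_nt, large transcendence degree, version 2: the number `p` of a quartic field
-/

open Module Complex

noncomputable section

namespace Pool.Agent.LT.QGf

/-- the composite of `K` and `K̄` as an intermediate field over `K` -/
theorem sup_eq (K : Subfield ℂ) [FiniteDimensional ℚ K] (α : K) (hα : IntermediateField.adjoin ℚ {α} = ⊤) :
    (IntermediateField.adjoin K {(starRingEnd ℂ) (α : ℂ)} : IntermediateField K ℂ).toSubfield = K ⊔ K.map (starRingEnd ℂ) := by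
  apply le_antisymm
  · show Subfield.closure (Set.range (algebraMap K ℂ) ∪ {(starRingEnd ℂ) (α : ℂ)}) ≤ _
    rw [Subfield.closure_le]
    rintro x (⟨y, rfl⟩ | hx)
    · exact (le_sup_left : K ≤ K ⊔ K.map (starRingEnd ℂ)) y.2
    · rw [Set.mem_singleton_iff] at hx
      rw [hx]
      exact (le_sup_right : K.map (starRingEnd ℂ) ≤ K ⊔ K.map (starRingEnd ℂ)) ⟨α, α.2, rfl⟩
  · apply sup_le
    · intro x hx
      exact (IntermediateField.adjoin K {(starRingEnd ℂ) (α : ℂ)}).algebraMap_mem ⟨x, hx⟩
    · rintro _ ⟨x, hx, rfl⟩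
      set T : IntermediateField K ℂ := IntermediateField.adjoin K {(starRingEnd ℂ) (α : ℂ)} with hT
      -- the elements of `K` whose conjugate is in `T`
      let S : Subfield K := (T.toSubfield.comap (starRingEnd ℂ)).comap K.subtype
      have hS : ∀ q : ℚ, algebraMap ℚ K q ∈ S := by
        intro q
        show (starRingEnd ℂ) (((algebraMap ℚ K q : K)) : ℂ) ∈ T
        have h1 : ((algebraMap ℚ K q : K) : ℂ) = (q : ℂ) := by simp
        rw [h1, map_ratCast]
        exact SubfieldClass.ratCast_mem T q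
      have h2 : IntermediateField.adjoin ℚ {α} ≤ S.toIntermediateField hS := by
        rw [IntermediateField.adjoin_le_iff]
        rintro y hy
        rw [Set.mem_singleton_iff] at hy
        rw [hy]
        show (starRingEnd ℂ) (α : ℂ) ∈ T
        exact IntermediateField.mem_adjoin_simple_self K _
      rw [hα] at h2
      exact h2 (IntermediateField.mem_top (x := (⟨x, hx⟩ : K)))

/-- the degree of the composite -/
theorem finrank_sup (K : Subfield ℂ) [FiniteDimensional ℚ K] (α : K) (hα : IntermediateField.adjoin ℚ {α} = ⊤) :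
    finrank ℚ ↥(K ⊔ K.map (starRingEnd ℂ)) =
      finrank ℚ K * finrank K (IntermediateField.adjoin K {(starRingEnd ℂ) (α : ℂ)} : IntermediateField K ℂ) := by
  rw [← sup_eq K α hα, Module.finrank_mul_finrank]
  rfl

/-- the generator is not real -/
theorem conj_ne (K : Subfield ℂ) [FiniteDimensional ℚ K] (hnr : ∃ x ∈ K, x.im ≠ 0) (α : K) (hα : IntermediateField.adjoin ℚ {α} = ⊤) :
    (starRingEnd ℂ) (α : ℂ) ≠ (α : ℂ) := by
  intro h
  obtain ⟨x, hx, hxi⟩ := hnr
  apply hxi
  let S : Subfield K := RingHom.eqLocusField ((starRingEnd ℂ).comp K.subtype) K.subtype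
  have hS : ∀ q : ℚ, algebraMap ℚ K q ∈ S := by
    intro q
    show (starRingEnd ℂ) (((algebraMap ℚ K q : K)) : ℂ) = ((algebraMap ℚ K q : K) : ℂ)
    have h1 : ((algebraMap ℚ K q : K) : ℂ) = (q : ℂ) := by simp
    rw [h1, map_ratCast]
  have h2 : IntermediateField.adjoin ℚ {α} ≤ S.toIntermediateField hS := by
    rw [IntermediateField.adjoin_le_iff]
    rintro y hy
    rw [Set.mem_singleton_iff] at hy
    rw [hy]
    exact h
  rw [hα] at h2
  have h3 : (starRingEnd ℂ) x = x := h2 (IntermediateField.mem_top (x := (⟨x, hx⟩ : K)))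
  exact Complex.conj_eq_iff_im.mp h3

/-- the degree of `K K̄` over `K` is at most `3` -/
theorem deg_le (K : Subfield ℂ) [FiniteDimensional ℚ K] (hnr : ∃ x ∈ K, x.im ≠ 0) (α : K) (hα : IntermediateField.adjoin ℚ {α} = ⊤) :
    finrank K (IntermediateField.adjoin K {(starRingEnd ℂ) (α : ℂ)} : IntermediateField K ℂ) + 1 ≤ finrank ℚ K := by
  have hαi : IsIntegral ℚ α := Algebra.IsIntegral.isIntegral α
  set m : Polynomial ℚ := minpoly ℚ α with hm
  have hm0 : m ≠ 0 := minpoly.ne_zero hαi
  have hdm : m.natDegree = finrank ℚ K := by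
    rw [hm, ← IntermediateField.adjoin.finrank hαi, hα]
    exact IntermediateField.finrank_top'
  set f : Polynomial K := m.map (algebraMap ℚ K) with hf
  have hfr : f.IsRoot α := by
    rw [hf, Polynomial.IsRoot.def, Polynomial.eval_map, ← Polynomial.aeval_def]
    exact minpoly.aeval ℚ α
  obtain ⟨g, hg⟩ := Polynomial.dvd_iff_isRoot.mpr hfr
  have hf0 : f ≠ 0 := by
    rw [hf]
    exact (Polynomial.map_ne_zero_iff (algebraMap ℚ K).injective).mpr hm0
  have hg0 : g ≠ 0 := by
    rintro rfl
    rw [mul_zero] at hg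
    exact hf0 hg
  have hdg : g.natDegree + 1 = finrank ℚ K := by
    have h1 : f.natDegree = finrank ℚ K := by rw [hf, Polynomial.natDegree_map, hdm]
    rw [hg, Polynomial.natDegree_mul (Polynomial.X_sub_C_ne_zero α) hg0, Polynomial.natDegree_X_sub_C] at h1
    omega
  have hconj : Polynomial.aeval ((starRingEnd ℂ) (α : ℂ)) f = 0 := by
    have h1 : Polynomial.aeval (α : ℂ) m = 0 := by
      have h2 := minpoly.aeval ℚ α
      have h3 := congrArg (fun t : K => (t : ℂ)) h2
      have h4 := Polynomial.aeval_algebraMap_apply ℂ α m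
      rw [show (algebraMap K ℂ) α = (α : ℂ) from rfl] at h4
      rw [h4, hm, h2, map_zero]
    have h5 : Polynomial.aeval ((starRingEnd ℂ) (α : ℂ)) m = 0 := by
      have h6 := congrArg (starRingEnd ℂ) h1
      rw [Polynomial.aeval_def, Polynomial.hom_eval₂, map_zero] at h6
      rw [Polynomial.aeval_def, ← h6]
      congr 1
      exact Subsingleton.elim _ _
    rw [hf, Polynomial.aeval_map_algebraMap]
    exact h5
  have hgz : Polynomial.aeval ((starRingEnd ℂ) (α : ℂ)) g = 0 := by
    rw [hg, map_mul] at hconj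
    rcases mul_eq_zero.mp hconj with h | h
    · exfalso
      rw [map_sub, Polynomial.aeval_X, Polynomial.aeval_C, sub_eq_zero] at h
      exact conj_ne K hnr α hα h
    · exact h
  have hint : IsIntegral K ((starRingEnd ℂ) (α : ℂ)) := by
    have h1 : IsAlgebraic K ((starRingEnd ℂ) (α : ℂ)) := ⟨g, hg0, hgz⟩
    exact h1.isIntegral
  rw [IntermediateField.adjoin.finrank hint, ← hdg]
  have h7 := Polynomial.natDegree_le_of_dvd (minpoly.dvd K _ hgz) hg0
  omega

/-- EXISTENCE of `p` -/
theorem exists_p (K : Subfield ℂ) (hK : finrank ℚ K = 4) (hnr : ∃ x ∈ K, x.im ≠ 0) : ∃ p, p ≤ 2 ∧ QG K p := by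
  have hfK : FiniteDimensional ℚ K := FiniteDimensional.of_finrank_pos (by omega)
  obtain ⟨α, hα⟩ := Field.exists_primitive_element ℚ K
  have h1 := deg_le K hnr α hα
  have h2 := finrank_sup K α hα
  rw [hK] at h1 h2
  have h3 : 0 < finrank K (IntermediateField.adjoin K {(starRingEnd ℂ) (α : ℂ)} : IntermediateField K ℂ) := by
    have hint : IsIntegral K ((starRingEnd ℂ) (α : ℂ)) := by
      have h5 : Polynomial.aeval (α : ℂ) (minpoly ℚ α) = 0 := by
        have h4 := Polynomial.aeval_algebraMap_apply ℂ α (minpoly ℚ α)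
        rw [show (algebraMap K ℂ) α = (α : ℂ) from rfl] at h4
        rw [h4, minpoly.aeval, map_zero]
      have h6 : IsIntegral ℚ (α : ℂ) := by
        have h7 : IsAlgebraic ℚ (α : ℂ) := ⟨_, minpoly.ne_zero (Algebra.IsIntegral.isIntegral α), h5⟩
        exact h7.isIntegral
      have h8 : IsIntegral ℚ ((starRingEnd ℂ) (α : ℂ)) := by
        have h9 : Polynomial.aeval ((starRingEnd ℂ) (α : ℂ)) (minpoly ℚ (α : ℂ)) = 0 := by
          have h6 := congrArg (starRingEnd ℂ) (minpoly.aeval ℚ (α : ℂ))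
          rw [Polynomial.aeval_def, Polynomial.hom_eval₂, map_zero] at h6
          rw [Polynomial.aeval_def, ← h6]
          congr 1
          exact Subsingleton.elim _ _
        have h10 : IsAlgebraic ℚ ((starRingEnd ℂ) (α : ℂ)) := ⟨_, minpoly.ne_zero h6, h9⟩
        exact h10.isIntegral
      exact h8.tower_top
    rw [IntermediateField.adjoin.finrank hint]
    exact minpoly.natDegree_pos hint
  obtain ⟨p, hp⟩ : ∃ p, finrank K (IntermediateField.adjoin K {(starRingEnd ℂ) (α : ℂ)} : IntermediateField K ℂ) = p + 1 := ⟨_, (Nat.sub_add_cancel h3).symm⟩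
  rw [hp] at h1 h2
  exact ⟨p, by omega, hK, hnr, h2⟩

theorem p_unique {K : Subfield ℂ} {p q : ℕ} (hp : QG K p) (hq : QG K q) : p = q := by
  have h1 := hp.rel
  rw [hq.rel] at h1
  omega

theorem p_le {K : Subfield ℂ} {p : ℕ} (hp : QG K p) : p ≤ 2 := by
  obtain ⟨q, hq, h⟩ := exists_p K hp.dim hp.nr
  rw [p_unique hp h]
  exact hq

end Pool.Agent.LT.QGf
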