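import Mathlib
import Pool.Agent.Lib.MP_f58a57_nt.LT.V.QGf

/-!
# MP_f58a57_nt, large transcendence degree, version 2: `p = 0` if and only if `K` contains a real quadratic field
-/

open Module Complex

noncomputable section

namespace Pool.Agent.LT.QGf

theorem sqrt_irr {Δ : ℕ} (hΔ : ¬ IsSquare Δ) {a b : ℚ} (h : (a : ℝ) + b * Real.sqrt Δ = 0) : a = 0 ∧ b = 0 := by
  have hirr : Irrational (Real.sqrt Δ) := irrational_sqrt_natCast_iff.mpr hΔ
  have hb : b = 0 := by
    by_contra hb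
    apply hirr
    refine ⟨-a / b, ?_⟩
    have hb' : (b : ℝ) ≠ 0 := by exact_mod_cast hb
    push_cast
    field_simp
    linarith
  subst hb
  simp only [Rat.cast_zero, zero_mul, add_zero] at h
  exact ⟨by exact_mod_cast h, rfl⟩

/-- a nonreal quartic field which contains a real quadratic field -/
theorem of_QF {K : Subfield ℂ} (hK : QF K) : QG K 0 := by
  obtain ⟨Δ, hΔ, hr⟩ := hK.rq
  obtain ⟨θ, hθ, hθi⟩ := hK.nr
  have hfK : FiniteDimensional ℚ K := FiniteDimensional.of_finrank_pos (by rw [hK.dim]; omega)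
  set r : ℂ := ((Real.sqrt Δ : ℝ) : ℂ) with hrd
  let v : Fin 4 → K := ![1, ⟨r, hr⟩, ⟨θ, hθ⟩, ⟨r, hr⟩ * ⟨θ, hθ⟩]
  have hli : LinearIndependent ℚ v := by
    rw [Fintype.linearIndependent_iff]
    intro g hg
    have h1 : (g 0 : ℂ) + g 1 * r + g 2 * θ + g 3 * (r * θ) = 0 := by
      have h2 := congrArg (fun t : K => (t : ℂ)) hg
      simp only [Fin.sum_univ_four, v] at h2
      simpa [Rat.smul_def] using h2
    have h3 : (g 2 : ℝ) + g 3 * Real.sqrt Δ = 0 := by
      have h4 := congrArg Complex.im h1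
      simp only [hrd, Complex.add_im, Complex.mul_im, Complex.ratCast_im, Complex.ratCast_re, Complex.ofReal_im, Complex.ofReal_re,
        Complex.zero_im, mul_zero, zero_mul, add_zero, zero_add, Complex.mul_re, sub_zero] at h4
      have h5 : ((g 2 : ℝ) + g 3 * Real.sqrt Δ) * θ.im = 0 := by linear_combination h4
      exact (mul_eq_zero.mp h5).resolve_right hθi
    obtain ⟨h5, h6⟩ := sqrt_irr hΔ h3
    have h7 : (g 0 : ℝ) + g 1 * Real.sqrt Δ = 0 := by
      have h4 := congrArg Complex.re h1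
      rw [h5, h6] at h4
      simpa [hrd] using h4
    obtain ⟨h8, h9⟩ := sqrt_irr hΔ h7
    intro i
    fin_cases i
    · exact h8
    · exact h9
    · exact h5
    · exact h6
  have hspan : Submodule.span ℚ (Set.range v) = ⊤ := hli.span_eq_top_of_card_eq_finrank' (by rw [hK.dim]; rfl)
  have hrep : ∀ x ∈ K, ∃ a b c d : ℚ, x = a + b * r + (c + d * r) * θ := by
    intro x hx
    have h1 : (⟨x, hx⟩ : K) ∈ Submodule.span ℚ (Set.range v) := by rw [hspan]; exact Submodule.mem_top
    rw [Submodule.mem_span_range_iff_exists_fun] at h1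
    obtain ⟨g, hg⟩ := h1
    refine ⟨g 0, g 1, g 2, g 3, ?_⟩
    have h2 := congrArg (fun t : K => (t : ℂ)) hg
    simp only [Fin.sum_univ_four, v] at h2
    have h3 : (g 0 : ℂ) + g 1 * r + g 2 * θ + g 3 * (r * θ) = x := by simpa [Rat.smul_def] using h2
    rw [← h3]
    ring
  have hrr : (starRingEnd ℂ) r = r := Complex.conj_ofReal _
  have hθc : (starRingEnd ℂ) θ ∈ K := by
    obtain ⟨a, b, c, d, h⟩ := hrep (θ ^ 2) (pow_mem hθ 2)
    have h1 := congrArg (starRingEnd ℂ) h
    simp only [map_add, map_mul, map_pow, map_ratCast, hrr] at h1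
    have hne : θ - (starRingEnd ℂ) θ ≠ 0 := by
      intro h2
      exact hθi (Complex.conj_eq_iff_im.mp (sub_eq_zero.mp h2).symm)
    have h2 : (starRingEnd ℂ) θ = c + d * r - θ := by
      apply mul_left_cancel₀ hne
      linear_combination h - h1
    rw [h2]
    exact sub_mem (add_mem (SubfieldClass.ratCast_mem K c) (mul_mem (SubfieldClass.ratCast_mem K d) hr)) hθ
  have hle : K.map (starRingEnd ℂ) ≤ K := by
    rintro _ ⟨x, hx, rfl⟩
    obtain ⟨a, b, c, d, rfl⟩ := hrep x hx
    simp only [map_add, map_mul, map_ratCast, hrr]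
    exact add_mem (add_mem (SubfieldClass.ratCast_mem K a) (mul_mem (SubfieldClass.ratCast_mem K b) hr))
      (mul_mem (add_mem (SubfieldClass.ratCast_mem K c) (mul_mem (SubfieldClass.ratCast_mem K d) hr)) hθc)
  refine ⟨hK.dim, hK.nr, ?_⟩
  rw [sup_eq_left.mpr hle, hK.dim]

/-- a subfield as a `ℚ`-space -/
def sm (S : Subfield ℂ) : Submodule ℚ ℂ where
  carrier := S
  add_mem' := fun ha hb => S.add_mem ha hb
  zero_mem' := S.zero_mem
  smul_mem' := by
    intro q x hx
    rw [Rat.smul_def]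
    exact mul_mem (SubfieldClass.ratCast_mem S q) hx

theorem conj_mem {K : Subfield ℂ} (hK : QG K 0) {x : ℂ} (hx : x ∈ K) : (starRingEnd ℂ) x ∈ K := by
  have h1 : sm K ≤ sm (K ⊔ K.map (starRingEnd ℂ)) := (le_sup_left : K ≤ K ⊔ K.map (starRingEnd ℂ))
  have h2 : finrank ℚ (sm K) = 4 := hK.dim
  have h3 : finrank ℚ (sm (K ⊔ K.map (starRingEnd ℂ))) = 4 := hK.rel
  have : FiniteDimensional ℚ (sm (K ⊔ K.map (starRingEnd ℂ))) := FiniteDimensional.of_finrank_pos (by omega)
  have h4 := Submodule.eq_of_le_of_finrank_eq h1 (by rw [h2, h3])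
  have h5 : (starRingEnd ℂ) x ∈ sm (K ⊔ K.map (starRingEnd ℂ)) :=
    (le_sup_right : K.map (starRingEnd ℂ) ≤ K ⊔ K.map (starRingEnd ℂ)) ⟨x, hx, rfl⟩
  rw [← h4] at h5
  exact h5

/-- the real elements of `K` -/
def Fr (K : Subfield ℂ) : Submodule ℚ K where
  carrier := {x | (x : ℂ).im = 0}
  add_mem' := by
    intro a b ha hb
    show ((a + b : K) : ℂ).im = 0
    have ha' : (a : ℂ).im = 0 := ha
    have hb' : (b : ℂ).im = 0 := hb
    simp [ha', hb']
  zero_mem' := by simp
  smul_mem' := by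
    intro q x hx
    have hx' : (x : ℂ).im = 0 := hx
    show ((q • x : K) : ℂ).im = 0
    have : ((q • x : K) : ℂ) = (q : ℂ) * x := by
      rw [← Rat.smul_def]
      rfl
    rw [this]
    simp [hx']

theorem finrank_Fr {K : Subfield ℂ} (hK : QG K 0) : finrank ℚ (Fr K) = 2 := by
  obtain ⟨θ, hθ, hθi⟩ := hK.nr
  have hfK : FiniteDimensional ℚ K := FiniteDimensional.of_finrank_pos (by rw [hK.dim]; omega)
  set w : K := ⟨θ, hθ⟩ - ⟨(starRingEnd ℂ) θ, conj_mem hK hθ⟩ with hw
  have hwc : (w : ℂ) = θ - (starRingEnd ℂ) θ := rfl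
  have hwr : (w : ℂ).re = 0 := by rw [hwc]; simp
  have hwi : (w : ℂ).im ≠ 0 := by
    rw [hwc, Complex.sub_im, Complex.conj_im, sub_neg_eq_add, ← two_mul]
    exact mul_ne_zero two_ne_zero hθi
  have hw0 : (w : ℂ) ≠ 0 := fun h => hwi (by rw [h]; rfl)
  let L : (Fr K × Fr K) →ₗ[ℚ] K := (Fr K).subtype.coprod ((LinearMap.mulLeft ℚ w).comp (Fr K).subtype)
  have hL : ∀ a b, L (a, b) = (a : K) + w * (b : K) := fun a b => rfl
  have hinj : Function.Injective L := by
    rw [← LinearMap.ker_eq_bot, LinearMap.ker_eq_bot']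
    rintro ⟨a, b⟩ h
    rw [hL] at h
    have h1 := congrArg (fun t : K => (t : ℂ)) h
    have ha : ((a : K) : ℂ).im = 0 := a.2
    have hb : ((b : K) : ℂ).im = 0 := b.2
    have h2 : ((a : K) : ℂ) + (w : ℂ) * ((b : K) : ℂ) = 0 := h1
    have h3 := congrArg Complex.re h2
    have h4 := congrArg Complex.im h2
    simp only [Complex.add_re, Complex.mul_re, Complex.add_im, Complex.mul_im, hwr, ha, hb, zero_mul, mul_zero, sub_zero, add_zero,
      zero_add, Complex.zero_re, Complex.zero_im] at h3 h4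
    have h5 : ((b : K) : ℂ).re = 0 := (mul_eq_zero.mp h4).resolve_left hwi
    have ha0 : (a : K) = 0 := Subtype.ext (Complex.ext h3 ha)
    have hb0 : (b : K) = 0 := Subtype.ext (Complex.ext h5 hb)
    rw [Prod.mk_eq_zero]
    exact ⟨Subtype.ext ha0, Subtype.ext hb0⟩
  have hsurj : Function.Surjective L := by
    intro x
    have hxc : (starRingEnd ℂ) (x : ℂ) ∈ K := conj_mem hK x.2
    set y : K := ⟨_, hxc⟩ with hy
    have hyc : (y : ℂ) = (starRingEnd ℂ) (x : ℂ) := rfl
    have h1 : (((x + y) / 2 : K) : ℂ).im = 0 := by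
      have : (((x + y) / 2 : K) : ℂ) = (((x : ℂ).re : ℝ) : ℂ) := by
        show ((x : ℂ) + (y : ℂ)) / (2 : ℂ) = _
        rw [hyc, Complex.add_conj]
        push_cast
        ring
      rw [this, Complex.ofReal_im]
    have hwI : (w : ℂ) = (((w : ℂ).im : ℝ) : ℂ) * Complex.I := by
      apply Complex.ext
      · simp [hwr]
      · simp
    obtain ⟨u, hu⟩ : ∃ u : ℝ, u = (w : ℂ).im := ⟨_, rfl⟩
    rw [← hu] at hwI hwi
    have h2 : (((x - y) / (2 * w) : K) : ℂ).im = 0 := by
      have : (((x - y) / (2 * w) : K) : ℂ) = (((x : ℂ).im / u : ℝ) : ℂ) := by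
        show ((x : ℂ) - (y : ℂ)) / ((2 : ℂ) * (w : ℂ)) = _
        rw [hyc, Complex.sub_conj, hwI]
        have h3 : ((u : ℝ) : ℂ) ≠ 0 := by exact_mod_cast hwi
        have h4 := Complex.I_ne_zero
        push_cast
        field_simp
      rw [this, Complex.ofReal_im]
    refine ⟨(⟨(x + y) / 2, h1⟩, ⟨(x - y) / (2 * w), h2⟩), ?_⟩
    rw [hL]
    have hw1 : w ≠ 0 := fun h => hw0 (by rw [h]; rfl)
    show (x + y) / 2 + w * ((x - y) / (2 * w)) = x
    field_simp
    ring
  have h6 := (LinearEquiv.ofBijective L ⟨hinj, hsurj⟩).finrank_eq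
  rw [Module.finrank_prod, hK.dim] at h6
  omega

/-- the converse -/
theorem to_QF {K : Subfield ℂ} (hK : QG K 0) : QF K := by
  refine ⟨hK.dim, hK.nr, ?_⟩
  have hfK : FiniteDimensional ℚ K := FiniteDimensional.of_finrank_pos (by rw [hK.dim]; omega)
  have hF := finrank_Fr hK
  obtain ⟨r, hrF, hr⟩ : ∃ r ∈ Fr K, r ∉ Submodule.span ℚ {(1 : K)} := by
    by_contra hcon
    push Not at hcon
    have h1 : Fr K ≤ Submodule.span ℚ {(1 : K)} := hcon
    have h2 := Submodule.finrank_mono h1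
    have h3 := finrank_span_le_card (R := ℚ) ({(1 : K)} : Set K)
    simp at h3
    omega
  have hrat : ∀ q : ℚ, r ≠ (q : K) := by
    intro q hq
    apply hr
    rw [Submodule.mem_span_singleton]
    exact ⟨q, by rw [hq, Rat.smul_def, mul_one]⟩
  have h1F : (1 : K) ∈ Fr K := by
    show ((1 : K) : ℂ).im = 0
    simp
  have hri : (r : ℂ).im = 0 := hrF
  have h2F : r ^ 2 ∈ Fr K := by
    show ((r ^ 2 : K) : ℂ).im = 0
    push_cast
    rw [pow_two, Complex.mul_im, hri]
    ring
  -- the relation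
  obtain ⟨a, b, hab⟩ : ∃ a b : ℚ, r ^ 2 = (a : K) + b * r := by
    let v : Fin 2 → Fr K := ![⟨1, h1F⟩, ⟨r, hrF⟩]
    have hli : LinearIndependent ℚ v := by
      rw [LinearIndependent.pair_iff]
      intro s t hst
      have h3 : (s : K) + t * r = 0 := by
        have h4 := congrArg (fun x : Fr K => (x : K)) hst
        simpa [Rat.smul_def] using h4
      have ht : t = 0 := by
        by_contra ht
        apply hrat (-s / t)
        have ht' : (t : K) ≠ 0 := by exact_mod_cast ht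
        push_cast
        field_simp
        linear_combination h3
      subst ht
      simp only [Rat.cast_zero, zero_mul, add_zero] at h3
      exact ⟨by exact_mod_cast h3, rfl⟩
    have hspan : Submodule.span ℚ (Set.range v) = ⊤ := hli.span_eq_top_of_card_eq_finrank' (by rw [hF]; rfl)
    have h1 : (⟨r ^ 2, h2F⟩ : Fr K) ∈ Submodule.span ℚ (Set.range v) := by rw [hspan]; exact Submodule.mem_top
    rw [Submodule.mem_span_range_iff_exists_fun] at h1
    obtain ⟨g, hg⟩ := h1
    refine ⟨g 0, g 1, ?_⟩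
    have h2 := congrArg (fun t : Fr K => (t : K)) hg
    simp only [Fin.sum_univ_two, v] at h2
    have h3 : (g 0 : K) + g 1 * r = r ^ 2 := by simpa [Rat.smul_def] using h2
    exact h3.symm
  set D : ℚ := b ^ 2 + 4 * a with hD
  have hs : (2 * r - b) ^ 2 = (D : K) := by
    rw [hD]
    push_cast
    linear_combination 4 * hab
  -- the real number
  set t : ℝ := (r : ℂ).re with ht
  have hrt : (r : ℂ) = (t : ℂ) := Complex.ext (by simp [ht]) (by simp [hri])
  have hsr : (2 * t - b) ^ 2 = (D : ℝ) := by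
    have h1 := congrArg (fun x : K => (x : ℂ)) hs
    have h2 : (2 * (t : ℂ) - b) ^ 2 = (D : ℂ) := by
      rw [← hrt]
      have h3 : ((((2 : K) * r - b) ^ 2 : K) : ℂ) = ((2 : ℂ) * (r : ℂ) - b) ^ 2 := by
        push_cast
        rfl
      have h4 : (((D : K)) : ℂ) = (D : ℂ) := by push_cast; rfl
      exact h3.symm.trans (h1.trans h4)
    exact_mod_cast h2
  have hD0 : 0 ≤ D := by
    have : (0 : ℝ) ≤ (D : ℝ) := by rw [← hsr]; positivity
    exact_mod_cast this
  have hDq : (D : ℝ) = D.num / D.den := by exact_mod_cast (Rat.num_div_den D).symm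
  have hden : (0 : ℝ) < D.den := by exact_mod_cast D.den_pos
  have hnum0 : 0 ≤ D.num := Rat.num_nonneg.mpr hD0
  obtain ⟨N, hN⟩ : ∃ N : ℕ, D.num = N := ⟨D.num.toNat, (Int.toNat_of_nonneg hnum0).symm⟩
  have hΔ : ((N * D.den : ℕ) : ℝ) = (D.den * (2 * t - b)) ^ 2 := by
    rw [mul_pow, hsr, hDq, hN]
    push_cast
    field_simp
  refine ⟨N * D.den, ?_, ?_⟩
  · rintro ⟨m, hm⟩
    have h1 : (D.den * (2 * t - b)) ^ 2 = (m : ℝ) ^ 2 := by
      rw [← hΔ, hm]
      push_cast
      ring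
    rcases sq_eq_sq_iff_eq_or_eq_neg.mp h1 with h2 | h2
    · apply hrat ((m / D.den + b) / 2)
      apply Subtype.ext
      have h4 : ((((m / D.den + b) / 2 : ℚ) : K) : ℂ) = (((((m : ℝ) / D.den + b) / 2 : ℝ)) : ℂ) := by
        rw [show ((((m / D.den + b) / 2 : ℚ) : K) : ℂ) = (((m / D.den + b) / 2 : ℚ) : ℂ) by push_cast; rfl]
        push_cast
        rfl
      rw [hrt, h4]
      have h3 : t = ((m : ℝ) / D.den + b) / 2 := by
        field_simp
        linarith
      rw [← h3]
    · apply hrat ((-m / D.den + b) / 2)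
      apply Subtype.ext
      have h4 : ((((-m / D.den + b) / 2 : ℚ) : K) : ℂ) = (((-(m : ℝ) / D.den + b) / 2 : ℝ) : ℂ) := by
        rw [show ((((-m / D.den + b) / 2 : ℚ) : K) : ℂ) = (((-m / D.den + b) / 2 : ℚ) : ℂ) by push_cast; rfl]
        push_cast
        rfl
      rw [hrt, h4]
      have h3 : t = (-(m : ℝ) / D.den + b) / 2 := by
        field_simp
        linarith
      rw [← h3]
  · rw [hΔ, Real.sqrt_sq_eq_abs]
    have hmem : ((D.den * (2 * t - b) : ℝ) : ℂ) ∈ K := by
      push_cast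
      rw [← hrt]
      exact mul_mem (natCast_mem K _) (sub_mem (mul_mem (by exact_mod_cast natCast_mem K 2) r.2) (SubfieldClass.ratCast_mem K b))
    rcases abs_choice (D.den * (2 * t - b)) with h | h
    · rw [h]
      exact hmem
    · rw [h, Complex.ofReal_neg]
      exact neg_mem hmem

/-- `p = 0` if and only if `K` contains a real quadratic field -/
theorem QG_zero_iff (K : Subfield ℂ) : QG K 0 ↔ QF K := ⟨to_QF, of_QF⟩

end Pool.Agent.LT.QGf
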