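import Pool.Agent.Lib.MP_f58a57_nt.LT.B1
import Pool.Agent.Lib.MP_f58a57_nt.LT.V.V0

/-!
# Part B, version 2: interpolation on a tower with free variables
-/

open Complex MvPolynomial Matrix

noncomputable section

namespace Pool.Agent.LT

variable {c : ℕ}

/-! ### row Va: bookkeeping -/

/-- `z ↦ (0, z)` -/
def cons0 {c : ℕ} : Vc c →+ Vc (c + 1) where
  toFun z := (Fin.cons 0 z : Fin (c + 1 + 1) → ℂ)
  map_zero' := by
    ext i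
    refine Fin.cases ?_ (fun j => ?_) i <;> simp
  map_add' x y := by
    ext i
    refine Fin.cases ?_ (fun j => ?_) i <;> simp

/-- `{0}^q × Γ` -/
def zg {c : ℕ} (Γ : AddSubgroup (Vc c)) : (q : ℕ) → AddSubgroup (Vc (c + q))
  | 0 => Γ
  | q + 1 => ((zg Γ q).map cons0 : AddSubgroup (Vc (c + q + 1)))

/-- the boxes: the first `q` coordinates are bounded by `ρ`, the imaginary part of coordinate `q` by `κ` -/
def Sq {c : ℕ} (ρ κ : ℝ) : (q : ℕ) → Set (Vc (c + q))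
  | 0 => {z | |(z 0).im| ≤ κ}
  | q + 1 => {z | ‖z 0‖ ≤ ρ ∧ (Fin.tail z : Fin (c + q + 1) → ℂ) ∈ Sq ρ κ q}


theorem zg_cons {Γ : AddSubgroup (Vc c)} {q : ℕ} {γ : Vc (c + q)} (h : γ ∈ zg Γ q) :
    (Fin.cons 0 γ : Vc (c + q + 1)) ∈ (zg Γ (q + 1) : AddSubgroup (Vc (c + q + 1))) := by
  exact AddSubgroup.mem_map.2 ⟨γ, h, rfl⟩

theorem mem_zg {Γ : AddSubgroup (Vc c)} {q : ℕ} {γ : Vc (c + q)} (h : γ ∈ zg Γ q) : ∃ g ∈ Γ, γ = zcV q g := by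
  induction q with
  | zero => exact ⟨γ, h, rfl⟩
  | succ q ih =>
    obtain ⟨δ, hδ, hδ2⟩ := AddSubgroup.mem_map.1 h
    obtain ⟨g, hg, hg2⟩ := ih hδ
    refine ⟨g, hg, ?_⟩
    rw [← hδ2, hg2]
    rfl

theorem Aut.mono {Γ Γ' : AddSubgroup (Vc c)} (h : Γ' ≤ Γ) {G : Vc c → ℂ} (hG : Aut Γ G) : Aut Γ' G := by
  exact ⟨hG.1, fun γ hγ => hG.2 γ (h hγ)⟩

theorem mem_Sq {ρ κ : ℝ} {q : ℕ} {z : Vc (c + q)} (h1 : ∀ l : Fin (c + q + 1), (l : ℕ) < q → ‖z l‖ ≤ ρ)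
    (h2 : ∀ l : Fin (c + q + 1), (l : ℕ) = q → |(z l).im| ≤ κ) : z ∈ Sq ρ κ q := by
  induction q with
  | zero => exact h2 0 rfl
  | succ q ih =>
    refine ⟨h1 (0 : Fin (c + q + 1 + 1)) (by simp), ?_⟩
    apply ih
    · intro l hl
      exact h1 (Fin.succ l : Fin (c + q + 1 + 1)) (by rw [Fin.val_succ]; omega)
    · intro l hl
      exact h2 (Fin.succ l : Fin (c + q + 1 + 1)) (by rw [Fin.val_succ]; omega)








/-! ### row Vb: one variable -/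


/-- one step: the function is small on the disc `|z_0| ≤ R / 8` times the set `S` if all its Taylor coefficients of order `< D/2` are small on `S` -/
theorem fv_step {Γ : AddSubgroup (Vc (c + 1))} {Γ₁ : AddSubgroup (Vc c)} (h : ∀ γ ∈ Γ₁, (Fin.cons 0 γ : Vc (c + 1)) ∈ Γ)
    {R E η D σ : ℝ} {S : Set (Vc c)} (hR : 0 < R) (hE : 0 ≤ E) (hη : 0 ≤ η) (hD : 0 ≤ D) (hσ : 0 ≤ σ)
    (H : ∀ F : Vc c → ℂ, Aut Γ₁ F → (∀ z, NN F z ≤ E * Real.exp (Real.pi * R ^ 2)) → JJ F (D / 2) ((max 1 R) ^ D * η) → ∀ z ∈ S, NN F z ≤ σ)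
    {G : Vc (c + 1) → ℂ} (hG : Aut Γ G) (hGE : ∀ z, ‖z 0‖ ≤ R → NN G z ≤ E) (hJ : JJ G D η) (z : Vc (c + 1)) (hz : ‖z 0‖ ≤ R / 8)
    (hzS : (Fin.tail z : Fin (c + 1) → ℂ) ∈ S) : NN G z ≤ 2 * σ + 2 * (E * Real.exp (Real.pi * R ^ 2) * 8 ^ (1 - D / 2)) := by
  obtain ⟨x, hx⟩ : ∃ x : ℝ, x = max 1 R := ⟨_, rfl⟩
  have hx1 : 1 ≤ x := hx ▸ le_max_left 1 R
  have hn : D / 2 ≤ (⌈D / 2⌉₊ : ℝ) := Nat.le_ceil _
  have hk : ∀ d < ⌈D / 2⌉₊, NN (Gj R G d) (Fin.tail z : Fin (c + 1) → ℂ) ≤ σ := by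
    intro d hd
    have hd' : (d : ℝ) < D / 2 := Nat.lt_ceil.1 hd
    refine H (Gj R G d) (Gj_aut h hG R d) (fun z => ?_) ?_ _ hzS
    · exact Gj_NN hR (fun z hz => hGE z hz.le) d z
    · intro v hv e he
      refine (Gj_jet hG.1 hR hJ d hv (by linarith)).trans (mul_le_mul_of_nonneg_right ?_ hη)
      rw [← hx, ← Real.rpow_natCast]
      refine Real.rpow_le_rpow_of_exponent_le hx1 ?_
      push_cast
      linarith
  have h1 := Bf1_an hG.1 hR hE hσ ⌈D / 2⌉₊ (Fin.tail z : Fin (c + 1) → ℂ) hGE hk (z 0) hz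
  have h2 : (Fin.cons (z 0) (Fin.tail z : Fin (c + 1) → ℂ) : Vc (c + 1)) = z := Fin.cons_self_tail z
  rw [h2] at h1
  refine h1.trans ?_
  have h3 : ((1 : ℝ) / 8) ^ ⌈D / 2⌉₊ ≤ 8 ^ (1 - D / 2) := by
    have h4 : ((1 : ℝ) / 8) ^ ⌈D / 2⌉₊ = 8 ^ (-(⌈D / 2⌉₊ : ℝ)) := by
      rw [Real.rpow_neg (by norm_num), Real.rpow_natCast, one_div, inv_pow]
    rw [h4]
    exact Real.rpow_le_rpow_of_exponent_le (by norm_num) (by linarith)
  have h5 : 0 ≤ E * Real.exp (Real.pi * R ^ 2) := mul_nonneg hE (Real.exp_pos _).le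
  have h6 := mul_le_mul_of_nonneg_left h3 h5
  linarith


/-! ### row Vc: the free variables -/


theorem fv_iter {Γ : AddSubgroup (Vc c)} {ρ κ σ : ℝ} (hρ : 1 ≤ ρ) (hσ : 0 ≤ σ) (q : ℕ) :
    ∀ E η D : ℝ, 0 ≤ E → 0 ≤ η → 0 ≤ D →
      (∀ F : Vc c → ℂ, Aut Γ F → (∀ z, NN F z ≤ E * Real.exp (q * (Real.pi * ρ ^ 2))) → JJ F (D / 2 ^ q) (ρ ^ (2 * D) * η) →
        ∀ z, |(z 0).im| ≤ κ → NN F z ≤ σ) →
      ∀ G : Vc (c + q) → ℂ, Aut (zg Γ q) G → (∀ z, NN G z ≤ E) → JJ G D η →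
        ∀ z ∈ Sq (ρ / 8) κ q, NN G z ≤ 4 ^ q * (σ + E * Real.exp (q * (Real.pi * ρ ^ 2)) * 8 ^ (1 - D / 2 ^ q)) := by
  have hρ0 : (0 : ℝ) < ρ := lt_of_lt_of_le one_pos hρ
  induction q with
  | zero =>
    intro E η D hE hη hD H G hG hGE hJ z hz
    have h1 : NN G z ≤ σ := by
      refine H G hG (fun z => ?_) ?_ z hz
      · have h0 := hGE z
        have h2 : E * Real.exp (((0 : ℕ) : ℝ) * (Real.pi * ρ ^ 2)) = E := by simp
        rw [h2]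
        exact h0
      · have h2 : D / 2 ^ 0 = D := by simp
        rw [h2]
        intro v hv d hd
        refine (hJ v hv d hd).trans ?_
        have h3 : 1 ≤ ρ ^ (2 * D) := Real.one_le_rpow hρ (by positivity)
        nlinarith
    have h3 : 0 ≤ E * Real.exp (((0 : ℕ) : ℝ) * (Real.pi * ρ ^ 2)) * 8 ^ (1 - D / 2 ^ 0) := by positivity
    calc NN G z ≤ σ := h1
      _ ≤ 4 ^ 0 * (σ + E * Real.exp (((0 : ℕ) : ℝ) * (Real.pi * ρ ^ 2)) * 8 ^ (1 - D / 2 ^ 0)) := by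
        rw [pow_zero, one_mul]
        linarith
  | succ q ih =>
    intro E η D hE hη hD H G hG hGE hJ z hz
    have hE' : 0 ≤ E * Real.exp (Real.pi * ρ ^ 2) := by positivity
    have hη' : 0 ≤ ρ ^ D * η := by positivity
    have hD' : 0 ≤ D / 2 := by positivity
    have hexp : E * Real.exp (Real.pi * ρ ^ 2) * Real.exp ((q : ℝ) * (Real.pi * ρ ^ 2)) =
        E * Real.exp (((q + 1 : ℕ) : ℝ) * (Real.pi * ρ ^ 2)) := by
      rw [mul_assoc, ← Real.exp_add]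
      congr 2
      push_cast
      ring
    have hdiv : D / 2 / 2 ^ q = D / 2 ^ (q + 1) := by
      rw [pow_succ, div_div, mul_comm]
    have hpow : ρ ^ (2 * (D / 2)) * (ρ ^ D * η) = ρ ^ (2 * D) * η := by
      have h2 : 2 * (D / 2) = D := by ring
      have h3 : 2 * D = D + D := by ring
      rw [h2, h3, Real.rpow_add hρ0]
      ring
    have ih1 := ih (E * Real.exp (Real.pi * ρ ^ 2)) (ρ ^ D * η) (D / 2) hE' hη' hD' (by
      intro F hF hFE hFJ z hz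
      refine H F hF (fun z => ?_) ?_ z hz
      · rw [← hexp]
        exact hFE z
      · rw [← hdiv, ← hpow]
        exact hFJ)
    rw [hexp, hdiv] at ih1
    set X : ℝ := E * Real.exp (((q + 1 : ℕ) : ℝ) * (Real.pi * ρ ^ 2)) * 8 ^ (1 - D / 2 ^ (q + 1)) with hX
    have hX0 : 0 ≤ X := by positivity
    have hσ' : 0 ≤ 4 ^ q * (σ + X) := by positivity
    have key : NN G z ≤ 2 * (4 ^ q * (σ + X)) + 2 * (E * Real.exp (Real.pi * ρ ^ 2) * 8 ^ (1 - D / 2)) := by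
      refine fv_step (c := c + q) (Γ := zg Γ (q + 1)) (Γ₁ := zg Γ q) (fun γ hγ => zg_cons hγ) (R := ρ) (E := E) (η := η) (D := D)
        (σ := 4 ^ q * (σ + X)) (S := Sq (ρ / 8) κ q) hρ0 hE hη hD hσ' ?_ hG (fun z _ => hGE z) hJ z hz.1 hz.2
      intro F hF hFE hFJ z hz
      rw [max_eq_right hρ] at hFJ
      exact ih1 F hF hFE hFJ z hz
    refine key.trans ?_
    have h8 : (8 : ℝ) ^ (1 - D / 2) ≤ 8 ^ (1 - D / 2 ^ (q + 1)) := by
      refine Real.rpow_le_rpow_of_exponent_le (by norm_num) ?_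
      have h2 : D / 2 ^ (q + 1) ≤ D / 2 := by
        refine div_le_div_of_nonneg_left hD (by norm_num) ?_
        calc (2 : ℝ) = 2 ^ 1 := by norm_num
          _ ≤ 2 ^ (q + 1) := pow_le_pow_right₀ (by norm_num) (by omega)
      linarith
    have he : Real.exp (Real.pi * ρ ^ 2) ≤ Real.exp (((q + 1 : ℕ) : ℝ) * (Real.pi * ρ ^ 2)) := by
      refine Real.exp_le_exp.mpr ?_
      have h2 : 0 ≤ Real.pi * ρ ^ 2 := by positivity
      have h3 : (1 : ℝ) ≤ ((q + 1 : ℕ) : ℝ) := by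
        push_cast
        have : (0 : ℝ) ≤ q := Nat.cast_nonneg q
        linarith
      nlinarith
    have h4 : E * Real.exp (Real.pi * ρ ^ 2) * 8 ^ (1 - D / 2) ≤ X := by
      rw [hX]
      have h5 : 0 ≤ (8 : ℝ) ^ (1 - D / 2) := by positivity
      exact mul_le_mul (mul_le_mul_of_nonneg_left he hE) h8 h5 (by positivity)
    have h6 : (1 : ℝ) ≤ 4 ^ q := one_le_pow₀ (by norm_num)
    have h7 : X ≤ 4 ^ q * X := by nlinarith
    have h8' : 0 ≤ 4 ^ q * σ := by positivity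
    have h9 : (4 : ℝ) ^ (q + 1) = 4 * 4 ^ q := by ring
    calc 2 * (4 ^ q * (σ + X)) + 2 * (E * Real.exp (Real.pi * ρ ^ 2) * 8 ^ (1 - D / 2)) ≤ 2 * (4 ^ q * (σ + X)) + 2 * (4 ^ q * X) := by
          linarith
      _ ≤ 4 * (4 ^ q * σ) + 4 * (4 ^ q * X) := by
          have : 0 ≤ 4 ^ q * X := by positivity
          linarith
      _ = 4 ^ (q + 1) * (σ + X) := by
          rw [h9]
          ring


/-! ### row Vd: the parameters -/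


/-- powers with a bigger exponent -/
private lemma Vd_mono {T a b : ℝ} (hT : 1 ≤ T) (h : a ≤ b) : T ^ a ≤ T ^ b :=
  Real.rpow_le_rpow_of_exponent_le hT h

private lemma Vd_ev (e1 ε Kc Q D : ℝ) (he1 : 0 < e1) (hε : 0 < ε) (hQ : 0 < Q) :
    ∃ T0 : ℝ, 1 ≤ T0 ∧ ∀ T : ℝ, T0 ≤ T → Kc ≤ T ^ e1 ∧ 16 * Real.log T ≤ T ^ (3 * ε) ∧ D < Real.exp (T / Q) := by
  have h1 : ∀ᶠ T : ℝ in Filter.atTop, Kc ≤ T ^ e1 := (tendsto_rpow_atTop he1).eventually_ge_atTop Kc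
  have h2 : ∀ᶠ T : ℝ in Filter.atTop, 16 * Real.log T ≤ T ^ (3 * ε) := by
    have h := (isLittleO_log_rpow_atTop (r := 3 * ε) (by positivity)).bound (c := 1 / 16) (by norm_num)
    filter_upwards [h, Filter.eventually_ge_atTop (1 : ℝ)] with T hT hT1
    rw [Real.norm_of_nonneg (Real.log_nonneg hT1), Real.norm_of_nonneg (by positivity)] at hT
    linarith
  have h3 : ∀ᶠ T : ℝ in Filter.atTop, D < Real.exp (T / Q) :=
    (Real.tendsto_exp_atTop.comp (Filter.tendsto_id.atTop_div_const hQ)).eventually_gt_atTop D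
  obtain ⟨T0, h0⟩ := Filter.eventually_atTop.1 (h1.and (h2.and h3))
  exact ⟨max T0 1, le_max_right _ _, fun T hT => h0 T (le_trans (le_max_left _ _) hT)⟩

/-- item 5: the upper bound of `k1` -/
private lemma Vd_k1le (c p : ℕ) (ε e1 C2 T k Q H : ℝ) (hε : 0 < ε) (hε1 : ε ≤ 1 / 20) (he1a : (2 * p + 1) * e1 ≤ ε / 4)
    (he1b : e1 ≤ ε / 8) (hC2 : 0 < C2) (hT : 1 ≤ T) (hQ : 0 < Q) (hH : H = Q ^ ((c : ℝ) + 1 - ε / 8)) (hH0 : 0 < H)
    (hk2 : k ≤ T ^ ((c : ℝ) + p + 2 - ε)) (h1 : C2 * H ≤ T ^ e1) (h2 : H ≤ T ^ e1) :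
    max (C2 * k * T ^ (-((p : ℝ) + 1) + (2 * p + 1) * e1)) (T ^ (1 / 2 + ε / 8)) ≤ (T / Q) ^ ((c : ℝ) + 1 - ε / 8) := by
  have hT0 : 0 < T := by linarith
  have hc : (0 : ℝ) ≤ c := Nat.cast_nonneg c
  have hp : (0 : ℝ) ≤ p := Nat.cast_nonneg p
  rw [Real.div_rpow hT0.le hQ.le, ← hH]
  rw [le_div_iff₀ hH0]
  have e0 : ∀ a : ℝ, 0 < T ^ a := fun a => Real.rpow_pos_of_pos hT0 a
  rcases max_cases (C2 * k * T ^ (-((p : ℝ) + 1) + (2 * p + 1) * e1)) (T ^ (1 / 2 + ε / 8)) with ⟨h, -⟩ | ⟨h, -⟩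
  · rw [h]
    calc C2 * k * T ^ (-((p : ℝ) + 1) + (2 * p + 1) * e1) * H
        ≤ C2 * T ^ ((c : ℝ) + p + 2 - ε) * T ^ (-((p : ℝ) + 1) + (2 * p + 1) * e1) * H := by
          have := e0 (-((p : ℝ) + 1) + (2 * p + 1) * e1)
          gcongr
      _ = (C2 * H) * T ^ ((c : ℝ) + p + 2 - ε + (-((p : ℝ) + 1) + (2 * p + 1) * e1)) := by
          rw [Real.rpow_add hT0 ((c : ℝ) + p + 2 - ε) (-((p : ℝ) + 1) + (2 * p + 1) * e1)]; ring
      _ ≤ T ^ e1 * T ^ ((c : ℝ) + p + 2 - ε + (-((p : ℝ) + 1) + (2 * p + 1) * e1)) := by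
          have := e0 ((c : ℝ) + p + 2 - ε + (-((p : ℝ) + 1) + (2 * p + 1) * e1))
          gcongr
      _ = T ^ (e1 + ((c : ℝ) + p + 2 - ε + (-((p : ℝ) + 1) + (2 * p + 1) * e1))) := by
          rw [← Real.rpow_add hT0]
      _ ≤ T ^ ((c : ℝ) + 1 - ε / 8) := Vd_mono hT (by linarith)
  · rw [h]
    calc T ^ (1 / 2 + ε / 8) * H ≤ T ^ (1 / 2 + ε / 8) * T ^ e1 := by
          have := e0 (1 / 2 + ε / 8)
          gcongr
      _ = T ^ (1 / 2 + ε / 8 + e1) := by rw [← Real.rpow_add hT0]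
      _ ≤ T ^ ((c : ℝ) + 1 - ε / 8) := Vd_mono hT (by linarith)

/-- item 6 -/
private lemma Vd_C0 (p : ℕ) (e1 C0 C3 T k k1 : ℝ) (hC0 : 0 < C0) (hC3 : 1 ≤ C3) (hT : 1 ≤ T) (hk : 0 < k)
    (hk1 : C0 * C3 * 8 ^ (2 * p + 1) * k * T ^ (-((p : ℝ) + 1) + (2 * p + 1) * e1) ≤ k1) :
    C0 ≤ T ^ (1 - e1) / k / 8 * (T ^ (1 / 2 - e1) / 8) ^ (2 * p) * (k1 / C3) := by
  have hT0 : 0 < T := by linarith
  have e0 : ∀ a : ℝ, 0 < T ^ a := fun a => Real.rpow_pos_of_pos hT0 a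
  have hC3' : 0 < C3 := by linarith
  have e2 : (T ^ (1 / 2 - e1) / 8) ^ (2 * p) = T ^ ((1 / 2 - e1) * (2 * p)) / 8 ^ (2 * p) := by
    rw [div_pow, ← Real.rpow_natCast, ← Real.rpow_mul hT0.le]
    push_cast
    rfl
  have e3 : T ^ (1 - e1) * T ^ ((1 / 2 - e1) * (2 * p)) * T ^ (-((p : ℝ) + 1) + (2 * p + 1) * e1) = 1 := by
    rw [← Real.rpow_add hT0, ← Real.rpow_add hT0]
    rw [show 1 - e1 + (1 / 2 - e1) * (2 * (p : ℝ)) + (-((p : ℝ) + 1) + (2 * p + 1) * e1) = 0 by ring, Real.rpow_zero]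
  rw [e2]
  have h8 : (0 : ℝ) < 8 ^ (2 * p) := by positivity
  have h9 := e0 (1 - e1)
  have h10 := e0 ((1 / 2 - e1) * (2 * p))
  calc C0 = T ^ (1 - e1) / k / 8 * (T ^ ((1 / 2 - e1) * (2 * p)) / 8 ^ (2 * p)) *
        (C0 * C3 * 8 ^ (2 * p + 1) * k * T ^ (-((p : ℝ) + 1) + (2 * p + 1) * e1) / C3) := by
        have : T ^ (1 - e1) / k / 8 * (T ^ ((1 / 2 - e1) * (2 * p)) / 8 ^ (2 * p)) *
          (C0 * C3 * 8 ^ (2 * p + 1) * k * T ^ (-((p : ℝ) + 1) + (2 * p + 1) * e1) / C3) =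
          C0 * (T ^ (1 - e1) * T ^ ((1 / 2 - e1) * (2 * p)) * T ^ (-((p : ℝ) + 1) + (2 * p + 1) * e1)) := by
          rw [pow_succ]
          field_simp
        rw [this, e3, mul_one]
    _ ≤ _ := by
        gcongr

/-- item 9: the real inequality -/
private lemma Vd_jet (p : ℕ) (ε e1 C2 T k k1 Q : ℝ) (hε : 0 < ε) (hε1 : ε ≤ 1 / 20) (he1 : 0 < e1) (he1a : (2 * p + 1) * e1 ≤ ε / 4)
    (he1b : e1 ≤ ε / 8) (hC2 : 0 < C2) (hT : 1 ≤ T) (hQ : 1 ≤ Q) (hk : T ^ (1 / 2 + ε) ≤ k)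
    (hk1 : k1 = max (C2 * k * T ^ (-((p : ℝ) + 1) + (2 * p + 1) * e1)) (T ^ (1 / 2 + ε / 8)))
    (h8 : 8 ≤ T ^ e1) (hC : 8 * C2 ^ 2 ≤ T ^ e1) (hlog : 16 * Real.log T ≤ T ^ (3 * ε)) :
    2 * (T * Real.log T) + (T / Q) ^ (ε / 8) * k1 ^ 2 ≤ T ^ ε * k ^ 2 / 2 := by
  have hT0 : 0 < T := by linarith
  have hp : (0 : ℝ) ≤ p := Nat.cast_nonneg p
  have e0 : ∀ a : ℝ, 0 < T ^ a := fun a => Real.rpow_pos_of_pos hT0 a
  have hk0 : 0 < k := lt_of_lt_of_le (e0 _) hk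
  have sq : ∀ a : ℝ, (T ^ a) ^ 2 = T ^ (2 * a) := by
    intro a
    rw [← Real.rpow_natCast, ← Real.rpow_mul hT0.le]
    congr 1
    push_cast
    ring
  -- k1 ^ 2 bound
  have hk1sq : k1 ^ 2 ≤ C2 ^ 2 * k ^ 2 * T ^ (-1 : ℝ) + T ^ (1 + ε / 4) := by
    have ha : (C2 * k * T ^ (-((p : ℝ) + 1) + (2 * p + 1) * e1)) ^ 2 ≤ C2 ^ 2 * k ^ 2 * T ^ (-1 : ℝ) := by
      rw [mul_pow, mul_pow, sq]
      have : T ^ (2 * (-((p : ℝ) + 1) + (2 * p + 1) * e1)) ≤ T ^ (-1 : ℝ) := Vd_mono hT (by linarith)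
      gcongr
    have hb : (T ^ (1 / 2 + ε / 8)) ^ 2 = T ^ (1 + ε / 4) := by
      rw [sq]; congr 1; ring
    have hn1 : 0 ≤ C2 ^ 2 * k ^ 2 * T ^ (-1 : ℝ) := by
      have := e0 (-1); positivity
    have hn2 := (e0 (1 + ε / 4)).le
    rw [hk1]
    rcases max_cases (C2 * k * T ^ (-((p : ℝ) + 1) + (2 * p + 1) * e1)) (T ^ (1 / 2 + ε / 8)) with ⟨h, -⟩ | ⟨h, -⟩
    · rw [h]; linarith
    · rw [h, hb]; linarith
  have hTQ : (T / Q) ^ (ε / 8) ≤ T ^ (ε / 8) := by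
    apply Real.rpow_le_rpow (by positivity) _ (by positivity)
    exact div_le_self hT0.le hQ
  have hmain : (T / Q) ^ (ε / 8) * k1 ^ 2 ≤ C2 ^ 2 * k ^ 2 * T ^ (ε / 8 - 1) + T ^ (1 + 3 * ε / 8) := by
    calc (T / Q) ^ (ε / 8) * k1 ^ 2 ≤ T ^ (ε / 8) * (C2 ^ 2 * k ^ 2 * T ^ (-1 : ℝ) + T ^ (1 + ε / 4)) := by
          have := e0 (ε / 8)
          gcongr
      _ = C2 ^ 2 * k ^ 2 * (T ^ (ε / 8) * T ^ (-1 : ℝ)) + T ^ (ε / 8) * T ^ (1 + ε / 4) := by ring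
      _ = _ := by
          rw [← Real.rpow_add hT0, ← Real.rpow_add hT0]
          congr 2
          · ring
  have hk2 : T ^ (1 + 2 * ε) ≤ k ^ 2 := by
    calc T ^ (1 + 2 * ε) = (T ^ (1 / 2 + ε)) ^ 2 := by rw [sq]; congr 1; ring
      _ ≤ k ^ 2 := by
          have := e0 (1 / 2 + ε)
          gcongr
  have hkk : T ^ (1 + 3 * ε) ≤ T ^ ε * k ^ 2 := by
    calc T ^ (1 + 3 * ε) = T ^ ε * T ^ (1 + 2 * ε) := by rw [← Real.rpow_add hT0]; congr 1; ring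
      _ ≤ _ := by
          have := e0 ε
          gcongr
  -- three pieces
  have p1 : C2 ^ 2 * k ^ 2 * T ^ (ε / 8 - 1) ≤ T ^ ε * k ^ 2 / 8 := by
    have : 8 * C2 ^ 2 * T ^ (ε / 8 - 1) ≤ T ^ ε := by
      calc 8 * C2 ^ 2 * T ^ (ε / 8 - 1) ≤ T ^ e1 * T ^ (ε / 8 - 1) := by
            have := e0 (ε / 8 - 1)
            gcongr
        _ = T ^ (e1 + (ε / 8 - 1)) := by rw [← Real.rpow_add hT0]
        _ ≤ T ^ ε := Vd_mono hT (by linarith)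
    have hk2' : 0 < k ^ 2 := by positivity
    nlinarith
  have p2 : T ^ (1 + 3 * ε / 8) ≤ T ^ ε * k ^ 2 / 8 := by
    have : 8 * T ^ (1 + 3 * ε / 8) ≤ T ^ (1 + 3 * ε) := by
      calc 8 * T ^ (1 + 3 * ε / 8) ≤ T ^ e1 * T ^ (1 + 3 * ε / 8) := by
            have := e0 (1 + 3 * ε / 8)
            gcongr
        _ = T ^ (e1 + (1 + 3 * ε / 8)) := by rw [← Real.rpow_add hT0]
        _ ≤ _ := Vd_mono hT (by linarith)
    linarith
  have p3 : 2 * (T * Real.log T) ≤ T ^ ε * k ^ 2 / 8 := by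
    have : 16 * (T * Real.log T) ≤ T ^ (1 + 3 * ε) := by
      calc 16 * (T * Real.log T) = T * (16 * Real.log T) := by ring
        _ ≤ T * T ^ (3 * ε) := by gcongr
        _ = T ^ (1 + 3 * ε) := by rw [Real.rpow_add hT0, Real.rpow_one]
    linarith
  have : 0 < T ^ ε * k ^ 2 := by have := e0 ε; positivity
  linarith

theorem est2 (c p : ℕ) (ε A C0 C3 T1 : ℝ) (hε : 0 < ε) (hε1 : ε ≤ 1 / 20) (hA : 0 ≤ A) (hC0 : 0 < C0) (hC3 : 1 ≤ C3) :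
    ∃ T0 : ℝ, 1 ≤ T0 ∧ ∀ T : ℝ, T0 ≤ T → ∀ k : ℝ, T ^ (1 / 2 + ε) ≤ k → k ≤ T ^ ((c : ℝ) + p + 2 - ε) → ∃ R ρ k1 : ℝ,
      0 < R ∧ 1 ≤ ρ ∧ 0 < k1 ∧ R ≤ k ∧ T1 ≤ T / 2 / 2 ^ p ∧ (T / 2 / 2 ^ p) ^ (1 / 2 + ε / 8) ≤ k1 ∧
      k1 ≤ (T / 2 / 2 ^ p) ^ ((c : ℝ) + 1 - ε / 8) ∧
      C0 ≤ R / 8 * (ρ / 8) ^ (2 * p) * (k1 / C3) ∧ C0 * (R / 8) ≤ ρ / 8 ∧ C0 * (ρ / 8) ≤ k1 / C3 ∧
      ρ ^ (2 * (T / 2)) * ((max 1 R) ^ T * Real.exp (-(T ^ ε * k ^ 2 / 2))) ≤ Real.exp (-((T / 2 / 2 ^ p) ^ (ε / 8) * k1 ^ 2)) ∧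
      Real.exp (A * k * R) * Real.exp (Real.pi * R ^ 2) * Real.exp (p * (Real.pi * ρ ^ 2)) * Real.exp (-(k1 ^ 2 / C3)) ≤ Real.exp (-T) ∧
      2 * (4 ^ p * (Real.exp (-T) + Real.exp (A * k * R) * Real.exp (Real.pi * R ^ 2) * Real.exp (p * (Real.pi * ρ ^ 2)) * 8 ^ (1 - T / 2 / 2 ^ p))) +
        2 * (Real.exp (A * k * R) * Real.exp (Real.pi * R ^ 2) * 8 ^ (1 - T / 2)) < 1 / 2 := by
  have hp : (0 : ℝ) ≤ p := Nat.cast_nonneg p
  have hc : (0 : ℝ) ≤ c := Nat.cast_nonneg c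
  obtain ⟨e1, he1⟩ : ∃ e1 : ℝ, e1 = ε / (8 * (p + 1)) := ⟨_, rfl⟩
  have he1p : 0 < e1 := by rw [he1]; positivity
  have he1e : e1 * (8 * (p + 1)) = ε := by rw [he1]; field_simp
  have he1a : (2 * p + 1) * e1 ≤ ε / 4 := by nlinarith
  have he1b : e1 ≤ ε / 8 := by nlinarith
  obtain ⟨C2, hC2d⟩ : ∃ C2 : ℝ, C2 = C0 * C3 * 8 ^ (2 * p + 1) := ⟨_, rfl⟩
  have hC3' : 0 < C3 := by linarith
  have hC2 : 0 < C2 := by rw [hC2d]; positivity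
  obtain ⟨Q, hQd⟩ : ∃ Q : ℝ, Q = 2 * 2 ^ p := ⟨_, rfl⟩
  have hQ1 : 1 ≤ Q := by
    rw [hQd]
    have : (1 : ℝ) ≤ 2 ^ p := one_le_pow₀ (by norm_num)
    linarith
  have hQ2 : 2 ≤ Q := by
    rw [hQd]
    have : (1 : ℝ) ≤ 2 ^ p := one_le_pow₀ (by norm_num)
    linarith
  have hQ0 : 0 < Q := by linarith
  obtain ⟨H, hHd⟩ : ∃ H : ℝ, H = Q ^ ((c : ℝ) + 1 - ε / 8) := ⟨_, rfl⟩
  have hH0 : 0 < H := by rw [hHd]; positivity
  obtain ⟨Kc, hKd⟩ : ∃ Kc : ℝ, Kc = |T1| * Q + C2 * H + H + C0 + C0 * C3 + 8 * C2 ^ 2 + 8 + C3 * (A + 4 * p + 5) + (A + 4 * p + 4) * Q := ⟨_, rfl⟩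
  have q1 : 0 ≤ |T1| * Q := by positivity
  have q2 : 0 ≤ C2 * H := by positivity
  have q3 : 0 ≤ C0 * C3 := by positivity
  have q4 : 0 ≤ C2 ^ 2 := by positivity
  have q5 : 0 ≤ C3 * (A + 4 * p + 5) := by positivity
  have q6 : 0 ≤ (A + 4 * p + 4) * Q := by positivity
  obtain ⟨T0, hT01, hT0⟩ := Vd_ev e1 ε Kc Q ((18 * 4 ^ p + 16) * 2) he1p hε hQ0
  refine ⟨T0, hT01, ?_⟩
  intro T hTT k hk1 hk2
  obtain ⟨hK, hlog, hexp⟩ := hT0 T hTT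
  have hT : 1 ≤ T := le_trans hT01 hTT
  have hTpos : 0 < T := by linarith
  have e0 : ∀ a : ℝ, 0 < T ^ a := fun a => Real.rpow_pos_of_pos hTpos a
  have hk0 : 0 < k := lt_of_lt_of_le (e0 _) hk1
  have hTQ : T / 2 / 2 ^ p = T / Q := by rw [hQd]; field_simp
  rw [hTQ]
  have hTe1 : T ^ e1 ≤ T := by
    calc T ^ e1 ≤ T ^ (1 : ℝ) := Vd_mono hT (by linarith)
      _ = T := Real.rpow_one T
  have hk1' : T ^ (1 / 2 + ε / 8) ≤ max (C2 * k * T ^ (-((p : ℝ) + 1) + (2 * p + 1) * e1)) (T ^ (1 / 2 + ε / 8)) := le_max_right _ _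
  obtain ⟨k1, hk1d⟩ : ∃ k1 : ℝ, k1 = max (C2 * k * T ^ (-((p : ℝ) + 1) + (2 * p + 1) * e1)) (T ^ (1 / 2 + ε / 8)) := ⟨_, rfl⟩
  rw [← hk1d] at hk1'
  have hk1pos : 0 < k1 := lt_of_lt_of_le (e0 _) hk1'
  obtain ⟨R, hRd⟩ : ∃ R : ℝ, R = T ^ (1 - e1) / k := ⟨_, rfl⟩
  have hRpos : 0 < R := by rw [hRd]; have := e0 (1 - e1); positivity
  obtain ⟨ρ, hρd⟩ : ∃ ρ : ℝ, ρ = T ^ (1 / 2 - e1) := ⟨_, rfl⟩
  have hρ1 : 1 ≤ ρ := by rw [hρd]; exact Real.one_le_rpow hT (by linarith)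
  have sq : ∀ a : ℝ, (T ^ a) ^ 2 = T ^ (2 * a) := by
    intro a
    rw [← Real.rpow_natCast, ← Real.rpow_mul hTpos.le]
    congr 1
    push_cast
    ring
  -- R ≤ T^(1/2 - e1 - ε)
  have hR : R ≤ T ^ (1 / 2 - e1 - ε) := by
    rw [hRd, div_le_iff₀ hk0]
    calc T ^ (1 - e1) = T ^ (1 / 2 - e1 - ε) * T ^ (1 / 2 + ε) := by rw [← Real.rpow_add hTpos]; congr 1; ring
      _ ≤ _ := by have := e0 (1 / 2 - e1 - ε); gcongr
  have hkR : k * R = T ^ (1 - e1) := by rw [hRd]; field_simp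
  have hR2 : R ^ 2 ≤ T ^ (1 - e1) := by
    calc R ^ 2 ≤ (T ^ (1 / 2 - e1 - ε)) ^ 2 := by gcongr
      _ = T ^ (2 * (1 / 2 - e1 - ε)) := sq _
      _ ≤ _ := Vd_mono hT (by linarith)
  have hρ2 : ρ ^ 2 ≤ T ^ (1 - e1) := by
    rw [hρd, sq]
    exact Vd_mono hT (by linarith)
  have hT1e : T ^ (1 - e1) ≤ T := by
    calc T ^ (1 - e1) ≤ T ^ (1 : ℝ) := Vd_mono hT (by linarith)
      _ = T := Real.rpow_one T
  have hpi : Real.pi ≤ 4 := Real.pi_le_four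
  have hpi0 : 0 < Real.pi := Real.pi_pos
  -- the exponent bound
  have hexpo : A * k * R + Real.pi * R ^ 2 + p * (Real.pi * ρ ^ 2) ≤ (A + 4 * p + 4) * T ^ (1 - e1) := by
    have a1 : A * k * R = A * T ^ (1 - e1) := by rw [mul_assoc, hkR]
    have a2 : Real.pi * R ^ 2 ≤ 4 * T ^ (1 - e1) := by
      have := sq_nonneg R
      nlinarith [e0 (1 - e1)]
    have a3 : Real.pi * ρ ^ 2 ≤ 4 * T ^ (1 - e1) := by
      have := sq_nonneg ρ
      nlinarith [e0 (1 - e1)]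
    have a4 : p * (Real.pi * ρ ^ 2) ≤ p * (4 * T ^ (1 - e1)) := by gcongr
    rw [a1]; linarith
  have hexpo2 : A * k * R + Real.pi * R ^ 2 ≤ (A + 4 * p + 4) * T ^ (1 - e1) := by
    have : 0 ≤ p * (Real.pi * ρ ^ 2) := by positivity
    linarith
  have hBT : (A + 4 * p + 4) * T ^ (1 - e1) ≤ T / Q := by
    rw [le_div_iff₀ hQ0]
    calc (A + 4 * p + 4) * T ^ (1 - e1) * Q = ((A + 4 * p + 4) * Q) * T ^ (1 - e1) := by ring
      _ ≤ T ^ e1 * T ^ (1 - e1) := by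
          have := e0 (1 - e1)
          have h' : (A + 4 * p + 4) * Q ≤ T ^ e1 := by linarith
          gcongr
      _ = T := by rw [← Real.rpow_add hTpos]; simp
  have hk1sq : T ^ (1 + ε / 4) ≤ k1 ^ 2 := by
    calc T ^ (1 + ε / 4) = (T ^ (1 / 2 + ε / 8)) ^ 2 := by rw [sq]; congr 1; ring
      _ ≤ _ := by have := e0 (1 / 2 + ε / 8); gcongr
  have hlog8 : 2 ≤ Real.log 8 := by
    have h2 : (0.6931471803 : ℝ) < Real.log 2 := Real.log_two_gt_d9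
    have : Real.log 8 = 3 * Real.log 2 := by
      rw [show (8 : ℝ) = 2 ^ 3 by norm_num, Real.log_pow]; norm_num
    rw [this]; linarith
  have h8 : ∀ s : ℝ, 0 ≤ s → (8 : ℝ) ^ (1 - s) ≤ 8 * Real.exp (-(2 * s)) := by
    intro s hs
    rw [Real.rpow_sub (by norm_num), Real.rpow_one, Real.rpow_def_of_pos (by norm_num), div_eq_mul_inv, ← Real.exp_neg]
    gcongr
  refine ⟨R, ρ, k1, hRpos, hρ1, hk1pos, ?_, ?_, ?_, ?_, ?_, ?_, ?_, ?_, ?_, ?_⟩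
  · -- R ≤ k
    calc R ≤ T ^ (1 / 2 - e1 - ε) := hR
      _ ≤ T ^ (1 / 2 + ε) := Vd_mono hT (by linarith)
      _ ≤ k := hk1
  · -- T1
    rw [le_div_iff₀ hQ0]
    have : T1 ≤ |T1| := le_abs_self _
    have h' : |T1| * Q ≤ T := by linarith
    nlinarith
  · calc (T / Q) ^ (1 / 2 + ε / 8) ≤ T ^ (1 / 2 + ε / 8) := by
          apply Real.rpow_le_rpow (by positivity) (div_le_self hTpos.le hQ1) (by positivity)
      _ ≤ k1 := hk1'
  · rw [hk1d]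
    exact Vd_k1le c p ε e1 C2 T k Q H hε hε1 he1a he1b hC2 hT hQ0 hHd hH0 hk2 (by linarith) (by linarith)
  · rw [hRd, hρd]
    apply Vd_C0 p e1 C0 C3 T k k1 hC0 hC3 hT hk0
    rw [hk1d, ← hC2d]
    exact le_max_left _ _
  · -- C0 * (R/8) ≤ ρ/8
    have : C0 * R ≤ ρ := by
      calc C0 * R ≤ T ^ e1 * T ^ (1 / 2 - e1 - ε) := by
            have h' : C0 ≤ T ^ e1 := by linarith
            have := e0 e1
            gcongr
        _ = T ^ (e1 + (1 / 2 - e1 - ε)) := by rw [← Real.rpow_add hTpos]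
        _ ≤ ρ := by rw [hρd]; exact Vd_mono hT (by linarith)
    linarith
  · rw [le_div_iff₀ hC3']
    calc C0 * (ρ / 8) * C3 = (C0 * C3) * ρ / 8 := by ring
      _ ≤ T ^ e1 * ρ / 8 := by
          have h' : C0 * C3 ≤ T ^ e1 := by linarith
          gcongr
      _ ≤ T ^ e1 * ρ := by
          have := e0 e1
          have : 0 ≤ T ^ e1 * ρ := by positivity
          linarith
      _ = T ^ (1 / 2 : ℝ) := by rw [hρd, ← Real.rpow_add hTpos]; congr 1; ring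
      _ ≤ T ^ (1 / 2 + ε / 8) := Vd_mono hT (by linarith)
      _ ≤ k1 := hk1'
  · -- jets
    have hj := Vd_jet p ε e1 C2 T k k1 Q hε hε1 he1p he1a he1b hC2 hT hQ1 hk1 hk1d (by linarith) (by linarith) hlog
    have hlogT : 0 ≤ Real.log T := Real.log_nonneg hT
    have r1 : ρ ^ (2 * (T / 2)) ≤ Real.exp (T * Real.log T) := by
      have hρT : ρ ≤ T := by
        rw [hρd]
        calc T ^ (1 / 2 - e1) ≤ T ^ (1 : ℝ) := Vd_mono hT (by linarith)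
          _ = T := Real.rpow_one T
      rw [show 2 * (T / 2) = T by ring]
      calc ρ ^ T ≤ T ^ T := Real.rpow_le_rpow (by linarith) hρT hTpos.le
        _ = Real.exp (T * Real.log T) := by rw [Real.rpow_def_of_pos hTpos]; ring_nf
    have r2 : (max 1 R) ^ T ≤ Real.exp (T * Real.log T) := by
      have hm : max 1 R ≤ T := by
        apply max_le hT
        calc R ≤ T ^ (1 / 2 - e1 - ε) := hR
          _ ≤ T ^ (1 : ℝ) := Vd_mono hT (by linarith)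
          _ = T := Real.rpow_one T
      calc (max 1 R) ^ T ≤ T ^ T := Real.rpow_le_rpow (by positivity) hm hTpos.le
        _ = Real.exp (T * Real.log T) := by rw [Real.rpow_def_of_pos hTpos]; ring_nf
    calc ρ ^ (2 * (T / 2)) * ((max 1 R) ^ T * Real.exp (-(T ^ ε * k ^ 2 / 2)))
        ≤ Real.exp (T * Real.log T) * (Real.exp (T * Real.log T) * Real.exp (-(T ^ ε * k ^ 2 / 2))) := by
          have hn1 : 0 ≤ ρ ^ (2 * (T / 2)) := Real.rpow_nonneg (by linarith) _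
          have hn2 : 0 ≤ (max 1 R) ^ T := Real.rpow_nonneg (by positivity) _
          gcongr
      _ = Real.exp (2 * (T * Real.log T) - T ^ ε * k ^ 2 / 2) := by
          rw [← Real.exp_add, ← Real.exp_add]; congr 1; ring
      _ ≤ _ := by
          apply Real.exp_le_exp.2
          linarith
  · -- exponent
    rw [← Real.exp_add, ← Real.exp_add, ← Real.exp_add]
    apply Real.exp_le_exp.2
    have h1 : (A + 4 * p + 4) * T ^ (1 - e1) ≤ (A + 4 * p + 4) * T := by gcongr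
    have h2 : (A + 4 * p + 5) * T ≤ k1 ^ 2 / C3 := by
      rw [le_div_iff₀ hC3']
      calc (A + 4 * p + 5) * T * C3 = (C3 * (A + 4 * p + 5)) * T := by ring
        _ ≤ T ^ e1 * T := by
            have h' : C3 * (A + 4 * p + 5) ≤ T ^ e1 := by linarith
            gcongr
        _ ≤ T ^ (ε / 4) * T := by
            have := Vd_mono (a := e1) (b := ε / 4) hT (by linarith)
            gcongr
        _ = T ^ (1 + ε / 4) := by rw [Real.rpow_add hTpos, Real.rpow_one]; ring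
        _ ≤ _ := hk1sq
    linarith
  · -- the last one
    obtain ⟨E, hE⟩ : ∃ E : ℝ, E = Real.exp (-(T / Q)) := ⟨_, rfl⟩
    have hEpos : 0 < E := by rw [hE]; exact Real.exp_pos _
    have b1 : Real.exp (-T) ≤ E := by
      rw [hE]
      apply Real.exp_le_exp.2
      have := div_le_self hTpos.le hQ1
      linarith
    have b2 : Real.exp (A * k * R) * Real.exp (Real.pi * R ^ 2) * Real.exp (p * (Real.pi * ρ ^ 2)) * 8 ^ (1 - T / Q) ≤ 8 * E := by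
      calc Real.exp (A * k * R) * Real.exp (Real.pi * R ^ 2) * Real.exp (p * (Real.pi * ρ ^ 2)) * 8 ^ (1 - T / Q)
          ≤ Real.exp (A * k * R) * Real.exp (Real.pi * R ^ 2) * Real.exp (p * (Real.pi * ρ ^ 2)) * (8 * Real.exp (-(2 * (T / Q)))) := by
            have := h8 (T / Q) (by positivity)
            gcongr
        _ = 8 * Real.exp (A * k * R + Real.pi * R ^ 2 + p * (Real.pi * ρ ^ 2) + -(2 * (T / Q))) := by
            rw [Real.exp_add, Real.exp_add, Real.exp_add]; ring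
        _ ≤ 8 * E := by
            rw [hE]
            have : A * k * R + Real.pi * R ^ 2 + p * (Real.pi * ρ ^ 2) + -(2 * (T / Q)) ≤ -(T / Q) := by linarith
            gcongr
    have b3 : Real.exp (A * k * R) * Real.exp (Real.pi * R ^ 2) * 8 ^ (1 - T / 2) ≤ 8 * E := by
      have hh : T / Q ≤ T / 2 := by gcongr
      calc Real.exp (A * k * R) * Real.exp (Real.pi * R ^ 2) * 8 ^ (1 - T / 2)
          ≤ Real.exp (A * k * R) * Real.exp (Real.pi * R ^ 2) * (8 * Real.exp (-(2 * (T / 2)))) := by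
            have := h8 (T / 2) (by positivity)
            gcongr
        _ = 8 * Real.exp (A * k * R + Real.pi * R ^ 2 + -(2 * (T / 2))) := by
            rw [Real.exp_add, Real.exp_add]; ring
        _ ≤ 8 * E := by
            rw [hE]
            have : A * k * R + Real.pi * R ^ 2 + -(2 * (T / 2)) ≤ -(T / Q) := by linarith
            gcongr
    have b4 : (18 * 4 ^ p + 16) * 2 * E < 1 := by
      rw [hE, Real.exp_neg, ← div_eq_mul_inv, div_lt_one (Real.exp_pos _)]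
      exact hexp
    have h4 : (0 : ℝ) < 4 ^ p := by positivity
    calc 2 * (4 ^ p * (Real.exp (-T) + Real.exp (A * k * R) * Real.exp (Real.pi * R ^ 2) * Real.exp (p * (Real.pi * ρ ^ 2)) * 8 ^ (1 - T / Q))) +
        2 * (Real.exp (A * k * R) * Real.exp (Real.pi * R ^ 2) * 8 ^ (1 - T / 2))
        ≤ 2 * (4 ^ p * (E + 8 * E)) + 2 * (8 * E) := by gcongr
      _ = (18 * 4 ^ p + 16) * E := by ring
      _ < 1 / 2 := by linarith


/-! ### row Ve: the step -/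


theorem step_small2 (c p : ℕ) (Γ : AddSubgroup (Vc (c + p + 1))) (Γ₁ : AddSubgroup (Vc c)) (h1 : ∀ γ ∈ Γ₁, (zcV (p + 1) γ : Vc (c + p + 1)) ∈ Γ)
    (IH : IntB c Γ₁) (ε A C0 : ℝ) (hε : 0 < ε) (hε1 : ε ≤ 1 / 20) (hA : 0 ≤ A) (hC0 : 0 < C0) :
    ∃ T0 : ℝ, ∀ T : ℝ, T0 ≤ T → ∀ k : ℝ, T ^ (1 / 2 + ε) ≤ k → k ≤ T ^ ((c : ℝ) + p + 2 - ε) → ∀ G : Vc (c + p + 1) → ℂ, Aut Γ G →
      (∀ z, |(z 0).im| ≤ k → NN G z ≤ Real.exp (A * k * |(z 0).im|)) → JJ G T (Real.exp (-(T ^ ε * k ^ 2 / 2))) →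
        ∃ r ρ k1 : ℝ, 0 < r ∧ 0 < ρ ∧ 0 < k1 ∧ C0 ≤ r * ρ ^ (2 * p) * k1 ∧ C0 * r ≤ ρ ∧ C0 * ρ ≤ k1 ∧ ∀ z : Vc (c + p + 1), ‖z 0‖ ≤ r →
          (∀ l : Fin (c + p + 1 + 1), 0 < (l : ℕ) → (l : ℕ) ≤ p → ‖z l‖ ≤ ρ) → (∀ l : Fin (c + p + 1 + 1), (l : ℕ) = p + 1 → |(z l).im| ≤ k1) →
            NN G z < 1 / 2 := by
  obtain ⟨C3, T1, hC3, hIH⟩ := IH (ε / 8) 0 (by positivity) (by linarith) le_rfl
  obtain ⟨T0, hT0, hest⟩ := est2 c p ε A C0 C3 T1 hε hε1 hA hC0 hC3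
  refine ⟨T0, fun T hT k hk1 hk2 G hG hGA hJ => ?_⟩
  obtain ⟨R, ρ, k1, hR, hρ, hk1p, hRk, hT1, hkk1, hkk2, hc1, hc2, hc3, hJ', hsm, hfin⟩ := hest T hT k hk1 hk2
  have hC3p : 0 < C3 := by linarith
  have hTp : 0 ≤ T := by linarith
  have hkp : 0 < k := lt_of_lt_of_le hR hRk
  set E : ℝ := Real.exp (A * k * R) with hE
  have hEp : 0 < E := Real.exp_pos _
  have hE1 : 1 ≤ E := Real.one_le_exp (by positivity)
  set B : ℝ := E * Real.exp (Real.pi * R ^ 2) * Real.exp (p * (Real.pi * ρ ^ 2)) with hB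
  have hBp : 0 < B := by positivity
  have hB1 : 1 ≤ B := by
    have e1 : 1 ≤ Real.exp (Real.pi * R ^ 2) := Real.one_le_exp (by positivity)
    have e2 : 1 ≤ Real.exp (p * (Real.pi * ρ ^ 2)) := Real.one_le_exp (by positivity)
    exact one_le_mul_of_one_le_of_one_le (one_le_mul_of_one_le_of_one_le hE1 e1) e2
  have hη0 : 0 ≤ Real.exp (-(T ^ ε * k ^ 2 / 2)) := (Real.exp_pos _).le
  have hm0 : 0 ≤ (max 1 R) ^ T := Real.rpow_nonneg (le_trans zero_le_one (le_max_left _ _)) _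
  -- the innermost step
  have key : ∀ F : Vc c → ℂ, Aut Γ₁ F → (∀ z, NN F z ≤ E * Real.exp (Real.pi * R ^ 2) * Real.exp (p * (Real.pi * ρ ^ 2))) →
      JJ F (T / 2 / 2 ^ p) (ρ ^ (2 * (T / 2)) * ((max 1 R) ^ T * Real.exp (-(T ^ ε * k ^ 2 / 2)))) →
        ∀ z, |(z 0).im| ≤ k1 / C3 → NN F z ≤ Real.exp (-T) := by
    intro F hF hFE hFJ z hz
    have hBn : ‖((B⁻¹ : ℝ) : ℂ)‖ = B⁻¹ := by
      rw [Complex.norm_real, Real.norm_of_nonneg (inv_nonneg.2 hBp.le)]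
    have h2 := hIH (T / 2 / 2 ^ p) hT1 k1 hkk1 hkk2 (fun z => ((B⁻¹ : ℝ) : ℂ) * F z) (hF.smul _) ?_ ?_ z hz
    · rw [NN_smul, hBn] at h2
      have h3 : NN F z ≤ B * Real.exp (-(k1 ^ 2 / C3)) := by
        have h4 : NN F z = B * (B⁻¹ * NN F z) := by
          rw [← mul_assoc, mul_inv_cancel₀ hBp.ne', one_mul]
        rw [h4]
        exact mul_le_mul_of_nonneg_left h2 hBp.le
      exact h3.trans hsm
    · intro w _
      rw [NN_smul, hBn, zero_mul, Real.exp_zero]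
      rw [inv_mul_le_iff₀ hBp, mul_one]
      exact hFE w
    · intro v hv d hd
      have h5 := JJ_smul hFJ ((B⁻¹ : ℝ) : ℂ) v hv d hd
      refine h5.trans ?_
      rw [hBn]
      have h6 : 0 ≤ ρ ^ (2 * (T / 2)) * ((max 1 R) ^ T * Real.exp (-(T ^ ε * k ^ 2 / 2))) :=
        mul_nonneg (Real.rpow_nonneg (by linarith) _) (mul_nonneg hm0 hη0)
      calc B⁻¹ * (ρ ^ (2 * (T / 2)) * ((max 1 R) ^ T * Real.exp (-(T ^ ε * k ^ 2 / 2))))
          ≤ 1 * (ρ ^ (2 * (T / 2)) * ((max 1 R) ^ T * Real.exp (-(T ^ ε * k ^ 2 / 2)))) :=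
            mul_le_mul_of_nonneg_right (inv_le_one_of_one_le₀ hB1) h6
        _ ≤ _ := by rw [one_mul]; exact hJ'
  -- the free variables
  have H : ∀ F : Vc (c + p) → ℂ, Aut (zg Γ₁ p) F → (∀ z, NN F z ≤ E * Real.exp (Real.pi * R ^ 2)) →
      JJ F (T / 2) ((max 1 R) ^ T * Real.exp (-(T ^ ε * k ^ 2 / 2))) → ∀ z ∈ (Sq (ρ / 8) (k1 / C3) p : Set (Vc (c + p))),
        NN F z ≤ 4 ^ p * (Real.exp (-T) + E * Real.exp (Real.pi * R ^ 2) * Real.exp (p * (Real.pi * ρ ^ 2)) * 8 ^ (1 - T / 2 / 2 ^ p)) := by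
    intro F hF hFE hFJ z hz
    exact fv_iter (Γ := Γ₁) hρ (Real.exp_pos _).le p (E * Real.exp (Real.pi * R ^ 2)) _ (T / 2) (by positivity)
      (mul_nonneg hm0 hη0) (by positivity) key F hF hFE hFJ z hz
  have hcons : ∀ γ ∈ (zg Γ₁ p : AddSubgroup (Vc (c + p))), (Fin.cons 0 γ : Vc (c + p + 1)) ∈ Γ := by
    intro γ hγ
    obtain ⟨g, hg, rfl⟩ := mem_zg hγ
    exact h1 g hg
  refine ⟨R / 8, ρ / 8, k1 / C3, by positivity, by positivity, by positivity, hc1, hc2, hc3, fun z hz1 hz2 hz3 => ?_⟩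
  have hfs := fv_step (c := c + p) (Γ := Γ) (Γ₁ := zg Γ₁ p) hcons hR hEp.le hη0 hTp (S := Sq (ρ / 8) (k1 / C3) p) ?_ H hG ?_ hJ z hz1 ?_
  · exact lt_of_le_of_lt hfs hfin
  · positivity
  · intro w hw
    have hi : |(w 0).im| ≤ R := (Complex.abs_im_le_norm _).trans hw
    refine (hGA w (hi.trans hRk)).trans ?_
    rw [hE]
    apply Real.exp_le_exp.2
    exact mul_le_mul_of_nonneg_left hi (by positivity)
  · refine mem_Sq ?_ ?_
    · intro l hl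
      have := hz2 l.succ (by simp) (by simp; omega)
      exact this
    · intro l hl
      have := hz3 l.succ (by simp; omega)
      exact this


/-! ### row Vf: the covering -/


theorem step_case2 (c p : ℕ) (Γ : AddSubgroup (Vc (c + p + 1))) (Γ₁ : AddSubgroup (Vc c)) (h1 : ∀ γ ∈ Γ₁, (zcV (p + 1) γ : Vc (c + p + 1)) ∈ Γ)
    (h2 : CovG p Γ) (IH : IntB c Γ₁) (ε A : ℝ) (hε : 0 < ε) (hε1 : ε ≤ 1 / 20) (hA : 0 ≤ A) :
    ∃ T0 : ℝ, ∀ T : ℝ, T0 ≤ T → ∀ k : ℝ, T ^ (1 / 2 + ε) ≤ k → k ≤ T ^ ((c : ℝ) + p + 2 - ε) → ∀ G : Vc (c + p + 1) → ℂ, Aut Γ G →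
      (∀ z, |(z 0).im| ≤ k → NN G z ≤ Real.exp (A * k * |(z 0).im|)) → JJ G T (Real.exp (-(T ^ ε * k ^ 2 / 2))) →
        ∀ z, (z 0).im = 0 → NN G z < 1 / 2 := by
  obtain ⟨C0, hC0, hcov⟩ := h2
  obtain ⟨T0, hT0⟩ := step_small2 c p Γ Γ₁ h1 IH ε A C0 hε hε1 hA hC0
  refine ⟨T0, fun T hT k hk1 hk2 G hG hb1 hJ z hz => ?_⟩
  obtain ⟨r, ρ, k1, hr, hρ, hk1', hrk, hCr, hCρ, hsmall⟩ := hT0 T hT k hk1 hk2 G hG hb1 hJ
  obtain ⟨γ, hγ, hγ0, hγ1, hγ2⟩ := hcov r ρ k1 hr hρ hk1' hrk hCr hCρ z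
  have hinv := NN_inv hG hγ (z - γ)
  rw [sub_add_cancel] at hinv
  rw [hinv]
  refine hsmall _ ?_ ?_ ?_
  · obtain ⟨hγim, hγre⟩ := hγ0 0 (by simp)
    have h2 : (z - γ) 0 = ((((z - γ) 0).re : ℝ) : ℂ) := by
      apply Complex.ext
      · simp only [Complex.ofReal_re]
      · rw [Complex.ofReal_im, Pi.sub_apply, Complex.sub_im, hz, hγim, sub_zero]
    rw [h2, Complex.norm_real, Real.norm_eq_abs, Pi.sub_apply, Complex.sub_re]
    exact hγre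
  · intro l hl1 hl2
    rw [Pi.sub_apply]
    exact hγ1 l hl1 hl2
  · intro l hl
    rw [Pi.sub_apply, Complex.sub_im]
    exact hγ2 l hl


/-- THEOREM B, version 2 -/
theorem thmB2 : ThmB2 := by
  intro c Γ hΓ
  induction hΓ with
  | base Γ h =>
    refine wrap 0 Γ ?_
    intro ε A hε hε1 hA
    obtain ⟨T0, h⟩ := base_case Γ h ε A hε hε1 hA
    refine ⟨T0, fun T hT k h1 h2 => h T hT k h1 ?_⟩
    simpa using h2
  | step c p Γ₁ Γ h1 h2 h3 ih =>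
    refine wrap (c + p + 1) Γ ?_
    intro ε A hε hε1 hA
    obtain ⟨T0, h⟩ := step_case2 c p Γ Γ₁ h2 h3 ih ε A hε hε1 hA
    refine ⟨T0, fun T hT k h1 h2 => h T hT k h1 ?_⟩
    refine h2.trans (le_of_eq ?_)
    congr 1
    push_cast
    ring

end Pool.Agent.LT
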