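import Mathlib

/-!
# The covering lemma: boxes of large volume contain representatives modulo the integers of a number field
-/

open NumberField

noncomputable section

namespace Pool.Agent.LT


open NumberField.Units NumberField.Units.dirichletUnitTheorem in
open scoped Classical in
/-- units at bounded distance of any vector -/
theorem Vg_near (L : Type) [Field L] [NumberField L] : ∃ B : ℝ, 0 ≤ B ∧ ∀ x : logSpace L,
    ∃ η : (𝓞 L)ˣ, ∀ w : {w : InfinitePlace L // w ≠ w₀},
      |(w.1.mult : ℝ) * Real.log (w.1 (η : L)) - x w| ≤ B := by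
  let b := (basisUnitLattice L).ofZLatticeBasis ℝ (unitLattice L)
  refine ⟨∑ i, ‖b i‖, Finset.sum_nonneg fun i _ => norm_nonneg _, fun x => ?_⟩
  have h1 : (ZSpan.floor b x : logSpace L) ∈ unitLattice L := by
    have h2 := (ZSpan.floor b x).2
    exact (Module.Basis.ofZLatticeBasis_span ℝ (unitLattice L) (basisUnitLattice L)).le h2
  obtain ⟨η, -, hη⟩ := Submodule.mem_map.mp h1
  refine ⟨η.toMul, fun w => ?_⟩
  have h3 : x - (ZSpan.floor b x : logSpace L) = ZSpan.fract b x := rfl
  have h4 := ZSpan.norm_fract_le b x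
  have h5 : ‖(ZSpan.fract b x) w‖ ≤ ‖ZSpan.fract b x‖ := norm_le_pi_norm _ _
  have h6 : (ZSpan.fract b x) w = x w - (w.1.mult : ℝ) * Real.log (w.1 (η.toMul : L)) := by
    rw [← h3, ← hη]
    rfl
  rw [h6, Real.norm_eq_abs] at h5
  rw [abs_sub_comm]
  exact h5.trans h4

open NumberField.Units NumberField.Units.dirichletUnitTheorem in
open scoped Classical in
/-- units below a vector -/
theorem Vg_main (L : Type) [Field L] [NumberField L] : ∃ C1 : ℝ, 0 < C1 ∧ ∀ t : InfinitePlace L → ℝ, 0 ≤ ∑ v, (v.mult : ℝ) * t v →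
    ∃ η : (𝓞 L)ˣ, ∀ v : InfinitePlace L, Real.log (v (η : L)) ≤ t v + C1 := by
  obtain ⟨B, hB, hnear⟩ := Vg_near L
  set N : ℝ := (Fintype.card {w : InfinitePlace L // w ≠ w₀} : ℝ) with hN
  have hN0 : 0 ≤ N := Nat.cast_nonneg _
  refine ⟨N * B + B + 1, by positivity, fun t ht => ?_⟩
  have hmult : ∀ v : InfinitePlace L, (1 : ℝ) ≤ (v.mult : ℝ) := by
    intro v
    exact_mod_cast Nat.one_le_iff_ne_zero.mpr v.mult_ne_zero
  set s : ℝ := ∑ v : InfinitePlace L, (v.mult : ℝ) with hs
  have hs0 : 0 < s := by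
    have h1 : (0 : ℝ) < ((w₀ : InfinitePlace L).mult : ℝ) := lt_of_lt_of_le one_pos (hmult _)
    exact lt_of_lt_of_le h1 (Finset.single_le_sum (f := fun v : InfinitePlace L => (v.mult : ℝ))
      (fun v _ => le_trans zero_le_one (hmult v)) (Finset.mem_univ _))
  set c : ℝ := (∑ v, (v.mult : ℝ) * t v) / s with hc
  have hc0 : 0 ≤ c := div_nonneg ht hs0.le
  have hsum : ∑ v : InfinitePlace L, (v.mult : ℝ) * (t v - c) = 0 := by
    have h1 : ∀ v : InfinitePlace L, (v.mult : ℝ) * (t v - c) = (v.mult : ℝ) * t v - (v.mult : ℝ) * c := fun v => by ring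
    rw [Finset.sum_congr rfl fun v _ => h1 v, Finset.sum_sub_distrib, ← Finset.sum_mul, ← hs, hc]
    field_simp
    ring
  obtain ⟨η, hη⟩ := hnear fun w => (w.1.mult : ℝ) * (t w.1 - c)
  refine ⟨η, fun v => ?_⟩
  have key : ∀ (m a b e : ℝ), 1 ≤ m → m * a ≤ m * b + e → 0 ≤ e → a ≤ b + e := by
    intro m a b e hm h he
    by_contra hcon
    rw [not_le] at hcon
    have h1 : m * (b + e) < m * a := mul_lt_mul_of_pos_left hcon (by linarith)
    nlinarith
  by_cases hv : v = w₀
  · have h1 := sum_mult_mul_log η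
    rw [Fintype.sum_eq_add_sum_subtype_ne _ w₀] at h1 hsum
    have h2 : ∑ w : {w : InfinitePlace L // w ≠ w₀}, ((w.1.mult : ℝ) * (t w.1 - c) - (w.1.mult : ℝ) * Real.log (w.1 (η : L))) ≤
        N * B := by
      refine (Finset.sum_le_card_nsmul _ _ B fun w _ => ?_).trans (le_of_eq ?_)
      · have h3 := abs_le.mp (hη w)
        linarith [h3.1]
      · rw [nsmul_eq_mul, hN, Finset.card_univ]
    rw [Finset.sum_sub_distrib] at h2
    subst hv
    have h4 : ((w₀ : InfinitePlace L).mult : ℝ) * Real.log (w₀ (η : L)) ≤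
        ((w₀ : InfinitePlace L).mult : ℝ) * (t w₀ - c) + N * B := by
      linarith
    have h5 := key _ _ _ _ (hmult _) h4 (by positivity)
    linarith
  · have h3 := (abs_le.mp (hη ⟨v, hv⟩)).2
    have h4 : (v.mult : ℝ) * Real.log (v (η : L)) ≤ (v.mult : ℝ) * (t v - c) + B := by
      have h5 : (v.mult : ℝ) * Real.log (v (η : L)) - (v.mult : ℝ) * (t v - c) ≤ B := h3
      linarith
    have h5 := key _ _ _ _ (hmult _) h4 hB
    have h6 : 0 ≤ N * B := by positivity
    linarith

/-- row Vg (units): the logarithms of the units are relatively dense in the hyperplane; so there is a unit below any vector of nonnegative sum,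
up to a constant -/
theorem unit_below (L : Type) [Field L] [NumberField L] : ∃ C1 : ℝ, 0 < C1 ∧ ∀ t : InfinitePlace L → ℝ, 0 ≤ ∑ v, (v.mult : ℝ) * t v →
    ∃ η : (𝓞 L)ˣ, ∀ v : InfinitePlace L, Real.log (v (η : L)) ≤ t v + C1 := by
  exact Vg_main L



/-- row Vh (compactness): the integers are relatively dense in `L ⊗ ℝ` -/
theorem int_dense (L : Type) [Field L] [NumberField L] : ∃ R0 : ℝ, 0 < R0 ∧ ∀ X : InfinitePlace L → ℂ, (∀ v, v.IsReal → (X v).im = 0) →
    ∃ l : 𝓞 L, ∀ v : InfinitePlace L, ‖X v - v.embedding (l : L)‖ ≤ R0 := by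
  classical
  refine ⟨(∑ i, ‖mixedEmbedding.latticeBasis L i‖) + 1, by positivity, ?_⟩
  intro X hX
  let x : mixedEmbedding.mixedSpace L := (fun w => (X w.1).re, fun w => X w.1)
  have hf : ‖ZSpan.fract (mixedEmbedding.latticeBasis L) x‖ ≤ ∑ i, ‖mixedEmbedding.latticeBasis L i‖ :=
    ZSpan.norm_fract_le (mixedEmbedding.latticeBasis L) x
  have hm : ((ZSpan.floor (mixedEmbedding.latticeBasis L) x : Submodule.span ℤ (Set.range (mixedEmbedding.latticeBasis L))) :
      mixedEmbedding.mixedSpace L) ∈ mixedEmbedding.integerLattice L :=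
    (mixedEmbedding.mem_span_latticeBasis L).1 (ZSpan.floor (mixedEmbedding.latticeBasis L) x).2
  obtain ⟨l, hl⟩ := hm
  refine ⟨l, ?_⟩
  have hl' : ((ZSpan.floor (mixedEmbedding.latticeBasis L) x : Submodule.span ℤ (Set.range (mixedEmbedding.latticeBasis L))) :
      mixedEmbedding.mixedSpace L) = mixedEmbedding L (l : L) := hl.symm
  rw [ZSpan.fract_apply, hl'] at hf
  intro v
  by_cases hv : v.IsReal
  · have h1 : ‖(x - mixedEmbedding L (l : L)).1 ⟨v, hv⟩‖ ≤ ‖x - mixedEmbedding L (l : L)‖ :=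
      (norm_le_pi_norm _ _).trans (norm_fst_le _)
    have h2 : X v - v.embedding (l : L) = (((x - mixedEmbedding L (l : L)).1 ⟨v, hv⟩ : ℝ) : ℂ) := by
      have h3 : (x - mixedEmbedding L (l : L)).1 ⟨v, hv⟩ = (X v).re - InfinitePlace.embedding_of_isReal hv (l : L) := by
        rw [Prod.fst_sub, Pi.sub_apply, mixedEmbedding.mixedEmbedding_apply_isReal]
      rw [h3, Complex.ofReal_sub, InfinitePlace.embedding_of_isReal_apply]
      congr 1
      apply Complex.ext
      · simp
      · simp [hX v hv]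
    rw [h2, Complex.norm_real]
    linarith
  · have hc : v.IsComplex := InfinitePlace.not_isReal_iff_isComplex.1 hv
    have h1 : ‖(x - mixedEmbedding L (l : L)).2 ⟨v, hc⟩‖ ≤ ‖x - mixedEmbedding L (l : L)‖ :=
      (norm_le_pi_norm _ _).trans (norm_snd_le _)
    have h2 : X v - v.embedding (l : L) = (x - mixedEmbedding L (l : L)).2 ⟨v, hc⟩ := by
      rw [Prod.snd_sub, Pi.sub_apply, mixedEmbedding.mixedEmbedding_apply_isComplex]
    rw [h2]
    linarith



/-- row Vi: the covering lemma -/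
theorem cov_places (L : Type) [Field L] [NumberField L] : ∃ C : ℝ, 0 < C ∧ ∀ r : InfinitePlace L → ℝ, (∀ v, 0 < r v) → C ≤ ∏ v, r v ^ v.mult →
    ∀ X : InfinitePlace L → ℂ, (∀ v, v.IsReal → (X v).im = 0) → ∃ l : 𝓞 L, ∀ v : InfinitePlace L, ‖X v - v.embedding (l : L)‖ ≤ r v := by
  obtain ⟨C1, hC1, hunit⟩ := unit_below L
  obtain ⟨R0, hR0, hint⟩ := int_dense L
  refine ⟨Real.exp (∑ v : InfinitePlace L, (v.mult : ℝ) * (Real.log R0 + C1)), Real.exp_pos _, ?_⟩
  intro r hr hC X hX
  have hprod : 0 < ∏ v, r v ^ v.mult := Finset.prod_pos (fun v _ => pow_pos (hr v) _)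
  have hlog : ∑ v : InfinitePlace L, (v.mult : ℝ) * (Real.log R0 + C1) ≤ ∑ v : InfinitePlace L, (v.mult : ℝ) * Real.log (r v) := by
    have h1 := Real.log_le_log (Real.exp_pos _) hC
    rw [Real.log_exp, Real.log_prod (fun v _ => (pow_pos (hr v) _).ne')] at h1
    refine h1.trans (le_of_eq ?_)
    refine Finset.sum_congr rfl (fun v _ => ?_)
    rw [Real.log_pow]
  obtain ⟨η, hη⟩ := hunit (fun v => Real.log (r v) - Real.log R0 - C1) (by
    have : ∑ v : InfinitePlace L, (v.mult : ℝ) * (Real.log (r v) - Real.log R0 - C1)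
        = ∑ v : InfinitePlace L, (v.mult : ℝ) * Real.log (r v) - ∑ v : InfinitePlace L, (v.mult : ℝ) * (Real.log R0 + C1) := by
      rw [← Finset.sum_sub_distrib]
      refine Finset.sum_congr rfl (fun v _ => ?_)
      ring
    rw [this]
    linarith)
  have hη0 : ((η : 𝓞 L) : L) ≠ 0 := by
    have h1 : (η : 𝓞 L) ≠ 0 := η.ne_zero
    simp
  have hb : ∀ v : InfinitePlace L, v ((η : 𝓞 L) : L) * R0 ≤ r v := by
    intro v
    have h1 := hη v
    have hv : 0 < v ((η : 𝓞 L) : L) := v.pos_iff.mpr hη0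
    have h2 : Real.log (v ((η : 𝓞 L) : L)) + Real.log R0 ≤ Real.log (r v) := by linarith
    rw [← Real.log_mul hv.ne' hR0.ne'] at h2
    exact (Real.log_le_log_iff (mul_pos hv hR0) (hr v)).mp h2
  obtain ⟨l0, hl0⟩ := hint (fun v => X v / v.embedding ((η : 𝓞 L) : L)) (by
    intro v hv
    have h1 : ComplexEmbedding.IsReal v.embedding := InfinitePlace.isReal_iff.mp hv
    have h2 : v.embedding ((η : 𝓞 L) : L) = ((h1.embedding ((η : 𝓞 L) : L) : ℝ) : ℂ) := (h1.coe_embedding_apply _).symm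
    have h3 : (X v / v.embedding ((η : 𝓞 L) : L)).im = (X v).im / h1.embedding ((η : 𝓞 L) : L) := by
      rw [h2, Complex.div_ofReal_im]
    rw [h3, hX v hv, zero_div])
  refine ⟨(η : 𝓞 L) * l0, fun v => ?_⟩
  have hne : v.embedding ((η : 𝓞 L) : L) ≠ 0 := by
    simp
  have h1 : X v - v.embedding (((η : 𝓞 L) * l0 : 𝓞 L) : L)
      = v.embedding ((η : 𝓞 L) : L) * (X v / v.embedding ((η : 𝓞 L) : L) - v.embedding (l0 : L)) := by
    have h2 : (((η : 𝓞 L) * l0 : 𝓞 L) : L) = ((η : 𝓞 L) : L) * (l0 : L) := rfl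
    rw [h2, map_mul, mul_sub, mul_div_cancel₀ _ hne]
  rw [h1, norm_mul, InfinitePlace.norm_embedding_eq]
  refine (mul_le_mul_of_nonneg_left (hl0 v) (apply_nonneg v _)).trans (hb v)



theorem Vj_isReal_comp {L : Type} [Field L] (e : L →+* ℝ) : ComplexEmbedding.IsReal ((algebraMap ℝ ℂ).comp e : L →+* ℂ) := by
  rw [ComplexEmbedding.isReal_iff]
  ext x
  simp [ComplexEmbedding.conjugate_coe_eq]

theorem Vj_notReal {L : Type} [Field L] {f : L →+* ℂ} (h : ∃ x, (f x).im ≠ 0) : ¬ ComplexEmbedding.IsReal f := by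
  rintro hr
  obtain ⟨x, hx⟩ := h
  rw [ComplexEmbedding.isReal_iff] at hr
  have h1 := DFunLike.congr_fun hr x
  rw [ComplexEmbedding.conjugate_coe_eq] at h1
  exact hx (Complex.conj_eq_iff_im.mp h1)

/-- the list of the places -/
def Vj_tau {L : Type} [Field L] {p : ℕ} (e0 e1 : L →+* ℝ) (es : Fin p → (L →+* ℂ)) : Option (Option (Fin p)) → InfinitePlace L
  | none => InfinitePlace.mk ((algebraMap ℝ ℂ).comp e0)
  | some none => InfinitePlace.mk ((algebraMap ℝ ℂ).comp e1)
  | some (some i) => InfinitePlace.mk (es i)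

theorem Vj_tau_inj {L : Type} [Field L] {p : ℕ} (e0 e1 : L →+* ℝ) (h01 : e0 ≠ e1)
    (es : Fin p → (L →+* ℂ)) (hinj : Function.Injective es) (hnr : ∀ i, ∃ x, ((es i) x).im ≠ 0)
    (hcj : ∀ i j, (starRingEnd ℂ).comp (es i) ≠ es j) : Function.Injective (Vj_tau e0 e1 es) := by
  have hR0 : InfinitePlace.IsReal (InfinitePlace.mk ((algebraMap ℝ ℂ).comp e0)) := InfinitePlace.isReal_mk_iff.mpr (Vj_isReal_comp e0)
  have hR1 : InfinitePlace.IsReal (InfinitePlace.mk ((algebraMap ℝ ℂ).comp e1)) := InfinitePlace.isReal_mk_iff.mpr (Vj_isReal_comp e1)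
  have hN : ∀ i, ¬ InfinitePlace.IsReal (InfinitePlace.mk (es i)) := fun i h => Vj_notReal (hnr i) (InfinitePlace.isReal_mk_iff.mp h)
  have h01' : InfinitePlace.mk ((algebraMap ℝ ℂ).comp e0) ≠ InfinitePlace.mk ((algebraMap ℝ ℂ).comp e1) := by
    intro h
    rw [InfinitePlace.mk_eq_iff] at h
    have h2 : (algebraMap ℝ ℂ).comp e0 = (algebraMap ℝ ℂ).comp e1 := by
      rcases h with h | h
      · exact h
      · rw [ComplexEmbedding.isReal_iff.mp (Vj_isReal_comp e0)] at h
        exact h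
    refine h01 ?_
    ext x
    have h3 := DFunLike.congr_fun h2 x
    simpa using h3
  intro a b hab
  match a, b, hab with
  | none, none, _ => rfl
  | none, some none, h => exact absurd h h01'
  | none, some (some j), h =>
    exact absurd ((congrArg InfinitePlace.IsReal (show InfinitePlace.mk ((algebraMap ℝ ℂ).comp e0) = InfinitePlace.mk (es j) from h)).mp hR0) (hN j)
  | some none, none, h => exact absurd h.symm h01'
  | some none, some none, _ => rfl
  | some none, some (some j), h =>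
    exact absurd ((congrArg InfinitePlace.IsReal (show InfinitePlace.mk ((algebraMap ℝ ℂ).comp e1) = InfinitePlace.mk (es j) from h)).mp hR1) (hN j)
  | some (some i), none, h =>
    exact absurd ((congrArg InfinitePlace.IsReal (show InfinitePlace.mk ((algebraMap ℝ ℂ).comp e0) = InfinitePlace.mk (es i) from h.symm)).mp hR0) (hN i)
  | some (some i), some none, h =>
    exact absurd ((congrArg InfinitePlace.IsReal (show InfinitePlace.mk ((algebraMap ℝ ℂ).comp e1) = InfinitePlace.mk (es i) from h.symm)).mp hR1) (hN i)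
  | some (some i), some (some j), h =>
    have h' : InfinitePlace.mk (es i) = InfinitePlace.mk (es j) := h
    rw [InfinitePlace.mk_eq_iff] at h'
    rcases h' with h' | h'
    · rw [hinj h']
    · refine absurd ?_ (hcj i j)
      rw [← h']
      ext x
      simp [ComplexEmbedding.conjugate_coe_eq]

theorem Vj_tau_bij (L : Type) [Field L] [NumberField L] (p : ℕ) (hd : Module.finrank ℚ L = 2 * (p + 1)) (e0 e1 : L →+* ℝ) (h01 : e0 ≠ e1)
    (es : Fin p → (L →+* ℂ)) (hinj : Function.Injective es) (hnr : ∀ i, ∃ x, ((es i) x).im ≠ 0)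
    (hcj : ∀ i j, (starRingEnd ℂ).comp (es i) ≠ es j) : Function.Bijective (Vj_tau e0 e1 es) := by
  classical
  have hi := Vj_tau_inj e0 e1 h01 es hinj hnr hcj
  refine ⟨hi, ?_⟩
  have hR0 : InfinitePlace.IsReal (InfinitePlace.mk ((algebraMap ℝ ℂ).comp e0)) := InfinitePlace.isReal_mk_iff.mpr (Vj_isReal_comp e0)
  have hR1 : InfinitePlace.IsReal (InfinitePlace.mk ((algebraMap ℝ ℂ).comp e1)) := InfinitePlace.isReal_mk_iff.mpr (Vj_isReal_comp e1)
  have hN : ∀ i, ¬ InfinitePlace.IsReal (InfinitePlace.mk (es i)) := fun i h => Vj_notReal (hnr i) (InfinitePlace.isReal_mk_iff.mp h)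
  have hsum : ∑ a : Option (Option (Fin p)), (Vj_tau e0 e1 es a).mult = 2 * (p + 1) := by
    rw [Fintype.sum_option, Fintype.sum_option]
    have h0 : (Vj_tau e0 e1 es none).mult = 1 := by
      show InfinitePlace.mult (InfinitePlace.mk ((algebraMap ℝ ℂ).comp e0)) = 1
      rw [InfinitePlace.mult, if_pos hR0]
    have h1 : (Vj_tau e0 e1 es (some none)).mult = 1 := by
      show InfinitePlace.mult (InfinitePlace.mk ((algebraMap ℝ ℂ).comp e1)) = 1
      rw [InfinitePlace.mult, if_pos hR1]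
    have h2 : ∀ i, (Vj_tau e0 e1 es (some (some i))).mult = 2 := by
      intro i
      show InfinitePlace.mult (InfinitePlace.mk (es i)) = 2
      rw [InfinitePlace.mult, if_neg (hN i)]
    rw [h0, h1, Finset.sum_congr rfl (fun i _ => h2 i)]
    simp
    ring
  by_contra hs
  obtain ⟨v, hv⟩ := not_forall.mp hs
  have htot : ∑ w : InfinitePlace L, w.mult = 2 * (p + 1) := by rw [InfinitePlace.sum_mult_eq, hd]
  have h1 : ∑ w ∈ Finset.univ.image (Vj_tau e0 e1 es), w.mult = 2 * (p + 1) := by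
    rw [Finset.sum_image (fun a _ b _ h => hi h), hsum]
  have h2 : ∑ w ∈ Finset.univ.image (Vj_tau e0 e1 es), w.mult < ∑ w : InfinitePlace L, w.mult := by
    refine Finset.sum_lt_sum_of_subset (Finset.subset_univ _) (Finset.mem_univ v) ?_ InfinitePlace.mult_pos (fun _ _ _ => Nat.zero_le _)
    simp only [Finset.mem_image, Finset.mem_univ, true_and]
    exact hv
  omega

/-- row Vj: the covering lemma for a field with two real embeddings `e0`, `e1` and `p` pairs of complex embeddings `es i`, `conj (es i)` -/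
theorem cov_field (L : Type) [Field L] [NumberField L] (p : ℕ) (hd : Module.finrank ℚ L = 2 * (p + 1)) (e0 e1 : L →+* ℝ) (h01 : e0 ≠ e1)
    (es : Fin p → (L →+* ℂ)) (hinj : Function.Injective es) (hnr : ∀ i, ∃ x, ((es i) x).im ≠ 0)
    (hcj : ∀ i j, (starRingEnd ℂ).comp (es i) ≠ es j) :
    ∃ C : ℝ, 0 < C ∧ ∀ r ρ k : ℝ, 0 < r → 0 < ρ → 0 < k → C ≤ r * ρ ^ (2 * p) * k → ∀ (x : ℝ) (w : Fin p → ℂ) (y : ℝ),
      ∃ l : 𝓞 L, |x - e0 (l : L)| ≤ r ∧ (∀ i, ‖w i - es i (l : L)‖ ≤ ρ) ∧ |y - e1 (l : L)| ≤ k := by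
  classical
  obtain ⟨C, hC, hcov⟩ := cov_places L
  refine ⟨C, hC, fun r ρ k hr hρ hk hvol x w y => ?_⟩
  have hbij := Vj_tau_bij L p hd e0 e1 h01 es hinj hnr hcj
  have hR0 : InfinitePlace.IsReal (InfinitePlace.mk ((algebraMap ℝ ℂ).comp e0)) := InfinitePlace.isReal_mk_iff.mpr (Vj_isReal_comp e0)
  have hR1 : InfinitePlace.IsReal (InfinitePlace.mk ((algebraMap ℝ ℂ).comp e1)) := InfinitePlace.isReal_mk_iff.mpr (Vj_isReal_comp e1)
  have hN : ∀ i, ¬ InfinitePlace.IsReal (InfinitePlace.mk (es i)) := fun i h => Vj_notReal (hnr i) (InfinitePlace.isReal_mk_iff.mp h)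
  let σ : Option (Option (Fin p)) ≃ InfinitePlace L := Equiv.ofBijective _ hbij
  have hσ : ∀ a, σ a = Vj_tau e0 e1 es a := fun a => rfl
  let R : Option (Option (Fin p)) → ℝ := fun a => match a with
    | none => r
    | some none => k
    | some (some _) => ρ
  let Y : Option (Option (Fin p)) → ℂ := fun a => match a with
    | none => (x : ℂ)
    | some none => (y : ℂ)
    | some (some i) => if (InfinitePlace.mk (es i)).embedding = es i then w i else (starRingEnd ℂ) (w i)
  have hRpos : ∀ a, 0 < R a := by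
    intro a
    match a with
    | none => exact hr
    | some none => exact hk
    | some (some _) => exact hρ
  have hprod : ∏ v, (R (σ.symm v)) ^ v.mult = r * ρ ^ (2 * p) * k := by
    rw [← Equiv.prod_comp σ]
    simp only [Equiv.symm_apply_apply]
    rw [Fintype.prod_option, Fintype.prod_option]
    have h0 : (σ none).mult = 1 := by
      show InfinitePlace.mult (InfinitePlace.mk ((algebraMap ℝ ℂ).comp e0)) = 1
      rw [InfinitePlace.mult, if_pos hR0]
    have h1 : (σ (some none)).mult = 1 := by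
      show InfinitePlace.mult (InfinitePlace.mk ((algebraMap ℝ ℂ).comp e1)) = 1
      rw [InfinitePlace.mult, if_pos hR1]
    have h2 : ∀ i, (σ (some (some i))).mult = 2 := by
      intro i
      show InfinitePlace.mult (InfinitePlace.mk (es i)) = 2
      rw [InfinitePlace.mult, if_neg (hN i)]
    rw [h0, h1, Finset.prod_congr rfl (fun i _ => by rw [h2 i])]
    show r ^ 1 * (k ^ 1 * ∏ _i : Fin p, ρ ^ 2) = _
    rw [Finset.prod_const, Finset.card_univ, Fintype.card_fin, ← pow_mul]
    ring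
  obtain ⟨l, hl⟩ := hcov (fun v => R (σ.symm v)) (fun v => hRpos _) (by rw [hprod]; exact hvol) (fun v => Y (σ.symm v)) (by
    intro v hv
    obtain ⟨a, rfl⟩ := σ.surjective v
    rw [Equiv.symm_apply_apply]
    match a, hv with
    | none, _ => exact Complex.ofReal_im x
    | some none, _ => exact Complex.ofReal_im y
    | some (some i), hv => exact absurd hv (hN i))
  refine ⟨l, ?_, ?_, ?_⟩
  · have h := hl (σ none)
    simp only [Equiv.symm_apply_apply] at h
    have he : (σ none).embedding = (algebraMap ℝ ℂ).comp e0 := InfinitePlace.embedding_mk_eq_of_isReal (Vj_isReal_comp e0)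
    rw [he] at h
    have h' : ‖(x : ℂ) - ((e0 (l : L) : ℝ) : ℂ)‖ ≤ r := h
    rw [← Complex.ofReal_sub, Complex.norm_real, Real.norm_eq_abs] at h'
    exact h'
  · intro i
    have h := hl (σ (some (some i)))
    simp only [Equiv.symm_apply_apply] at h
    have h' : ‖(if (InfinitePlace.mk (es i)).embedding = es i then w i else (starRingEnd ℂ) (w i)) - (InfinitePlace.mk (es i)).embedding (l : L)‖ ≤ ρ := h
    by_cases hc : (InfinitePlace.mk (es i)).embedding = es i
    · rw [if_pos hc, hc] at h'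
      exact h'
    · rw [if_neg hc] at h'
      have hc2 : (InfinitePlace.mk (es i)).embedding = ComplexEmbedding.conjugate (es i) := by
        rcases InfinitePlace.embedding_mk_eq (es i) with h3 | h3
        · exact absurd h3 hc
        · exact h3
      rw [hc2, ComplexEmbedding.conjugate_coe_eq, ← map_sub, RCLike.norm_conj] at h'
      exact h'
  · have h := hl (σ (some none))
    simp only [Equiv.symm_apply_apply] at h
    have he : (σ (some none)).embedding = (algebraMap ℝ ℂ).comp e1 := InfinitePlace.embedding_mk_eq_of_isReal (Vj_isReal_comp e1)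
    rw [he] at h
    have h' : ‖(y : ℂ) - ((e1 (l : L) : ℝ) : ℂ)‖ ≤ k := h
    rw [← Complex.ofReal_sub, Complex.norm_real, Real.norm_eq_abs] at h'
    exact h'


end Pool.Agent.LT
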