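import Mathlib
import Pool.Agent.Lib.MP_f58a57_nt.LT.V.V0
import Pool.Agent.Lib.MP_f58a57_nt.LT.V.V2

/-!
# MP_f58a57_nt, large transcendence degree, version 2: the fields `K`, `M = K K̄`, `L = M ∩ ℝ`
-/

open Complex Module Submodule

noncomputable section

namespace Pool.Agent.LT.VA

/-- row Fa. `M` is stable under complex conjugation and nonreal, `L` is its real subfield: `M = L ⊕ L w` with `w` purely imaginary.
Proof: `x ∈ M` nonreal, `w := x - conj x ∈ M`, `w ≠ 0`, `w.re = 0`. For `u ∈ M`: `a := (u + conj u)/2`, `b := (u - conj u)/(2 w)` are real and in `M`. -/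
theorem exists_w (M L : Subfield ℂ) (hc : ∀ x ∈ M, (starRingEnd ℂ) x ∈ M) (hL : ∀ x : ℂ, x ∈ L ↔ x ∈ M ∧ x.im = 0)
    (hnr : ∃ x ∈ M, x.im ≠ 0) : ∃ w ∈ M, w.re = 0 ∧ w ≠ 0 ∧ w ^ 2 ∈ L ∧ ∀ u ∈ M, ∃ a ∈ L, ∃ b ∈ L, u = a + b * w := by
  obtain ⟨x, hx, hxi⟩ := hnr
  have hw : x - (starRingEnd ℂ) x ∈ M := M.sub_mem hx (hc x hx)
  have hre : (x - (starRingEnd ℂ) x).re = 0 := by simp
  have him : (x - (starRingEnd ℂ) x).im = 2 * x.im := by simp; ring
  have him0 : (x - (starRingEnd ℂ) x).im ≠ 0 := by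
    rw [him]; exact mul_ne_zero two_ne_zero hxi
  generalize hw2 : x - (starRingEnd ℂ) x = w at hw hre him him0
  have hw0 : w ≠ 0 := by
    rintro rfl
    exact him0 rfl
  have h2 : (2 : ℂ) ∈ M := by
    have h1 : (1 : ℂ) ∈ M := M.one_mem
    have h3 := M.add_mem h1 h1
    rwa [one_add_one_eq_two] at h3
  refine ⟨w, hw, hre, hw0, ?_, ?_⟩
  · rw [hL]
    refine ⟨M.pow_mem hw 2, ?_⟩
    rw [pow_two, Complex.mul_im, hre]
    ring
  · intro u hu
    refine ⟨(u + (starRingEnd ℂ) u) / 2, ?_, (u - (starRingEnd ℂ) u) / 2 / w, ?_, ?_⟩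
    · rw [hL]
      refine ⟨M.div_mem (M.add_mem hu (hc u hu)) h2, ?_⟩
      have h3 : (u + (starRingEnd ℂ) u) / 2 = ((u.re : ℝ) : ℂ) := by
        apply Complex.ext
        · simp
        · simp
      rw [h3]
      exact Complex.ofReal_im _
    · rw [hL]
      refine ⟨M.div_mem (M.div_mem (M.sub_mem hu (hc u hu)) h2) hw, ?_⟩
      have h3 : (u - (starRingEnd ℂ) u) / 2 / w = (((u.im / w.im : ℝ)) : ℂ) := by
        rw [div_eq_iff hw0]
        apply Complex.ext
        · rw [Complex.mul_re, hre]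
          simp
        · rw [Complex.mul_im, hre, Complex.ofReal_re, Complex.ofReal_im, div_mul_cancel₀ _ him0]
          simp
      rw [h3]
      exact Complex.ofReal_im _
    · rw [div_mul_cancel₀ _ hw0]
      ring

/-- row Fa. Proof: with `w` of `exists_w` the map `L × L → M`, `(a, b) ↦ a + b w` is a bijective `ℚ`-linear map (injective: compare real and
imaginary parts); `finrank_prod`. -/
theorem finrank_real (M L : Subfield ℂ) (hc : ∀ x ∈ M, (starRingEnd ℂ) x ∈ M) (hL : ∀ x : ℂ, x ∈ L ↔ x ∈ M ∧ x.im = 0)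
    (hnr : ∃ x ∈ M, x.im ≠ 0) (hfin : FiniteDimensional ℚ M) : finrank ℚ M = 2 * finrank ℚ L := by
  obtain ⟨w, hwM, hwre, hw0, -, hw⟩ := exists_w M L hc hL hnr
  have hLM : L ≤ M := fun x hx => ((hL x).1 hx).1
  have hwim : w.im ≠ 0 := by
    intro h
    exact hw0 (Complex.ext hwre h)
  let ψ : L × L →+ M :=
    { toFun := fun q => ⟨(q.1 : ℂ) + (q.2 : ℂ) * w, M.add_mem (hLM q.1.2) (M.mul_mem (hLM q.2.2) hwM)⟩
      map_zero' := by
        apply Subtype.ext
        simp
      map_add' := by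
        intro q r
        apply Subtype.ext
        simp
        ring }
  let φ : L × L →ₗ[ℚ] M := ψ.toRatLinearMap
  have hφ : ∀ q : L × L, ((φ q : M) : ℂ) = (q.1 : ℂ) + (q.2 : ℂ) * w := fun q => rfl
  have hinj : Function.Injective φ := by
    intro q r hqr
    have h1 : (q.1 : ℂ) + (q.2 : ℂ) * w = (r.1 : ℂ) + (r.2 : ℂ) * w := by
      rw [← hφ q, ← hφ r, hqr]
    have hq1 := ((hL _).1 q.1.2).2
    have hq2 := ((hL _).1 q.2.2).2
    have hr1 := ((hL _).1 r.1.2).2
    have hr2 := ((hL _).1 r.2.2).2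
    have hre := congrArg Complex.re h1
    have him := congrArg Complex.im h1
    rw [Complex.add_re, Complex.add_re, Complex.mul_re, Complex.mul_re, hwre, hq2, hr2] at hre
    rw [Complex.add_im, Complex.add_im, Complex.mul_im, Complex.mul_im, hwre, hq1, hr1, hq2, hr2] at him
    simp only [mul_zero, zero_mul, sub_zero, add_zero, zero_add] at hre him
    have him2 := mul_right_cancel₀ hwim him
    apply Prod.ext
    · apply Subtype.ext
      exact Complex.ext hre (hq1.trans hr1.symm)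
    · apply Subtype.ext
      exact Complex.ext him2 (hq2.trans hr2.symm)
  have hsurj : Function.Surjective φ := by
    intro u
    obtain ⟨a, ha, b, hb, hab⟩ := hw u u.2
    refine ⟨(⟨a, ha⟩, ⟨b, hb⟩), ?_⟩
    apply Subtype.ext
    rw [hφ]
    exact hab.symm
  have : FiniteDimensional ℚ L := by
    have hi : Function.Injective ((Subfield.inclusion hLM).toAddMonoidHom.toRatLinearMap) := by
      intro a b hab
      exact (Subfield.inclusion hLM).injective hab
    exact FiniteDimensional.of_injective _ hi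
  have h1 := LinearEquiv.finrank_eq (LinearEquiv.ofBijective φ ⟨hinj, hsurj⟩)
  rw [Module.finrank_prod] at h1
  rw [← h1]
  ring

/-- row Fb. The imaginary parts of the elements of `M`. Proof: `W := range` of the `ℚ`-linear map `Im : M → ℝ`; its kernel is `L` (as a subspace of `M`,
isomorphic to `L`), so `finrank W = finrank M - finrank L = finrank L`. -/
theorem exists_W (M L : Subfield ℂ) (hc : ∀ x ∈ M, (starRingEnd ℂ) x ∈ M) (hL : ∀ x : ℂ, x ∈ L ↔ x ∈ M ∧ x.im = 0)
    (hnr : ∃ x ∈ M, x.im ≠ 0) (hfin : FiniteDimensional ℚ M) :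
    ∃ W : Submodule ℚ ℝ, finrank ℚ W = finrank ℚ L ∧ FiniteDimensional ℚ W ∧ ∀ x : ℂ, x ∈ M → x.im ∈ W := by
  have := hfin
  let φ : M →ₗ[ℚ] ℝ :=
    { toFun := fun x => (x : ℂ).im
      map_add' := fun x y => by
        change ((x : ℂ) + (y : ℂ)).im = _
        exact Complex.add_im _ _
      map_smul' := fun q x => by
        have h1 : ((q • x : M) : ℂ) = (q : ℂ) * (x : ℂ) := by
          rw [Rat.smul_def]
          push_cast
          rfl
        have h2 : ((q : ℂ) * (x : ℂ)).im = (q : ℝ) * (x : ℂ).im := by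
          have h3 : (q : ℂ) = ((q : ℝ) : ℂ) := by push_cast; rfl
          rw [h3, Complex.im_ofReal_mul]
        change ((q • x : M) : ℂ).im = _
        rw [h1, h2, RingHom.id_apply, Rat.smul_def] }
  have hφ : ∀ x : M, φ x = (x : ℂ).im := fun _ => rfl
  have hker : finrank ℚ (LinearMap.ker φ) = finrank ℚ L := by
    let e : LinearMap.ker φ ≃ₗ[ℚ] L :=
      { toFun := fun x => ⟨((x : M) : ℂ), (hL _).2 ⟨(x : M).2, x.2⟩⟩
        map_add' := fun x y => rfl
        map_smul' := fun q x => by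
          apply Subtype.ext
          change (((q • (x : M)) : M) : ℂ) = _
          rw [RingHom.id_apply, Rat.smul_def, Rat.smul_def]
          push_cast
          rfl
        invFun := fun y => ⟨⟨(y : ℂ), ((hL _).1 y.2).1⟩, ((hL _).1 y.2).2⟩
        left_inv := fun x => rfl
        right_inv := fun y => rfl }
    exact e.finrank_eq
  have hrk := LinearMap.finrank_range_add_finrank_ker φ
  rw [hker, finrank_real M L hc hL hnr hfin] at hrk
  refine ⟨LinearMap.range φ, by omega, inferInstance, fun x hx => ⟨⟨x, hx⟩, rfl⟩⟩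

/-- row Fc. Two embeddings of `M` which agree on `L` are equal or differ by the complex conjugation of `M`. Proof: `w` of `exists_w`: `(g w)² = g (w²) = h (w²) = (h w)²`,
so `g w = ± h w`, and `u = a + b w`, `conj u = a - b w` (`a`, `b` real, `w` purely imaginary). -/
theorem ext_L (M L : Subfield ℂ) (hc : ∀ x ∈ M, (starRingEnd ℂ) x ∈ M) (hL : ∀ x : ℂ, x ∈ L ↔ x ∈ M ∧ x.im = 0)
    (hnr : ∃ x ∈ M, x.im ≠ 0) (g h : M →+* ℂ) (hgh : ∀ x : M, (x : ℂ) ∈ L → g x = h x) :
    (∀ x : M, g x = h x) ∨ (∀ x : M, g x = h ⟨(starRingEnd ℂ) x, hc x x.2⟩) := by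
  obtain ⟨w, hwM, hwre, hw0, hw2, hdec⟩ := exists_w M L hc hL hnr
  have hLM : ∀ x : ℂ, x ∈ L → x ∈ M := fun x hx => ((hL x).1 hx).1
  have hLr : ∀ x : ℂ, x ∈ L → (starRingEnd ℂ) x = x := fun x hx =>
    Complex.conj_eq_iff_im.2 ((hL x).1 hx).2
  have hwc : (starRingEnd ℂ) w = -w := by
    apply Complex.ext
    · simp [hwre]
    · simp
  have hsq : g ⟨w, hwM⟩ ^ 2 = h ⟨w, hwM⟩ ^ 2 := by
    rw [← map_pow, ← map_pow]
    apply hgh
    exact hw2
  have key : ∀ x : M, ∃ a b : M, (a : ℂ) ∈ L ∧ (b : ℂ) ∈ L ∧ x = a + b * ⟨w, hwM⟩ := by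
    intro x
    obtain ⟨a, ha, b, hb, hx⟩ := hdec x x.2
    exact ⟨⟨a, hLM a ha⟩, ⟨b, hLM b hb⟩, ha, hb, Subtype.ext hx⟩
  rcases sq_eq_sq_iff_eq_or_eq_neg.1 hsq with h1 | h1
  · left
    intro x
    obtain ⟨a, b, ha, hb, hx⟩ := key x
    rw [hx, map_add, map_add, map_mul, map_mul, h1, hgh a ha, hgh b hb]
  · right
    intro x
    obtain ⟨a, b, ha, hb, hx⟩ := key x
    have hcx : (⟨(starRingEnd ℂ) x, hc x x.2⟩ : M) = a - b * ⟨w, hwM⟩ := by
      apply Subtype.ext
      change (starRingEnd ℂ) (x : ℂ) = (a : ℂ) - (b : ℂ) * w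
      have hx' : (x : ℂ) = (a : ℂ) + (b : ℂ) * w := congrArg Subtype.val hx
      rw [hx', map_add, map_mul, hLr _ ha, hLr _ hb, hwc]
      ring
    rw [hcx, map_sub, map_mul, ← hgh a ha, ← hgh b hb, hx, map_add, map_mul, h1]
    ring

/-- row Fd. The embeddings of `M` over `K`; the first one is the inclusion. Proof: `K ≤ M` makes `M` a `K`-algebra
(`(Subfield.inclusion hKM).toAlgebra`; `ℂ` is a `K`-algebra by the instance), `IsScalarTower ℚ K M` (`IsScalarTower.rat` or of_algebraMap_eq), `finrank K M = p + 1` by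
`finrank_mul_finrank ℚ K M`. `AlgHom.card K M ℂ` (separable as `CharZero`, `IsAlgClosed ℂ`): `Fintype.card (M →ₐ[K] ℂ) = p + 1`; an equivalence `Fin (p+1) ≃ (M →ₐ[K] ℂ)`
sending `0` to the inclusion (compose with `Equiv.swap`), and `AlgHom.toRingHom`. -/
theorem exists_emb (K M : Subfield ℂ) (hKM : K ≤ M) (p : ℕ) (hK : 0 < finrank ℚ K) (hd : finrank ℚ M = finrank ℚ K * (p + 1)) :
    ∃ e : Fin (p + 1) → (M →+* ℂ), Function.Injective e ∧ (∀ x : M, e 0 x = x) ∧ ∀ j (x : M), (x : ℂ) ∈ K → e j x = x := by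
  let algKM : Algebra K M := (Subfield.inclusion hKM).toAlgebra
  have : IsScalarTower ℚ K M := IsScalarTower.rat
  have hmul : finrank ℚ K * finrank K M = finrank ℚ M := Module.finrank_mul_finrank ℚ K M
  have hfr : finrank K M = p + 1 := by
    rw [hd] at hmul
    exact Nat.eq_of_mul_eq_mul_left hK hmul
  have : FiniteDimensional K M := Module.finite_of_finrank_pos (by rw [hfr]; omega)
  have : Algebra.IsSeparable K M := inferInstance
  have hcard : Fintype.card (M →ₐ[K] ℂ) = p + 1 := by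
    rw [AlgHom.card K M ℂ, hfr]
  let ι : M →ₐ[K] ℂ :=
    { M.subtype with
      commutes' := fun x => rfl }
  let eq : (M →ₐ[K] ℂ) ≃ Fin (p + 1) := Fintype.equivFinOfCardEq hcard
  refine ⟨fun j => ((eq.symm (Equiv.swap 0 (eq ι) j) : M →ₐ[K] ℂ) : M →+* ℂ), ?_, ?_, ?_⟩
  · intro i j hij
    have h1 := AlgHom.coe_ringHom_injective hij
    exact (Equiv.swap 0 (eq ι)).injective (eq.symm.injective h1)
  · intro x
    have h1 : eq.symm (Equiv.swap 0 (eq ι) 0) = ι := by
      rw [Equiv.swap_apply_left, Equiv.symm_apply_apply]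
    simp only [h1]
    rfl
  · intro j x hx
    have h1 := (eq.symm (Equiv.swap 0 (eq ι) j)).commutes ⟨(x : ℂ), hx⟩
    exact h1

/-- row Fe. An embedding of `K K̄` which is the identity on `K` and on `K̄` is the identity. Proof: the `x : M` with `g x = x` are a subfield
(`RingHom.eqLocusField g M.subtype`), its image in `ℂ` (`Subfield.map M.subtype`) contains `K` and `K̄`, so it contains `M = K ⊔ K̄`. -/
theorem id_of (K M : Subfield ℂ) (hM : M = K ⊔ K.map (starRingEnd ℂ)) (g : M →+* ℂ) (h1 : ∀ x : M, (x : ℂ) ∈ K → g x = x)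
    (h2 : ∀ x : M, (starRingEnd ℂ) (x : ℂ) ∈ K → g x = x) (x : M) : g x = x := by
  have key : M ≤ (RingHom.eqLocusField g M.subtype).map M.subtype := by
    conv_lhs => rw [hM]
    rw [sup_le_iff]
    constructor
    · intro y hy
      have hyM : y ∈ M := by rw [hM]; exact (le_sup_left : K ≤ _) hy
      exact ⟨⟨y, hyM⟩, h1 ⟨y, hyM⟩ hy, rfl⟩
    · intro y hy
      have hyM : y ∈ M := by rw [hM]; exact (le_sup_right : K.map (starRingEnd ℂ) ≤ _) hy
      refine ⟨⟨y, hyM⟩, h2 ⟨y, hyM⟩ ?_, rfl⟩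
      obtain ⟨z, hz, rfl⟩ := hy
      show (starRingEnd ℂ) ((starRingEnd ℂ) z) ∈ K
      rw [Complex.conj_conj]
      exact hz
  obtain ⟨y, hy, hyx⟩ := key x.2
  have : y = x := Subtype.ext hyx
  rw [this] at hy
  exact hy

/-- row Fe. `K K̄` is stable under conjugation. Proof: `M.map conj = K.map conj ⊔ (K.map conj).map conj = M` (`Subfield.map_sup`, `Subfield.map_map`). -/
theorem cj_stable (K M : Subfield ℂ) (hM : M = K ⊔ K.map (starRingEnd ℂ)) (x : ℂ) (hx : x ∈ M) : (starRingEnd ℂ) x ∈ M := by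
  have key : M ≤ M.comap (starRingEnd ℂ) := by
    conv_lhs => rw [hM]
    rw [sup_le_iff]
    constructor
    · intro y hy
      show (starRingEnd ℂ) y ∈ M
      rw [hM]
      exact (le_sup_right : K.map (starRingEnd ℂ) ≤ _) ⟨y, hy, rfl⟩
    · rintro y ⟨z, hz, rfl⟩
      show (starRingEnd ℂ) ((starRingEnd ℂ) z) ∈ M
      rw [Complex.conj_conj, hM]
      exact (le_sup_left : K ≤ _) hz
  exact key hx

/-- the field data: `M = K K̄`, `L` its real subfield, `e j` the embeddings of `M` over `K`, `s` the remaining (real) embedding of `L` -/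
structure FD (K : Subfield ℂ) (p : ℕ) where
  M : Subfield ℂ
  L : Subfield ℂ
  LM : L ≤ M
  e : Fin (p + 1) → (M →+* ℂ)
  s : L →+* ℝ

/-- the restriction of `e j` to `L` -/
def FD.f {K : Subfield ℂ} {p : ℕ} (F : FD K p) (j : Fin (p + 1)) : F.L →+* ℂ := (F.e j).comp (Subfield.inclusion F.LM)

/-- the properties of the field data -/
structure FDP {K : Subfield ℂ} {p : ℕ} (F : FD K p) : Prop where
  hKM : K ≤ F.M
  cj : ∀ x ∈ F.M, (starRingEnd ℂ) x ∈ F.M
  hL : ∀ x : ℂ, x ∈ F.L ↔ x ∈ F.M ∧ x.im = 0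
  dM : finrank ℚ F.M = 4 * (p + 1)
  dL : finrank ℚ F.L = 2 * (p + 1)
  hW : ∃ W : Submodule ℚ ℝ, finrank ℚ W = 2 * (p + 1) ∧ FiniteDimensional ℚ W ∧ ∀ x : ℂ, x ∈ F.M → x.im ∈ W
  e0 : ∀ x : F.M, F.e 0 x = x
  eK : ∀ j (x : F.M), (x : ℂ) ∈ K → F.e j x = x
  inj : Function.Injective F.f
  nr : ∀ j, j ≠ 0 → ∃ x : F.L, (F.f j x).im ≠ 0
  cjne : ∀ i j, (i ≠ 0 ∨ j ≠ 0) → (starRingEnd ℂ).comp (F.f i) ≠ F.f j
  sne : ∀ j, Complex.ofRealHom.comp F.s ≠ F.f j
  all : ∀ g : F.L →+* ℂ, (∃ j, g = F.f j) ∨ (∃ j, g = (starRingEnd ℂ).comp (F.f j)) ∨ g = Complex.ofRealHom.comp F.s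

/-- row Ff. (F1) The restrictions to `L`, part 1. Proof: if `e i`, `e j` agree on `L` then by `ext_L` `e i = e j` or `e i x = e j (conj x)`; the latter on `K` (nonreal):
for `x ∈ K` nonreal... `e i x = x` and `e j (conj x) = x` for all `x ∈ K`, so `e j` maps `K̄` to `K`; hmm: `conj x ∈ K̄`, `e j (conj x) = x`: since `e j` is the identity on `K` and injective,
`conj x = x` whenever ... (`e j x = x = e j (conj x)` gives `x = conj x`), contradiction for nonreal `x ∈ K`. -/
theorem F1_inj (K M L : Subfield ℂ) (hKM : K ≤ M) (hK : ∃ x ∈ K, x.im ≠ 0) (hc : ∀ x ∈ M, (starRingEnd ℂ) x ∈ M) (hL : ∀ x : ℂ, x ∈ L ↔ x ∈ M ∧ x.im = 0)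
    (g h : M →+* ℂ) (hg : ∀ x : M, (x : ℂ) ∈ K → g x = x) (hh : ∀ x : M, (x : ℂ) ∈ K → h x = x)
    (hgh : ∀ x : M, (x : ℂ) ∈ L → g x = h x) : g = h := by
  obtain ⟨x0, hx0, hx0i⟩ := hK
  rcases ext_L M L hc hL ⟨x0, hKM hx0, hx0i⟩ g h hgh with H | H
  · exact RingHom.ext H
  · exfalso
    have h1 := ((hh ⟨x0, hKM hx0⟩ hx0).trans (hg ⟨x0, hKM hx0⟩ hx0).symm).trans (H ⟨x0, hKM hx0⟩)
    have h2 := h.injective h1
    have h3 : x0 = (starRingEnd ℂ) x0 := congrArg Subtype.val h2
    exact hx0i (Complex.conj_eq_iff_im.mp h3.symm)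

/-- row Ff. (F1), part 2. If `conj ∘ g` and `h` agree on `L`, `g`, `h` embeddings of `M = K K̄` over `K`, then both are the inclusion. Proof: `ext_L` for `conj ∘ g` and `h`: either
`conj (g x) = h x` for all `x ∈ M`, on nonreal `x ∈ K`: `conj x = x`, false; or `conj (g x) = h (conj x)` for all `x`; for `x ∈ K`: `h (conj x) = conj x`, so `h` is the identity on `K` and `K̄`,
`h = id` by `id_of`, and then `conj (g x) = conj x`. -/
theorem F1_cj (K M L : Subfield ℂ) (hM : M = K ⊔ K.map (starRingEnd ℂ)) (hK : ∃ x ∈ K, x.im ≠ 0) (hL : ∀ x : ℂ, x ∈ L ↔ x ∈ M ∧ x.im = 0)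
    (g h : M →+* ℂ) (hg : ∀ x : M, (x : ℂ) ∈ K → g x = x) (hh : ∀ x : M, (x : ℂ) ∈ K → h x = x)
    (hgh : ∀ x : M, (x : ℂ) ∈ L → (starRingEnd ℂ) (g x) = h x) : (∀ x : M, g x = x) ∧ ∀ x : M, h x = x := by
  obtain ⟨x0, hx0, hx0i⟩ := hK
  have hKM : K ≤ M := by rw [hM]; exact le_sup_left
  have hc : ∀ x ∈ M, (starRingEnd ℂ) x ∈ M := fun x hx => cj_stable K M hM x hx
  rcases ext_L M L hc hL ⟨x0, hKM hx0, hx0i⟩ ((starRingEnd ℂ).comp g) h hgh with H | H
  · exfalso
    have h1 := H ⟨x0, hKM hx0⟩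
    rw [RingHom.comp_apply, hg ⟨x0, hKM hx0⟩ hx0, hh ⟨x0, hKM hx0⟩ hx0] at h1
    exact hx0i (Complex.conj_eq_iff_im.mp h1)
  · have hid : ∀ x : M, h x = x := by
      refine id_of K M hM h hh ?_
      intro y hy
      have h1 := H ⟨(starRingEnd ℂ) y, hc y y.2⟩
      rw [RingHom.comp_apply, hg ⟨(starRingEnd ℂ) y, hc y y.2⟩ hy] at h1
      have h2 : (⟨(starRingEnd ℂ) ((starRingEnd ℂ) (y : ℂ)), hc _ (hc y y.2)⟩ : M) = y :=
        Subtype.ext (Complex.conj_conj _)
      have h3 : (starRingEnd ℂ) ((starRingEnd ℂ) (y : ℂ)) = h y := h1.trans (congrArg h h2)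
      rw [Complex.conj_conj] at h3
      exact h3.symm
    refine ⟨?_, hid⟩
    intro x
    have h1 := H x
    rw [RingHom.comp_apply, hid] at h1
    exact (starRingEnd ℂ).injective h1

/-- row Fg. Counting: the last embedding. `L` has `2 (p + 1)` embeddings, `f j` (`j ≤ p`) and their conjugates are `2 p + 1` of them, the remaining one is real.
Proof: `NumberField.Embeddings.card` (or `AlgHom.card ℚ L ℂ` with `RingHom.equivRatAlgHom`): `Fintype.card (L →+* ℂ) = 2 (p+1)`. `T := image f univ ∪ image (conj ∘ f) univ`: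
the intersection of the two images is `{f 0}` (`h0`, `hcj`), so `card T = 2 p + 1` (`Finset.card_union_add_card_inter`). So the complement of `T` has exactly one element `g`
(`Finset.card_eq_one`), `conj ∘ g` is in the complement as well, so `conj ∘ g = g`, `g x` is real for all `x`, `s x := (g x).re` (a ring homomorphism). -/
theorem exists_s (L : Subfield ℂ) (p : ℕ) (hfin : FiniteDimensional ℚ L) (hd : finrank ℚ L = 2 * (p + 1)) (f : Fin (p + 1) → (L →+* ℂ)) (hinj : Function.Injective f)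
    (h0 : (starRingEnd ℂ).comp (f 0) = f 0) (hcj : ∀ i j, (i ≠ 0 ∨ j ≠ 0) → (starRingEnd ℂ).comp (f i) ≠ f j) :
    ∃ s : L →+* ℝ, (∀ j, Complex.ofRealHom.comp s ≠ f j) ∧
      ∀ g : L →+* ℂ, (∃ j, g = f j) ∨ (∃ j, g = (starRingEnd ℂ).comp (f j)) ∨ g = Complex.ofRealHom.comp s := by
  classical
  haveI : NumberField L := { to_charZero := inferInstance, to_finiteDimensional := hfin }
  have hcard : Fintype.card (L →+* ℂ) = 2 * (p + 1) := by
    rw [NumberField.Embeddings.card L ℂ, hd]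
  have hcc : ∀ g : L →+* ℂ, (starRingEnd ℂ).comp ((starRingEnd ℂ).comp g) = g := by
    intro g
    ext x
    simp
  set A : Finset (L →+* ℂ) := Finset.univ.image f with hA
  set B : Finset (L →+* ℂ) := Finset.univ.image (fun j => (starRingEnd ℂ).comp (f j)) with hB
  have hAc : A.card = p + 1 := by
    rw [hA, Finset.card_image_of_injective _ hinj, Finset.card_univ, Fintype.card_fin]
  have hBinj : Function.Injective (fun j => (starRingEnd ℂ).comp (f j)) := by
    intro i j hij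
    apply hinj
    have := congrArg (fun g => (starRingEnd ℂ).comp g) hij
    simp only [hcc] at this
    exact this
  have hBc : B.card = p + 1 := by
    rw [hB, Finset.card_image_of_injective _ hBinj, Finset.card_univ, Fintype.card_fin]
  have hAB : A ∩ B = {f 0} := by
    ext g
    simp only [Finset.mem_inter, Finset.mem_singleton, hA, hB, Finset.mem_image, Finset.mem_univ, true_and]
    constructor
    · rintro ⟨⟨i, rfl⟩, j, hj⟩
      by_cases h : j ≠ 0 ∨ i ≠ 0
      · exact absurd hj (hcj j i h)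
      · push Not at h
        rw [h.2]
    · rintro rfl
      exact ⟨⟨0, rfl⟩, 0, h0⟩
  have hU := Finset.card_union_add_card_inter A B
  rw [hAB, Finset.card_singleton, hAc, hBc] at hU
  have hT : (A ∪ B)ᶜ.card = 1 := by
    rw [Finset.card_compl, hcard]
    omega
  obtain ⟨g, hg⟩ := Finset.card_eq_one.1 hT
  have hmem : ∀ h : L →+* ℂ, h ∉ A ∪ B ↔ h = g := by
    intro h
    rw [← Finset.mem_compl, hg, Finset.mem_singleton]
  have hgn : g ∉ A ∪ B := (hmem g).2 rfl
  have hgA : ∀ j, g ≠ f j := by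
    intro j hj
    apply hgn
    rw [Finset.mem_union]
    left
    rw [hA, Finset.mem_image]
    exact ⟨j, Finset.mem_univ _, hj.symm⟩
  have hgB : ∀ j, g ≠ (starRingEnd ℂ).comp (f j) := by
    intro j hj
    apply hgn
    rw [Finset.mem_union]
    right
    rw [hB, Finset.mem_image]
    exact ⟨j, Finset.mem_univ _, hj.symm⟩
  have hgc : (starRingEnd ℂ).comp g = g := by
    rw [← hmem]
    intro h
    rw [Finset.mem_union] at h
    rcases h with h | h
    · rw [hA, Finset.mem_image] at h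
      obtain ⟨j, -, hj⟩ := h
      apply hgB j
      rw [hj, hcc]
    · rw [hB, Finset.mem_image] at h
      obtain ⟨j, -, hj⟩ := h
      apply hgA j
      have := congrArg (fun g => (starRingEnd ℂ).comp g) hj
      simp only [hcc] at this
      exact this.symm
  have hre : ∀ x, ((g x).re : ℂ) = g x := by
    intro x
    have := congrArg (fun k : L →+* ℂ => k x) hgc
    exact Complex.conj_eq_iff_re.1 this
  let s : L →+* ℝ :=
    { toFun := fun x => (g x).re
      map_one' := by simp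
      map_zero' := by simp
      map_add' := by intro x y; simp
      map_mul' := by
        intro x y
        have : ((g (x * y)).re : ℂ) = (((g x).re * (g y).re : ℝ) : ℂ) := by
          rw [hre, Complex.ofReal_mul, hre, hre, map_mul]
        exact_mod_cast this }
  have hs : Complex.ofRealHom.comp s = g := by
    ext x
    exact hre x
  refine ⟨s, fun j => ?_, fun h => ?_⟩
  · rw [hs]
    exact hgA j
  · rw [hs]
    by_cases hh : h ∈ A ∪ B
    · rw [Finset.mem_union] at hh
      rcases hh with hh | hh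
      · rw [hA, Finset.mem_image] at hh
        obtain ⟨j, -, hj⟩ := hh
        exact Or.inl ⟨j, hj.symm⟩
      · rw [hB, Finset.mem_image] at hh
        obtain ⟨j, -, hj⟩ := hh
        exact Or.inr (Or.inl ⟨j, hj.symm⟩)
    · exact Or.inr (Or.inr ((hmem h).1 hh))

/-- the real subfield of a subfield of `ℂ` -/
def realSub (M : Subfield ℂ) : Subfield ℂ := M ⊓ Complex.ofRealHom.fieldRange

theorem mem_realSub (M : Subfield ℂ) (x : ℂ) : x ∈ realSub M ↔ x ∈ M ∧ x.im = 0 := by
  rw [realSub, Subfield.mem_inf]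
  constructor
  · rintro ⟨h1, y, rfl⟩
    exact ⟨h1, Complex.ofReal_im y⟩
  · rintro ⟨h1, h2⟩
    exact ⟨h1, x.re, Complex.ext rfl h2.symm⟩

/-- row Fh. The field data exist. Proof: `M := K ⊔ K.map conj`, `L := realSub M`, `e` from `exists_emb` (`hK.dim`, `hK.rel`), `FD` with `s` from `exists_s` for `f j := (e j).comp (inclusion)`;
`inj` from `F1_inj` and injectivity of `e`, `cjne` from `F1_cj` (it gives `e i = e 0`, `e j = e 0`), `nr`: if `f j` is real-valued then `conj ∘ f j = f j`, excluded by `cjne` for `j ≠ 0`;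
`dL` from `finrank_real`, `hW` from `exists_W`. -/
theorem exists_FD (K : Subfield ℂ) (p : ℕ) (hK : QG K p) : ∃ F : FD K p, FDP F := by
  obtain ⟨M, hM⟩ : ∃ M : Subfield ℂ, M = K ⊔ K.map (starRingEnd ℂ) := ⟨_, rfl⟩
  have hKM : K ≤ M := by rw [hM]; exact le_sup_left
  have hcj : ∀ x ∈ M, (starRingEnd ℂ) x ∈ M := fun x hx => cj_stable K M hM x hx
  have hL := mem_realSub M
  have hLM : realSub M ≤ M := inf_le_left
  have hdM : finrank ℚ M = 4 * (p + 1) := by rw [hM]; exact hK.rel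
  have hnrM : ∃ x ∈ M, x.im ≠ 0 := by
    obtain ⟨x, hx, hx2⟩ := hK.nr
    exact ⟨x, hKM hx, hx2⟩
  have hfinM : FiniteDimensional ℚ M := FiniteDimensional.of_finrank_pos (by rw [hdM]; positivity)
  have hdL : finrank ℚ (realSub M) = 2 * (p + 1) := by
    have h1 := finrank_real M (realSub M) hcj hL hnrM hfinM
    rw [hdM] at h1
    omega
  have hfinL : FiniteDimensional ℚ (realSub M) := FiniteDimensional.of_finrank_pos (by rw [hdL]; positivity)
  obtain ⟨e, einj, e0, eK⟩ := exists_emb K M hKM p (by rw [hK.dim]; norm_num) (by rw [hdM, hK.dim])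
  obtain ⟨W, hW1, hW2, hW3⟩ := exists_W M (realSub M) hcj hL hnrM hfinM
  have key : ∀ (j : Fin (p + 1)) (x : M) (hx : (x : ℂ) ∈ realSub M),
      ((e j).comp (Subfield.inclusion hLM)) ⟨(x : ℂ), hx⟩ = e j x := by
    intro j x hx
    rfl
  have hinj : Function.Injective (fun j : Fin (p + 1) => (e j).comp (Subfield.inclusion hLM)) := by
    intro i j hij
    apply einj
    refine F1_inj K M (realSub M) hKM hK.nr hcj hL (e i) (e j) (eK i) (eK j) ?_
    intro x hx
    have h1 := congrArg (fun g : (realSub M) →+* ℂ => g ⟨(x : ℂ), hx⟩) hij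
    exact h1
  have h0 : (starRingEnd ℂ).comp ((e 0).comp (Subfield.inclusion hLM)) = (e 0).comp (Subfield.inclusion hLM) := by
    ext x
    have h1 : ((e 0).comp (Subfield.inclusion hLM)) x = (x : ℂ) := e0 _
    rw [RingHom.comp_apply, h1]
    exact Complex.conj_eq_iff_im.2 ((hL x).1 x.2).2
  have hcjne : ∀ i j : Fin (p + 1), (i ≠ 0 ∨ j ≠ 0) →
      (starRingEnd ℂ).comp ((e i).comp (Subfield.inclusion hLM)) ≠ (e j).comp (Subfield.inclusion hLM) := by
    intro i j hij heq
    have h1 := F1_cj K M (realSub M) hM hK.nr hL (e i) (e j) (eK i) (eK j) (by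
      intro x hx
      have h2 := congrArg (fun g : (realSub M) →+* ℂ => g ⟨(x : ℂ), hx⟩) heq
      exact h2)
    have h3 : e i = e 0 := RingHom.ext (fun x => by rw [h1.1 x, e0 x])
    have h4 : e j = e 0 := RingHom.ext (fun x => by rw [h1.2 x, e0 x])
    rcases hij with h | h
    · exact h (einj h3)
    · exact h (einj h4)
  obtain ⟨s, hs1, hs2⟩ := exists_s (realSub M) p hfinL hdL (fun j => (e j).comp (Subfield.inclusion hLM)) hinj h0 hcjne
  refine ⟨⟨M, realSub M, hLM, e, s⟩, ?_⟩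
  refine
    { hKM := hKM
      cj := hcj
      hL := hL
      dM := hdM
      dL := hdL
      hW := ⟨W, by rw [hW1, hdL], hW2, hW3⟩
      e0 := e0
      eK := eK
      inj := hinj
      nr := ?_
      cjne := hcjne
      sne := hs1
      all := hs2 }
  intro j hj
  by_contra hne
  push Not at hne
  refine hcjne j j (Or.inl hj) ?_
  ext x
  exact Complex.conj_eq_iff_im.2 (hne x)

variable {K : Subfield ℂ} {p : ℕ}

/-- row Fi. Every `ℚ`-linear map `L → ℂ` is a combination of the embeddings. Proof: the embeddings `L →+* ℂ` (as a family indexed by the finite type `L →+* ℂ`) are linearly independent over `ℂ` as maps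
`L → ℂ` (`linearIndependent_monoidHom`), so also as elements of `L →ₗ[ℚ] ℂ` (`RingHom.toRatAlgHom`/`AlgHom.toLinearMap`, `LinearIndependent.of_comp` with the forgetful `ℂ`-linear map), there are
`2 (p+1) = finrank ℚ L = finrank ℂ (L →ₗ[ℚ] ℂ)` (`Module.finrank_linearMap_self`) of them, so they span (`LinearIndependent.span_eq_top_of_card_eq_finrank'`); use `all`. (Coefficients: sum over all
embeddings; rewrite the sum of `c_g g x` by induction over the finset/span: the set of maps of the required form is a submodule containing each embedding.) -/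
theorem span_emb (F : FD K p) (hF : FDP F) (u : F.L →ₗ[ℚ] ℂ) : ∃ (a b : Fin (p + 1) → ℂ) (c : ℂ), ∀ x : F.L,
    u x = ∑ j, a j * F.f j x + ∑ j, b j * (starRingEnd ℂ) (F.f j x) + c * (F.s x : ℂ) := by
  have hpos : 0 < finrank ℚ F.L := by rw [hF.dL]; positivity
  have hfd : FiniteDimensional ℚ F.L := Module.finite_of_finrank_pos hpos
  have hnf : NumberField F.L := { to_charZero := inferInstance, to_finiteDimensional := hfd }
  have hli : LinearIndependent ℂ (fun g : F.L →+* ℂ => (g.toRatAlgHom.toLinearMap : F.L →ₗ[ℚ] ℂ)) := by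
    rw [Fintype.linearIndependent_iff]
    intro c hc g
    have h1 := (linearIndependent_monoidHom F.L ℂ).comp (fun g : F.L →+* ℂ => (g : F.L →* ℂ))
      (fun g h hgh => RingHom.ext fun x => by
        have := DFunLike.congr_fun hgh x
        simpa using this)
    rw [Fintype.linearIndependent_iff] at h1
    refine h1 c ?_ g
    funext x
    have h2 := congrArg (fun v : F.L →ₗ[ℚ] ℂ => v x) hc
    simpa [Finset.sum_apply, LinearMap.sum_apply] using h2
  have hspan := hli.span_eq_top_of_card_eq_finrank' (by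
    rw [Module.finrank_linearMap_self, NumberField.Embeddings.card])
  have hu : u ∈ Submodule.span ℂ (Set.range (fun g : F.L →+* ℂ => (g.toRatAlgHom.toLinearMap : F.L →ₗ[ℚ] ℂ))) := by
    rw [hspan]; exact Submodule.mem_top
  induction hu using Submodule.span_induction with
  | mem v hv =>
    obtain ⟨g, rfl⟩ := hv
    rcases hF.all g with ⟨j, rfl⟩ | ⟨j, rfl⟩ | rfl
    · refine ⟨Pi.single j 1, 0, 0, fun x => ?_⟩
      simp [Pi.single_apply]
    · refine ⟨0, Pi.single j 1, 0, fun x => ?_⟩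
      simp [Pi.single_apply]
    · refine ⟨0, 0, 1, fun x => ?_⟩
      simp
  | zero => exact ⟨0, 0, 0, fun x => by simp⟩
  | add v w _ _ hv hw =>
    obtain ⟨a, b, c, h1⟩ := hv
    obtain ⟨a', b', c', h2⟩ := hw
    refine ⟨a + a', b + b', c + c', fun x => ?_⟩
    rw [LinearMap.add_apply, h1, h2]
    simp only [Pi.add_apply, add_mul, Finset.sum_add_distrib]
    ring
  | smul t v _ hv =>
    obtain ⟨a, b, c, h1⟩ := hv
    refine ⟨t • a, t • b, t * c, fun x => ?_⟩
    rw [LinearMap.smul_apply, h1]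
    simp only [Pi.smul_apply, smul_eq_mul, mul_add, Finset.mul_sum, mul_assoc]

/-- row Fi. The real version. Proof: `span_emb` for `x ↦ (φ x : ℂ)`, take real parts: `Re (b conj y) = Re (conj b y)`; `c := Re c`, `a j := a j + conj (b j)`. -/
theorem span_emb_real (F : FD K p) (hF : FDP F) (φ : F.L →ₗ[ℚ] ℝ) : ∃ (c : ℝ) (a : Fin (p + 1) → ℂ), ∀ x : F.L,
    φ x = c * F.s x + (∑ j, a j * F.f j x).re := by
  obtain ⟨a, b, c, h⟩ := span_emb F hF ((Complex.ofRealCLM.toLinearMap.restrictScalars ℚ).comp φ)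
  refine ⟨c.re, fun j => a j + (starRingEnd ℂ) (b j), fun x => ?_⟩
  have h1 := congrArg Complex.re (h x)
  have h2 : ∀ j, (b j * (starRingEnd ℂ) (F.f j x)).re = ((starRingEnd ℂ) (b j) * F.f j x).re := fun j => by
    simp only [Complex.mul_re, Complex.conj_re, Complex.conj_im]
    ring
  have h3 : (c * (F.s x : ℂ)).re = c.re * F.s x := by simp
  have h4 : (((Complex.ofRealCLM.toLinearMap.restrictScalars ℚ).comp φ) x : ℂ).re = φ x := by
    simp
  rw [h4, Complex.add_re, Complex.add_re, h3, Complex.re_sum, Complex.re_sum] at h1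
  rw [h1, Complex.re_sum]
  simp only [add_mul, Complex.add_re, Finset.sum_add_distrib]
  rw [Finset.sum_congr rfl (fun j _ => h2 j)]
  ring

/-- row Fi. Dedekind for the `f j`. Proof: `linearIndependent_monoidHom` and `inj`. -/
theorem indep_emb (F : FD K p) (hF : FDP F) (b : Fin (p + 1) → ℂ) (h : ∀ x : F.L, ∑ j, b j * F.f j x = 0) : b = 0 := by
  have h1 := (linearIndependent_monoidHom F.L ℂ).comp (fun j : Fin (p + 1) => (F.f j : F.L →* ℂ))
    (fun i j hij => hF.inj (RingHom.ext fun x => by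
      have := DFunLike.congr_fun hij x
      simpa using this))
  rw [Fintype.linearIndependent_iff] at h1
  funext j
  refine h1 b ?_ j
  funext x
  simpa [Finset.sum_apply] using h x

/-- row Fj, helper: a combination of embeddings different from `s` -/
theorem Fj_sum (F : FD K p) (hF : FDP F) (c : (F.L →ₐ[ℚ] ℂ) → ℂ) (S : Finset (F.L →ₐ[ℚ] ℂ))
    (hS : ∀ σ ∈ S, (σ : F.L →+* ℂ) ≠ Complex.ofRealHom.comp F.s) : ∃ a b : Fin (p + 1) → ℂ, ∀ x : F.L,
    ∑ σ ∈ S, c σ * σ x = ∑ j, a j * F.f j x + ∑ j, b j * (starRingEnd ℂ) (F.f j x) := by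
  classical
  induction S using Finset.induction_on with
  | empty => exact ⟨0, 0, fun x => by simp⟩
  | insert σ S hσ ih =>
    obtain ⟨a, b, hab⟩ := ih (fun τ hτ => hS τ (Finset.mem_insert_of_mem hτ))
    rcases hF.all (σ : F.L →+* ℂ) with ⟨j, hj⟩ | ⟨j, hj⟩ | h
    · refine ⟨a + Pi.single j (c σ), b, fun x => ?_⟩
      have hx : σ x = F.f j x := by
        rw [← hj]; rfl
      rw [Finset.sum_insert hσ, hab x, hx]
      simp only [Pi.add_apply, add_mul, Finset.sum_add_distrib, Pi.single_apply, ite_mul, zero_mul, Finset.sum_ite_eq', Finset.mem_univ, if_true]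
      ring
    · refine ⟨a, b + Pi.single j (c σ), fun x => ?_⟩
      have hx : σ x = (starRingEnd ℂ) (F.f j x) := by
        have : (σ : F.L →+* ℂ) x = ((starRingEnd ℂ).comp (F.f j)) x := by rw [hj]
        exact this
      rw [Finset.sum_insert hσ, hab x, hx]
      simp only [Pi.add_apply, add_mul, Finset.sum_add_distrib, Pi.single_apply, ite_mul, zero_mul, Finset.sum_ite_eq', Finset.mem_univ, if_true]
      ring
    · exact absurd h (hS σ (Finset.mem_insert_self _ _))

/-- row Fj. On a proper `ℚ`-subspace the embedding `s` is a combination of the others. Proof: a proper subspace `X` has `μ ≠ 0` in `L` with `Tr (μ x) = 0` for all `x ∈ X` (the trace form is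
nondegenerate: `traceForm_nondegenerate ℚ L`; a nonzero functional killing `X`, `Submodule.exists_le_ker_of_lt_top`, is `x ↦ Tr (μ x)`: `LinearMap.BilinForm.toDual` / `BilinForm.dualBasis`), and
`trace_eq_sum_embeddings ℂ`: `0 = ∑_g g μ * g x` over all embeddings `g : L →ₐ[ℚ] ℂ`; the term of `s` has the nonzero coefficient `s μ` and all other terms are multiples of `f j x` or `conj (f j x)`
(by `all`, and `s ≠ f j`, `s ≠ conj f j` so that `s` occurs only once). -/
theorem s_of_proper (F : FD K p) (hF : FDP F) (X : Submodule ℚ F.L) (hX : X ≠ ⊤) : ∃ a b : Fin (p + 1) → ℂ, ∀ x ∈ X,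
    (F.s x : ℂ) = ∑ j, a j * F.f j x + ∑ j, b j * (starRingEnd ℂ) (F.f j x) := by
  classical
  have hfd : FiniteDimensional ℚ F.L := by
    apply FiniteDimensional.of_finrank_pos
    rw [hF.dL]; positivity
  obtain ⟨φ, hφ0, hφ⟩ := Submodule.exists_le_ker_of_lt_top X (lt_top_iff_ne_top.2 hX)
  have hnd : (Algebra.traceForm ℚ F.L).Nondegenerate := traceForm_nondegenerate ℚ F.L
  obtain ⟨μ, hμ⟩ : ∃ μ : F.L, ∀ x, φ x = Algebra.trace ℚ F.L (μ * x) := by
    refine ⟨(LinearMap.BilinForm.toDual (Algebra.traceForm ℚ F.L) hnd).symm φ, fun x => ?_⟩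
    have h := (LinearMap.BilinForm.toDual (Algebra.traceForm ℚ F.L) hnd).apply_symm_apply φ
    have h2 := congrArg (fun ψ => ψ x) h
    simp only [LinearMap.BilinForm.toDual_def, Algebra.traceForm_apply] at h2
    exact h2.symm
  have hμ0 : μ ≠ 0 := by
    rintro rfl
    apply hφ0
    ext x
    rw [hμ x]; simp
  obtain ⟨σs, hσs⟩ : ∃ σs : F.L →ₐ[ℚ] ℂ, (σs : F.L →+* ℂ) = Complex.ofRealHom.comp F.s :=
    ⟨RingHom.toRatAlgHom (Complex.ofRealHom.comp F.s), by ext x; rfl⟩
  have hs : ∀ x, σs x = (F.s x : ℂ) := by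
    intro x
    have : (σs : F.L →+* ℂ) x = (Complex.ofRealHom.comp F.s) x := by rw [hσs]
    exact this
  have hsμ : σs μ ≠ 0 := by
    rw [Ne, map_eq_zero]; exact hμ0
  obtain ⟨a, b, hab⟩ := Fj_sum F hF (fun σ => -(σs μ)⁻¹ * σ μ) (Finset.univ.erase σs) (by
    intro σ hσ h
    apply (Finset.mem_erase.1 hσ).1
    rw [← hσs] at h
    exact AlgHom.coe_ringHom_injective h)
  refine ⟨a, b, fun x hx => ?_⟩
  rw [← hab x]
  have h0 : ∑ σ : F.L →ₐ[ℚ] ℂ, σ μ * σ x = 0 := by
    have h1 := trace_eq_sum_embeddings (K := ℚ) (L := F.L) ℂ (x := μ * x)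
    rw [← hμ x, LinearMap.mem_ker.1 (hφ hx), map_zero] at h1
    rw [h1]
    apply Finset.sum_congr rfl
    intro σ _
    rw [map_mul]
  rw [← Finset.add_sum_erase _ _ (Finset.mem_univ σs)] at h0
  have h2 : ∑ σ ∈ Finset.univ.erase σs, -(σs μ)⁻¹ * σ μ * σ x = -(σs μ)⁻¹ * ∑ σ ∈ Finset.univ.erase σs, σ μ * σ x := by
    rw [Finset.mul_sum]
    apply Finset.sum_congr rfl
    intro σ _
    ring
  rw [h2, ← hs x]
  have h3 : ∑ σ ∈ Finset.univ.erase σs, σ μ * σ x = -(σs μ * σs x) := by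
    linear_combination h0
  rw [h3]
  field_simp

theorem Fk_nf (F : FD K p) (hF : FDP F) : NumberField F.L where
  to_charZero := inferInstance
  to_finiteDimensional := FiniteDimensional.of_finrank_pos (by rw [hF.dL]; omega)

/-- the real embedding of `L` -/
def Fk_e0 (F : FD K p) (hF : FDP F) : F.L →+* ℝ where
  toFun x := (x : ℂ).re
  map_one' := by simp
  map_mul' x y := by
    have hx := ((hF.hL x).1 x.2).2
    have hy := ((hF.hL y).1 y.2).2
    simp [Complex.mul_re, hx, hy]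
  map_zero' := by simp
  map_add' x y := by simp

theorem Fk_e0_coe (F : FD K p) (hF : FDP F) (x : F.L) : ((Fk_e0 F hF x : ℝ) : ℂ) = (x : ℂ) := by
  have hx := ((hF.hL x).1 x.2).2
  exact Complex.ext rfl (by rw [Complex.ofReal_im]; exact hx.symm)

/-- row Fk. The covering lemma for `L`. Proof: `cov_field F.L p` with `e0 x := (x : ℂ).re` (a ring homomorphism, as `L` is real), `e1 := s`, `es i := f i.succ`; `NumberField F.L` from `dL`
(`finrank > 0`). `l : 𝓞 L`, integral over `ℤ` (`RingOfIntegers.isIntegral_coe`). -/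
theorem cov_L (F : FD K p) (hF : FDP F) : ∃ C : ℝ, 0 < C ∧ ∀ r ρ k : ℝ, 0 < r → 0 < ρ → 0 < k → C ≤ r * ρ ^ (2 * p) * k → ∀ (x : ℝ) (w : Fin p → ℂ) (y : ℝ),
    ∃ l : F.L, IsIntegral ℤ l ∧ |x - (l : ℂ).re| ≤ r ∧ (∀ i : Fin p, ‖w i - F.f i.succ l‖ ≤ ρ) ∧ |y - F.s l| ≤ k := by
  have hnf := Fk_nf F hF
  obtain ⟨C, hC, h⟩ := cov_field F.L p hF.dL (Fk_e0 F hF) F.s (by
      intro he
      apply hF.sne 0
      apply RingHom.ext
      intro x
      rw [← he, RingHom.comp_apply, FD.f, RingHom.comp_apply, hF.e0]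
      exact Fk_e0_coe F hF x) (fun i => F.f i.succ) (fun i j hij => Fin.succ_injective _ (hF.inj hij)) (fun i => hF.nr _ (Fin.succ_ne_zero i))
      (fun i j => hF.cjne _ _ (Or.inl (Fin.succ_ne_zero i)))
  refine ⟨C, hC, fun r ρ k hr hρ hk h1 x w y => ?_⟩
  obtain ⟨l, h2, h3, h4⟩ := h r ρ k hr hρ hk h1 x w y
  exact ⟨l, NumberField.RingOfIntegers.isIntegral_coe l, h2, h3, h4⟩

/-- row Fl. The integers of `L` form a finitely generated group. Proof: `NumberField.RingOfIntegers.basis` (`ℤ`-basis of `𝓞 L`); `b i := (basis i : L)`. -/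
theorem int_gen (F : FD K p) (hF : FDP F) : ∃ (N : ℕ) (b : Fin N → F.L), ∀ l : F.L, IsIntegral ℤ l → ∃ a : Fin N → ℤ, l = ∑ i, (a i : F.L) * b i := by
  have hnf := Fk_nf F hF
  let b := Module.finBasis ℤ (NumberField.RingOfIntegers F.L)
  refine ⟨_, fun i => ((b i : NumberField.RingOfIntegers F.L) : F.L), fun l hl => ?_⟩
  obtain ⟨u, hu⟩ : ∃ u : NumberField.RingOfIntegers F.L, (u : F.L) = l := ⟨⟨l, hl⟩, rfl⟩
  refine ⟨fun i => b.repr u i, ?_⟩
  have h1 := b.sum_repr u
  have h2 := congrArg (fun v : NumberField.RingOfIntegers F.L => (v : F.L)) h1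
  simp only [map_sum, zsmul_eq_mul, map_mul, map_intCast] at h2
  rw [← hu, ← h2]

end Pool.Agent.LT.VA
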