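import Mathlib
import Pool.Agent.Lib.MP_f58a57_nt.LT.V.V3
import Pool.Agent.Lib.MP_f58a57_nt.LT.D5

/-!
# MP_f58a57_nt, large transcendence degree, version 2: linear algebra of the flag with blocks of length `p + 1`
-/

open Complex Matrix Module Submodule

noncomputable section

namespace Pool.Agent.LT.VA

open Pool.Agent.LT.DA

/-! ### Abstract lemmas -/

/-- row Ga. Two complex subspaces `A`, `conj A` of `X →ₗ[ℚ] ℂ` with `2 dim A ≤ dim X` and a nonzero real element in `A` do not span. Proof: real dimensions (`finrank ℝ = 2 finrank ℂ`):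
the real-linear map `A × A → (X →ₗ[ℚ] ℂ)`, `(a, b) ↦ a + conj ∘ b` is surjective (`hspan`), its kernel contains `(g, -g)` and `(I g, I g)`, which are independent over `ℝ`;
`finrank ℂ (X →ₗ[ℚ] ℂ) = finrank ℚ X` (`Module.finrank_linearMap_self`). So `2 h ≤ 4 dim A - 2 ≤ 2 h - 2`. -/
theorem no_conj {X : Type*} [AddCommGroup X] [Module ℚ X] [FiniteDimensional ℚ X] (A : Submodule ℂ (X →ₗ[ℚ] ℂ)) (hA : 2 * finrank ℂ A ≤ finrank ℚ X)
    (g : X →ₗ[ℚ] ℂ) (hgA : g ∈ A) (hg0 : g ≠ 0) (hgr : ∀ x, (g x).im = 0)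
    (hspan : ∀ u : X →ₗ[ℚ] ℂ, ∃ a ∈ A, ∃ b ∈ A, ∀ x, u x = a x + (starRingEnd ℂ) (b x)) : False := by
  classical
  set cj : ℂ →ₗ[ℚ] ℂ := (starRingEnd ℂ).toAddMonoidHom.toRatLinearMap with hcj
  have hcjx : ∀ z : ℂ, cj z = (starRingEnd ℂ) z := fun z => rfl
  have hdim : finrank ℂ (X →ₗ[ℚ] ℂ) = finrank ℚ X := Module.finrank_linearMap_self ℚ ℂ X
  set b := Module.finBasis ℂ A with hb
  set v : Fin (finrank ℂ A) → (X →ₗ[ℚ] ℂ) := fun i => cj.comp (b i : X →ₗ[ℚ] ℂ) with hv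
  set S : Submodule ℂ (X →ₗ[ℚ] ℂ) := Submodule.span ℂ (Set.range v) with hS
  have hScard : finrank ℂ S ≤ finrank ℂ A := by
    have h := finrank_range_le_card (R := ℂ) v
    simpa [Set.finrank, hS] using h
  have hmem : ∀ a ∈ A, cj.comp a ∈ S := by
    intro a ha
    have h1 : (⟨a, ha⟩ : A) = ∑ i, b.repr ⟨a, ha⟩ i • b i := (b.sum_repr ⟨a, ha⟩).symm
    have h2 : a = ∑ i, b.repr ⟨a, ha⟩ i • (b i : X →ₗ[ℚ] ℂ) := by
      have h3 := congrArg A.subtype h1
      rw [map_sum] at h3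
      simpa only [map_smul, Submodule.subtype_apply] using h3
    have h4 : cj.comp a = ∑ i, (starRingEnd ℂ) (b.repr ⟨a, ha⟩ i) • v i := by
      ext x
      have h5 := LinearMap.congr_fun h2 x
      simp only [LinearMap.comp_apply, hcjx]
      rw [h5]
      simp only [LinearMap.sum_apply, LinearMap.smul_apply, smul_eq_mul, map_sum, map_mul, hv,
        LinearMap.comp_apply, hcjx]
    rw [h4]
    exact Submodule.sum_mem _ fun i _ => S.smul_mem _ (Submodule.subset_span ⟨i, rfl⟩)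
  have htop : A ⊔ S = ⊤ := by
    rw [eq_top_iff]
    intro u _
    obtain ⟨a, ha, c, hc, hu⟩ := hspan u
    have h1 : u = a + cj.comp c := by
      ext x
      rw [hu x]
      rfl
    rw [h1]
    exact Submodule.add_mem_sup ha (hmem c hc)
  have hgS : g ∈ S := by
    have h1 : cj.comp g = g := by
      ext x
      simp only [LinearMap.comp_apply, hcjx]
      exact Complex.conj_eq_iff_im.2 (hgr x)
    have h2 := hmem g hgA
    rwa [h1] at h2
  have hinf : 1 ≤ finrank ℂ (A ⊓ S : Submodule ℂ (X →ₗ[ℚ] ℂ)) := by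
    have hne : (A ⊓ S : Submodule ℂ (X →ₗ[ℚ] ℂ)) ≠ ⊥ := by
      intro h
      have h1 : g ∈ (A ⊓ S : Submodule ℂ (X →ₗ[ℚ] ℂ)) := ⟨hgA, hgS⟩
      rw [h, Submodule.mem_bot] at h1
      exact hg0 h1
    exact Submodule.one_le_finrank_iff.2 hne
  have hsum := Submodule.finrank_sup_add_finrank_inf_eq A S
  rw [htop, finrank_top, hdim] at hsum
  omega

/-- the functionals on `X` induced by `RC` through `ψ : Λ → X` -/
def AX {n : ℕ} (RC : Submodule ℂ (Fin n → ℂ)) (Λ : Submodule ℚ (Fin n → ℚ)) {X : Type*} [AddCommGroup X] [Module ℚ X] (ψ : Λ →ₗ[ℚ] X) : Submodule ℂ (X →ₗ[ℚ] ℂ) where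
  carrier := {g | ∃ b ∈ RC, ∀ q : Λ, dq b (q : Fin n → ℚ) = g (ψ q)}
  add_mem' := by
    rintro g g' ⟨b, hb, h⟩ ⟨b', hb', h'⟩
    refine ⟨b + b', RC.add_mem hb hb', fun q => ?_⟩
    have e : dq (b + b') (q : Fin n → ℚ) = dq b q + dq b' q := by
      simp only [dq, Pi.add_apply, add_mul, Finset.sum_add_distrib]
    rw [e, h, h', LinearMap.add_apply]
  zero_mem' := ⟨0, RC.zero_mem, fun q => by simp [dq]⟩
  smul_mem' := by
    rintro a g ⟨b, hb, h⟩
    refine ⟨a • b, RC.smul_mem a hb, fun q => ?_⟩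
    have e : dq (a • b) (q : Fin n → ℚ) = a * dq b q := by
      simp only [dq, Pi.smul_apply, smul_eq_mul, Finset.mul_sum, mul_assoc]
    rw [e, h, LinearMap.smul_apply, smul_eq_mul]

theorem Gb_dq_sum {n : ℕ} {κ : Type*} (s : Finset κ) (g : κ → ℂ) (v : κ → Fin n → ℂ) (q : Fin n → ℚ) :
    dq (∑ k ∈ s, g k • v k) q = ∑ k ∈ s, g k * dq (v k) q := by
  simp only [dq, Finset.sum_apply, Pi.smul_apply, smul_eq_mul, Finset.sum_mul, Finset.mul_sum]
  rw [Finset.sum_comm]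
  refine Finset.sum_congr rfl fun k _ => Finset.sum_congr rfl fun j _ => ?_
  ring

theorem Gb_dq_add {n : ℕ} (v w : Fin n → ℂ) (q : Fin n → ℚ) : dq (v + w) q = dq v q + dq w q := by
  simp only [dq, Pi.add_apply, add_mul, Finset.sum_add_distrib]

/-- row Gb. The dimension of `AX`. Proof: `a := finrank (AX RC Λ ψ)`, a basis `g_1, ..., g_a`, lifts `b_1, ..., b_a ∈ RC` with `b_j · q = g_j (ψ q)` on `Λ`. `Λ' := {q ∈ Λ | ψ q = 0}` (the image of `ker ψ` in `Fin n → ℚ`)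
has dimension `finrank Λ - finrank X > 0`. The `i + a` vectors `x_l`, `b_j` are in `RC ⊓ ann ℂ Λ'` and independent (a relation gives `∑ c_j g_j (ψ q) = 0` on `Λ`, so `∑ c_j g_j = 0` by surjectivity of `ψ`,
`c = 0`). `hG Λ'`: `finrank Λ' + 2 (i + a) + 1 ≤ 2 (c + 1)`, i.e. `2 a ≤ 2 c + 1 - 2 i - finrank Λ + finrank X = finrank X`. -/
theorem finrank_AX {n c i : ℕ} (RC : Submodule ℂ (Fin n → ℂ)) (hRC : finrank ℂ RC = c + 1)
    (hG : ∀ Λ : Submodule ℚ (Fin n → ℚ), Λ ≠ ⊥ → finrank ℚ Λ + 2 * finrank ℂ (RC ⊓ ann ℂ Λ : Submodule ℂ (Fin n → ℂ)) + 1 ≤ 2 * finrank ℂ RC)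
    (Λ : Submodule ℚ (Fin n → ℚ)) (hdim : finrank ℚ Λ + 2 * i = 2 * c + 1) (x : Fin i → Fin n → ℂ) (hx : LinearIndependent ℂ x)
    (hxR : ∀ l, x l ∈ RC ⊓ ann ℂ Λ) {X : Type*} [AddCommGroup X] [Module ℚ X] [FiniteDimensional ℚ X] (ψ : Λ →ₗ[ℚ] X) (hψ : Function.Surjective ψ)
    (hlt : finrank ℚ X < finrank ℚ Λ) : 2 * finrank ℂ (AX RC Λ ψ) ≤ finrank ℚ X := by
  rcases Nat.eq_zero_or_pos (finrank ℂ (AX RC Λ ψ)) with h0 | hpos
  · rw [h0]
    exact Nat.zero_le _
  have : Module.Finite ℂ (AX RC Λ ψ) := Module.finite_of_finrank_pos hpos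
  obtain ⟨a, ha⟩ : ∃ a, a = finrank ℂ (AX RC Λ ψ) := ⟨_, rfl⟩
  have g : Basis (Fin a) ℂ (AX RC Λ ψ) := finBasisOfFinrankEq ℂ _ ha.symm
  have hb : ∀ j, ∃ b ∈ RC, ∀ q : Λ, dq b (q : Fin n → ℚ) = (g j : X →ₗ[ℚ] ℂ) (ψ q) := fun j => (g j).2
  choose b hbR hbq using hb
  -- the kernel
  obtain ⟨Λ', hΛ'⟩ : ∃ Λ' : Submodule ℚ (Fin n → ℚ), Λ' = (LinearMap.ker ψ).map Λ.subtype := ⟨_, rfl⟩
  have hfr : finrank ℚ Λ' + finrank ℚ X = finrank ℚ Λ := by
    have h1 : finrank ℚ Λ' = finrank ℚ (LinearMap.ker ψ) := by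
      rw [hΛ']
      exact (LinearEquiv.finrank_eq (Submodule.equivMapOfInjective Λ.subtype Λ.subtype_injective (LinearMap.ker ψ))).symm
    have h2 := LinearMap.finrank_range_add_finrank_ker ψ
    rw [LinearMap.range_eq_top.2 hψ, finrank_top] at h2
    omega
  have hne : Λ' ≠ ⊥ := by
    intro h
    rw [h, finrank_bot] at hfr
    omega
  have hmem : ∀ q ∈ Λ', ∃ k : Λ, ψ k = 0 ∧ (k : Fin n → ℚ) = q := by
    intro q hq
    rw [hΛ', Submodule.mem_map] at hq
    obtain ⟨k, hk, hkq⟩ := hq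
    exact ⟨k, LinearMap.mem_ker.1 hk, hkq⟩
  have hGL := hG Λ' hne
  rw [hRC] at hGL
  -- the family
  have hxA : ∀ l, x l ∈ RC ⊓ ann ℂ Λ' := by
    intro l
    refine ⟨(hxR l).1, fun q hq => ?_⟩
    obtain ⟨k, _, rfl⟩ := hmem q hq
    exact (hxR l).2 k k.2
  have hbA : ∀ j, b j ∈ RC ⊓ ann ℂ Λ' := by
    intro j
    refine ⟨hbR j, fun q hq => ?_⟩
    obtain ⟨k, hk, rfl⟩ := hmem q hq
    rw [hbq j k, hk, map_zero]
  have hli : LinearIndependent ℂ (Sum.elim x b) := by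
    rw [Fintype.linearIndependent_iff]
    intro gg hgg
    rw [Fintype.sum_sum_type] at hgg
    simp only [Sum.elim_inl, Sum.elim_inr] at hgg
    have h1 : ∀ q : Λ, ∑ j, gg (Sum.inr j) * (g j : X →ₗ[ℚ] ℂ) (ψ q) = 0 := by
      intro q
      have h2 := congrArg (fun v => dq v (q : Fin n → ℚ)) hgg
      simp only [Gb_dq_add, Gb_dq_sum] at h2
      have h3 : ∑ l, gg (Sum.inl l) * dq (x l) (q : Fin n → ℚ) = 0 :=
        Finset.sum_eq_zero fun l _ => by rw [(hxR l).2 q q.2, mul_zero]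
      have h4 : dq (0 : Fin n → ℂ) (q : Fin n → ℚ) = 0 := by simp [dq]
      rw [h3, h4, zero_add] at h2
      rw [← h2]
      exact Finset.sum_congr rfl fun j _ => by rw [hbq j q]
    have h5 : ∑ j, gg (Sum.inr j) • (g j) = 0 := by
      apply Subtype.ext
      apply LinearMap.ext
      intro y
      obtain ⟨q, rfl⟩ := hψ y
      have h6 := h1 q
      rw [Submodule.coe_sum, LinearMap.sum_apply, Submodule.coe_zero, LinearMap.zero_apply, ← h6]
      rfl
    have h6 : ∀ j, gg (Sum.inr j) = 0 := Fintype.linearIndependent_iff.1 g.linearIndependent _ h5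
    have h7 : ∑ l, gg (Sum.inl l) • x l = 0 := by
      have h8 : ∑ j, gg (Sum.inr j) • b j = 0 :=
        Finset.sum_eq_zero fun j _ => by rw [h6 j, zero_smul]
      rw [h8, add_zero] at hgg
      exact hgg
    have h9 := Fintype.linearIndependent_iff.1 hx _ h7
    rintro (l | j)
    · exact h9 l
    · exact h6 j
  have hle : i + a ≤ finrank ℂ (RC ⊓ ann ℂ Λ' : Submodule ℂ (Fin n → ℂ)) := by
    have h1 : Submodule.span ℂ (Set.range (Sum.elim x b)) ≤ RC ⊓ ann ℂ Λ' := by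
      rw [Submodule.span_le]
      rintro _ ⟨s, rfl⟩
      rcases s with l | j
      · exact hxA l
      · exact hbA j
    have h2 := finrank_span_eq_card hli
    have h3 := Submodule.finrank_mono h1
    rw [h2, Fintype.card_sum, Fintype.card_fin, Fintype.card_fin] at h3
    exact h3
  rw [← ha]
  omega

variable {K : Subfield ℂ} {p : ℕ}

private theorem Gc_add_left {L : Type*} [Field L] [CharZero L] {n : ℕ} (x y : Fin n → L) (q : Fin n → ℚ) :
    dq (x + y) q = dq x q + dq y q := by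
  simp only [dq, Pi.add_apply, add_mul, Finset.sum_add_distrib]

private theorem Gc_add_right {L : Type*} [Field L] [CharZero L] {n : ℕ} (x : Fin n → L) (p q : Fin n → ℚ) :
    dq x (p + q) = dq x p + dq x q := by
  simp only [dq, Pi.add_apply, Rat.cast_add, mul_add, Finset.sum_add_distrib]

private theorem Gc_smul_left {L : Type*} [Field L] [CharZero L] {n : ℕ} (r : ℚ) (x : Fin n → L) (q : Fin n → ℚ) :
    dq (r • x) q = (r : L) * dq x q := by
  simp only [dq, Pi.smul_apply, Rat.smul_def]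
  rw [Finset.mul_sum]
  exact Finset.sum_congr rfl fun j _ => by ring

private theorem Gc_smul_right {L : Type*} [Field L] [CharZero L] {n : ℕ} (r : ℚ) (x : Fin n → L) (q : Fin n → ℚ) :
    dq x (r • q) = (r : L) * dq x q := by
  simp only [dq, Pi.smul_apply, smul_eq_mul, Rat.cast_mul]
  rw [Finset.mul_sum]
  exact Finset.sum_congr rfl fun j _ => by ring

/-- row Gc (F2): a new functional, real on `Λ` and not zero on `Λ`. Proof: as `DA.exists_real` (D3): `W` from `hF.hW`, `q t` (`t < λ`) a basis of `Λ`, `Φ : R →ₗ[ℚ] (Fin λ → W)`, `y ↦ (Im (dq y (q t)))_t`.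
`finrank ℚ R = 4 (p+1) finrank R`, so `finrank ℚ (ker Φ) ≥ 4 (p+1) finrank R - 2 (p+1) λ ≥ (p+1)(4 i + 2)`, and `X := R ⊓ ann F.M Λ` has `finrank ℚ X = 4 (p+1) finrank X ≤ 4 (p+1) i`. So there is
`y ∈ ker Φ`, `y ∉ ann`. -/
theorem exists_realG (F : FD K p) (hF : FDP F) {n : ℕ} (R : Submodule F.M (Fin n → F.M)) (Λ : Submodule ℚ (Fin n → ℚ)) (i : ℕ)
    (hdim : 2 * i + finrank ℚ Λ + 1 ≤ 2 * finrank F.M R) (hann : finrank F.M (R ⊓ ann F.M Λ : Submodule F.M (Fin n → F.M)) ≤ i) :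
    ∃ y ∈ R, (∀ q ∈ Λ, ((dq y q : F.M) : ℂ).im = 0) ∧ ∃ q ∈ Λ, dq y q ≠ 0 := by
  classical
  obtain ⟨W, hW, hWf, hKW⟩ := hF.hW
  have hMf : FiniteDimensional ℚ F.M := FiniteDimensional.of_finrank_pos (by rw [hF.dM]; omega)
  have hRf : FiniteDimensional ℚ R := Module.Finite.trans F.M R
  set lam := finrank ℚ Λ with hlam
  let q : Basis (Fin lam) ℚ Λ := Module.finBasis ℚ Λ
  let Φ : R →ₗ[ℚ] (Fin lam → W) :=
    { toFun := fun y t => ⟨((dq (y : Fin n → F.M) (q t : Fin n → ℚ) : F.M) : ℂ).im,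
        hKW _ (SetLike.coe_mem _)⟩
      map_add' := by
        intro y y'
        funext t
        apply Subtype.ext
        show ((dq ((y : Fin n → F.M) + (y' : Fin n → F.M)) (q t : Fin n → ℚ) : F.M) : ℂ).im =
          ((dq (y : Fin n → F.M) (q t : Fin n → ℚ) : F.M) : ℂ).im +
          ((dq (y' : Fin n → F.M) (q t : Fin n → ℚ) : F.M) : ℂ).im
        rw [Gc_add_left]
        simp
      map_smul' := by
        intro r y
        funext t
        apply Subtype.ext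
        show ((dq (r • (y : Fin n → F.M)) (q t : Fin n → ℚ) : F.M) : ℂ).im =
          r • ((dq (y : Fin n → F.M) (q t : Fin n → ℚ) : F.M) : ℂ).im
        rw [Gc_smul_left, Rat.smul_def]
        have : (((r : F.M) : F.M) : ℂ) = ((r : ℝ) : ℂ) := by
          push_cast
          rfl
        rw [Subfield.coe_mul, this, Complex.im_ofReal_mul] }
  have hrn := LinearMap.finrank_range_add_finrank_ker Φ
  have hR4 : 4 * (p + 1) * finrank F.M R = finrank ℚ R := by
    rw [← hF.dM]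
    exact Module.finrank_mul_finrank ℚ F.M R
  have hcod : finrank ℚ (Fin lam → W) = lam * (2 * (p + 1)) := by
    rw [Module.finrank_pi_fintype, hW]
    simp
  have hrange : finrank ℚ (LinearMap.range Φ) ≤ lam * (2 * (p + 1)) := by
    rw [← hcod]
    exact Submodule.finrank_le _
  set X : Submodule F.M (Fin n → F.M) := R ⊓ ann F.M Λ with hX
  have hX4 : 4 * (p + 1) * finrank F.M X = finrank ℚ X := by
    rw [← hF.dM]
    exact Module.finrank_mul_finrank ℚ F.M X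
  have hXf : FiniteDimensional ℚ X := Module.Finite.trans F.M X
  have hex : ∃ y : R, Φ y = 0 ∧ (y : Fin n → F.M) ∉ X := by
    by_contra hno
    push Not at hno
    let g : LinearMap.ker Φ →ₗ[ℚ] X :=
      { toFun := fun y => ⟨((y : R) : Fin n → F.M), hno y y.2⟩
        map_add' := by
          intro y y'
          rfl
        map_smul' := by
          intro r y
          rfl }
    have hg : Function.Injective g := by
      intro y y' hyy
      have h1 : (((y : R) : Fin n → F.M)) = (((y' : R) : Fin n → F.M)) :=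
        congrArg (fun w : X => (w : Fin n → F.M)) hyy
      exact Subtype.ext (Subtype.ext h1)
    have h1 := LinearMap.finrank_le_finrank_of_injective hg
    have h2 : 2 * (p + 1) * (2 * i + lam + 1) ≤ 2 * (p + 1) * (2 * finrank F.M R) :=
      Nat.mul_le_mul_left _ hdim
    have h3 : 4 * (p + 1) * finrank F.M X ≤ 4 * (p + 1) * i := Nat.mul_le_mul_left _ hann
    nlinarith
  obtain ⟨y, hy0, hyX⟩ := hex
  have hreal : ∀ q ∈ Λ, ((dq (y : Fin n → F.M) q : F.M) : ℂ).im = 0 := by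
    let ψ : Λ →ₗ[ℚ] ℝ :=
      { toFun := fun p => ((dq (y : Fin n → F.M) (p : Fin n → ℚ) : F.M) : ℂ).im
        map_add' := by
          intro p p'
          show ((dq (y : Fin n → F.M) ((p : Fin n → ℚ) + (p' : Fin n → ℚ)) : F.M) : ℂ).im = _
          rw [Gc_add_right]
          simp
        map_smul' := by
          intro r p
          show ((dq (y : Fin n → F.M) (r • (p : Fin n → ℚ)) : F.M) : ℂ).im =
            r • ((dq (y : Fin n → F.M) (p : Fin n → ℚ) : F.M) : ℂ).im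
          rw [Gc_smul_right, Rat.smul_def]
          have : (((r : F.M) : F.M) : ℂ) = ((r : ℝ) : ℂ) := by
            push_cast
            rfl
          rw [Subfield.coe_mul, this, Complex.im_ofReal_mul] }
    have hψ : ψ = 0 := by
      refine q.ext fun t => ?_
      have h1 : Φ y t = 0 := by rw [hy0]; rfl
      exact congrArg Subtype.val h1
    intro p hp
    have h2 : ψ ⟨p, hp⟩ = 0 := by rw [hψ]; rfl
    exact h2
  refine ⟨y, y.2, hreal, ?_⟩
  by_contra hno
  push Not at hno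
  exact hyX ⟨y.2, fun q hq => hno q hq⟩

/-- the functional of `y` as a linear map on `Λ` with values in `L` -/
def Gd_psi (F : FD K p) (hF : FDP F) {n : ℕ} (Λ : Submodule ℚ (Fin n → ℚ)) (y : Fin n → F.M) (hre : ∀ q ∈ Λ, ((dq y q : F.M) : ℂ).im = 0) :
    Λ →ₗ[ℚ] F.L where
  toFun q := ⟨((dq y (q : Fin n → ℚ) : F.M) : ℂ), (hF.hL _).2 ⟨(dq y (q : Fin n → ℚ)).2, hre q q.2⟩⟩
  map_add' q q' := by
    apply Subtype.ext
    have h : dq y ((q + q' : Λ) : Fin n → ℚ) = dq y (q : Fin n → ℚ) + dq y (q' : Fin n → ℚ) := by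
      simp only [dq, Submodule.coe_add, Pi.add_apply, Rat.cast_add, mul_add, Finset.sum_add_distrib]
    simp only [h]
    rfl
  map_smul' a q := by
    apply Subtype.ext
    have h : dq y ((a • q : Λ) : Fin n → ℚ) = (a : F.M) * dq y (q : Fin n → ℚ) := by
      simp only [dq, Submodule.coe_smul, Pi.smul_apply, smul_eq_mul, Rat.cast_mul, Finset.mul_sum]
      refine Finset.sum_congr rfl fun j _ => ?_
      ring
    simp only [h, RingHom.id_apply]
    have h2 : ∀ (u : F.L), ((a • u : F.L) : ℂ) = (a : ℂ) * (u : ℂ) := by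
      intro u
      rw [Rat.smul_def]
      push_cast
      rfl
    rw [h2]
    push_cast
    rfl

theorem Gd_psi_coe (F : FD K p) (hF : FDP F) {n : ℕ} (Λ : Submodule ℚ (Fin n → ℚ)) (y : Fin n → F.M) (hre : ∀ q ∈ Λ, ((dq y q : F.M) : ℂ).im = 0)
    (q : Λ) : ((Gd_psi F hF Λ y hre q : F.L) : ℂ) = ((dq y (q : Fin n → ℚ) : F.M) : ℂ) := rfl

/-- the embedding `f j` as a `ℚ`-linear map -/
def Gd_f (F : FD K p) (j : Fin (p + 1)) : F.L →ₗ[ℚ] ℂ where
  toFun l := F.f j l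
  map_add' := map_add (F.f j)
  map_smul' a l := by
    rw [Rat.smul_def, map_mul, map_ratCast, RingHom.id_apply, Rat.smul_def]

theorem Gd_f_apply (F : FD K p) (j : Fin (p + 1)) (l : F.L) : Gd_f F j l = F.f j l := rfl

theorem Gd_f_psi (F : FD K p) (hF : FDP F) {n : ℕ} (Λ : Submodule ℚ (Fin n → ℚ)) (y : Fin n → F.M) (hre : ∀ q ∈ Λ, ((dq y q : F.M) : ℂ).im = 0)
    (j : Fin (p + 1)) (q : Λ) : F.f j (Gd_psi F hF Λ y hre q) = dq (fun k => F.e j (y k)) (q : Fin n → ℚ) := by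
  have h1 : (Subfield.inclusion F.LM) (Gd_psi F hF Λ y hre q) = dq y (q : Fin n → ℚ) := by
    apply Subtype.ext
    rfl
  have h2 : F.f j (Gd_psi F hF Λ y hre q) = F.e j (dq y (q : Fin n → ℚ)) := by
    rw [FD.f, RingHom.comp_apply, h1]
  rw [h2, dq, dq, map_sum]
  refine Finset.sum_congr rfl fun k _ => ?_
  rw [map_mul, map_ratCast]

theorem Gd_f_zero (F : FD K p) (hF : FDP F) (l : F.L) : F.f 0 l = (l : ℂ) := by
  rw [FD.f, RingHom.comp_apply, hF.e0]
  rfl

/-- row Gd (F4): surjectivity. Proof: `Y := {l : L | ∃ q ∈ Λ, dq y q = l}` as a `ℚ`-subspace of `F.L` (the range of `ψ0 : Λ → F.L`, `ψ0 q := ⟨dq y q, _⟩`), `ψ : Λ → Y` the surjective restriction. Suppose `Y ≠ ⊤`;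
`finrank Y ≤ finrank L = 2 (p+1) < finrank Λ` (hdim, hi). `A := AX RC Λ ψ`, `2 finrank A ≤ finrank Y` by `finrank_AX`. For all `j` the restriction of `f j` to `Y` is in `A` (`b := fun k => F.e j (y k)`,
`dq b q = F.e j (dq y q)`, a ring homomorphism commutes with rational scalars). By `s_of_proper` the restriction of `s` to `Y` is `a + conj b` with `a`, `b ∈ A`. Every `u : Y →ₗ[ℚ] ℂ` extends to `L` (`LinearMap.exists_extend`)
and is a combination by `span_emb`, so `hspan` of `no_conj` holds; `g := f 0` restricted to `Y` is real (`e0`), nonzero by `hne`. Contradiction. -/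
theorem surjG (F : FD K p) (hF : FDP F) {n c i : ℕ} (RC : Submodule ℂ (Fin n → ℂ)) (hRC : finrank ℂ RC = c + 1)
    (hG : ∀ Λ : Submodule ℚ (Fin n → ℚ), Λ ≠ ⊥ → finrank ℚ Λ + 2 * finrank ℂ (RC ⊓ ann ℂ Λ : Submodule ℂ (Fin n → ℂ)) + 1 ≤ 2 * finrank ℂ RC)
    (Λ : Submodule ℚ (Fin n → ℚ)) (hdim : finrank ℚ Λ + 2 * i = 2 * c + 1) (hi : i + (p + 1) ≤ c) (x : Fin i → Fin n → ℂ) (hx : LinearIndependent ℂ x)
    (hxR : ∀ l, x l ∈ RC ⊓ ann ℂ Λ) (y : Fin n → F.M) (hy : ∀ j, (fun k => F.e j (y k)) ∈ RC) (hre : ∀ q ∈ Λ, ((dq y q : F.M) : ℂ).im = 0)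
    (hne : ∃ q ∈ Λ, dq y q ≠ 0) : ∀ l : F.L, ∃ q ∈ Λ, ((dq y q : F.M) : ℂ) = l := by
  have hfin : FiniteDimensional ℚ F.L := by
    apply FiniteDimensional.of_finrank_pos
    rw [hF.dL]
    omega
  obtain ⟨Y, hYdef⟩ : ∃ Y : Submodule ℚ F.L, Y = LinearMap.range (Gd_psi F hF Λ y hre) := ⟨_, rfl⟩
  by_cases hY : Y = ⊤
  · intro l
    have hl : l ∈ LinearMap.range (Gd_psi F hF Λ y hre) := by
      rw [← hYdef, hY]
      exact Submodule.mem_top
    obtain ⟨q, hq⟩ := hl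
    refine ⟨q, q.2, ?_⟩
    rw [← hq]
    rfl
  exfalso
  have hlt0 : finrank ℚ Y < finrank ℚ F.L := Submodule.finrank_lt hY
  rw [hF.dL] at hlt0
  have hlt : finrank ℚ Y < finrank ℚ Λ := by omega
  subst hYdef
  obtain ⟨ψ, hψdef⟩ : ∃ ψ : Λ →ₗ[ℚ] (LinearMap.range (Gd_psi F hF Λ y hre)), ψ = (Gd_psi F hF Λ y hre).rangeRestrict := ⟨_, rfl⟩
  have hψ : Function.Surjective ψ := by
    rw [hψdef]
    exact LinearMap.surjective_rangeRestrict _
  have hψc : ∀ q, ((ψ q : LinearMap.range (Gd_psi F hF Λ y hre)) : F.L) = Gd_psi F hF Λ y hre q := by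
    intro q
    rw [hψdef]
    rfl
  have hA := finrank_AX RC hRC hG Λ hdim x hx hxR ψ hψ hlt
  have hfA : ∀ j, (Gd_f F j).comp (LinearMap.range (Gd_psi F hF Λ y hre)).subtype ∈ AX RC Λ ψ := by
    intro j
    refine ⟨fun k => F.e j (y k), hy j, fun q => ?_⟩
    rw [LinearMap.comp_apply, Submodule.subtype_apply, hψc, Gd_f_apply, Gd_f_psi]
  obtain ⟨a', b', hs⟩ := s_of_proper F hF (LinearMap.range (Gd_psi F hF Λ y hre)) hY
  refine no_conj (AX RC Λ ψ) hA ((Gd_f F 0).comp (LinearMap.range (Gd_psi F hF Λ y hre)).subtype) (hfA 0) ?_ ?_ ?_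
  · obtain ⟨q, hq, hq0⟩ := hne
    intro h0
    apply hq0
    have h1 := LinearMap.congr_fun h0 (ψ ⟨q, hq⟩)
    rw [LinearMap.comp_apply, Submodule.subtype_apply, hψc, Gd_f_apply, Gd_f_zero F hF, Gd_psi_coe, LinearMap.zero_apply] at h1
    exact Subtype.ext h1
  · intro l
    rw [LinearMap.comp_apply, Submodule.subtype_apply, Gd_f_apply, Gd_f_zero F hF]
    exact ((hF.hL _).1 (l : F.L).2).2
  · intro u
    obtain ⟨u', hu'⟩ := LinearMap.exists_extend u
    obtain ⟨a, b, cc, hu⟩ := span_emb F hF u'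
    refine ⟨∑ j, (a j + cc * a' j) • ((Gd_f F j).comp (LinearMap.range (Gd_psi F hF Λ y hre)).subtype),
      Submodule.sum_mem _ fun j _ => Submodule.smul_mem _ _ (hfA j),
      ∑ j, ((starRingEnd ℂ) (b j + cc * b' j)) • ((Gd_f F j).comp (LinearMap.range (Gd_psi F hF Λ y hre)).subtype),
      Submodule.sum_mem _ fun j _ => Submodule.smul_mem _ _ (hfA j), fun l => ?_⟩
    have h1 : u l = u' (l : F.L) := by
      rw [← hu']
      rfl
    rw [h1, hu, hs _ l.2]
    simp only [LinearMap.sum_apply, LinearMap.smul_apply, LinearMap.comp_apply, Submodule.subtype_apply, Gd_f_apply,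
      smul_eq_mul, map_sum, map_mul, Complex.conj_conj, add_mul, Finset.sum_add_distrib, mul_add, Finset.mul_sum, mul_assoc]
    ring

/-- row Ge: the dimension of the kernel of a surjective `Λ → L`. Proof: rank-nullity for `ψ : Λ → F.L`, `q ↦ ⟨dq y q, _⟩`, whose kernel is isomorphic to `Λ'` (compare `DA.step_ok`). -/
theorem finrank_next (F : FD K p) (hF : FDP F) {n : ℕ} (Λ Λ' : Submodule ℚ (Fin n → ℚ)) (y : Fin n → F.M) (hΛ' : ∀ q, q ∈ Λ' ↔ q ∈ Λ ∧ dq y q = 0)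
    (hre : ∀ q ∈ Λ, ((dq y q : F.M) : ℂ).im = 0) (hsurj : ∀ l : F.L, ∃ q ∈ Λ, ((dq y q : F.M) : ℂ) = l) :
    finrank ℚ Λ' + 2 * (p + 1) = finrank ℚ Λ := by
  have hle : Λ' ≤ Λ := fun q hq => ((hΛ' q).1 hq).1
  have hker : LinearMap.ker (Gd_psi F hF Λ y hre) = comap Λ.subtype Λ' := by
    ext q
    rw [LinearMap.mem_ker, mem_comap, subtype_apply, hΛ']
    constructor
    · intro h
      refine ⟨q.2, ?_⟩
      have h1 : ((Gd_psi F hF Λ y hre q : F.L) : ℂ) = ((0 : F.L) : ℂ) := by rw [h]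
      rw [Gd_psi_coe] at h1
      apply Subtype.ext
      rw [h1]
      rfl
    · rintro ⟨-, h⟩
      apply Subtype.ext
      rw [Gd_psi_coe, h]
      rfl
  have hrange : LinearMap.range (Gd_psi F hF Λ y hre) = ⊤ := by
    rw [LinearMap.range_eq_top]
    intro l
    obtain ⟨q, hq, h⟩ := hsurj l
    refine ⟨⟨q, hq⟩, ?_⟩
    apply Subtype.ext
    rw [Gd_psi_coe]
    exact h
  have hrn := LinearMap.finrank_range_add_finrank_ker (Gd_psi F hF Λ y hre)
  have hkd : finrank ℚ (LinearMap.ker (Gd_psi F hF Λ y hre)) = finrank ℚ Λ' := by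
    rw [hker]
    exact (comapSubtypeEquivOfLe hle).finrank_eq
  rw [hkd, hrange, finrank_top, hF.dL] at hrn
  omega

/-! ### The family -/

/-- the functionals: `X (i) = e_j ∘ y_t` for `i = (p+1) t + j` -/
def XX (F : FD K p) {n : ℕ} (y : ℕ → Fin n → F.M) (i : ℕ) : Fin n → ℂ :=
  fun k => F.e ⟨i % (p + 1), Nat.mod_lt _ (Nat.succ_pos p)⟩ (y (i / (p + 1)) k)

/-- linear independence of the first `N` members -/
def Ind {n : ℕ} (X : ℕ → Fin n → ℂ) (N : ℕ) : Prop := ∀ b : ℕ → ℂ, ∑ l ∈ Finset.range N, b l • X l = 0 → ∀ l < N, b l = 0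

/-- row Gf -/
theorem Ind_iff {n : ℕ} (X : ℕ → Fin n → ℂ) (N : ℕ) : Ind X N ↔ LinearIndependent ℂ (fun l : Fin N => X l) := by
  rw [Fintype.linearIndependent_iff]
  constructor
  · intro h g hg l
    have h1 : ∑ l ∈ Finset.range N, (fun l => if h : l < N then g ⟨l, h⟩ else 0) l • X l = 0 := by
      rw [Finset.sum_range]
      rw [← hg]
      refine Finset.sum_congr rfl (fun i _ => ?_)
      simp
    have h2 := h _ h1 l l.2
    simpa using h2
  · intro h b hb l hl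
    have h1 : ∑ i : Fin N, b i • X i = 0 := by
      rw [← hb, Finset.sum_range]
    exact h (fun i => b i) h1 ⟨l, hl⟩

/-- row Gf. The value of `XX` at a rational vector. Proof: `F.e j` is a ring homomorphism: `map_sum`, `map_mul`, `map_ratCast`. -/
theorem XX_dq (F : FD K p) {n : ℕ} (y : ℕ → Fin n → F.M) (t : ℕ) (j : Fin (p + 1)) (q : Fin n → ℚ) :
    dq (XX F y ((p + 1) * t + j)) q = F.e j (dq (y t) q) := by
  have h1 : ((p + 1) * t + (j : ℕ)) % (p + 1) = j := by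
    rw [Nat.mul_add_mod, Nat.mod_eq_of_lt j.2]
  have h2 : ((p + 1) * t + (j : ℕ)) / (p + 1) = t := by
    rw [Nat.mul_add_div (Nat.succ_pos p), Nat.div_eq_of_lt j.2, add_zero]
  have h3 : (⟨((p + 1) * t + (j : ℕ)) % (p + 1), Nat.mod_lt _ (Nat.succ_pos p)⟩ : Fin (p + 1)) = j :=
    Fin.ext h1
  simp only [dq, XX, h2, h3]
  rw [map_sum]
  refine Finset.sum_congr rfl (fun k _ => ?_)
  rw [map_mul, map_ratCast]

/-- row Gf. `XX F y ((p+1) t) = y t`. Proof: `e0`. -/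
theorem XX_zero (F : FD K p) (hF : FDP F) {n : ℕ} (y : ℕ → Fin n → F.M) (t : ℕ) (k : Fin n) : XX F y ((p + 1) * t) k = (y t k : ℂ) := by
  have h2 : ((p + 1) * t) / (p + 1) = t := Nat.mul_div_cancel_left t (Nat.succ_pos p)
  have h3 : (⟨((p + 1) * t) % (p + 1), Nat.mod_lt _ (Nat.succ_pos p)⟩ : Fin (p + 1)) = 0 :=
    Fin.ext (by simp)
  simp only [XX, h2, h3]
  exact hF.e0 (y t k)

/-- row Gf. The functionals before the block `t` vanish on `Lam y t`. Proof: `l = (p+1) t' + j` with `t' = l / (p+1) < t`; `XX_dq`, `map_zero`. -/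
theorem XX_Lam (F : FD K p) {n : ℕ} (y : ℕ → Fin n → F.M) (t l : ℕ) (hl : l < (p + 1) * t) (q : Fin n → ℚ) (hq : q ∈ Lam y t) : dq (XX F y l) q = 0 := by
  have h1 : l = (p + 1) * (l / (p + 1)) + ((⟨l % (p + 1), Nat.mod_lt _ (Nat.succ_pos p)⟩ : Fin (p + 1)) : ℕ) :=
    (Nat.div_add_mod l (p + 1)).symm
  have h2 : l / (p + 1) < t := Nat.div_lt_of_lt_mul hl
  rw [h1, XX_dq]
  have h3 : dq (y (l / (p + 1))) q = 0 := hq _ h2
  rw [h3, map_zero]

theorem Gg_dq_sum {n : ℕ} (X : ℕ → Fin n → ℂ) (b : ℕ → ℂ) (s : Finset ℕ) (q : Fin n → ℚ) :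
    dq (∑ l ∈ s, b l • X l) q = ∑ l ∈ s, b l * dq (X l) q := by
  simp only [dq, Finset.sum_apply, Pi.smul_apply, smul_eq_mul, Finset.sum_mul, Finset.mul_sum]
  rw [Finset.sum_comm]
  simp only [mul_assoc]

/-- row Gg. Independence of a block. Proof: `∑_{l < (p+1)(t+1)} b l • XX l = 0`; evaluate (`dq`) at `q ∈ Lam y t`: the terms `l < (p+1) t` vanish (`XX_Lam`), so `∑_j b ((p+1) t + j) F.e j (dq (y t) q) = 0`; by `hsurj` this is
`∑_j b_j F.f j l = 0` for all `l : F.L`, so `b_j = 0` by `indep_emb`; then `Ind ... ((p+1) t)`. -/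
theorem Ind_block (F : FD K p) (hF : FDP F) {n : ℕ} (y : ℕ → Fin n → F.M) (t : ℕ) (h : Ind (XX F y) ((p + 1) * t))
    (hsurj : ∀ l : F.L, ∃ q ∈ Lam y t, ((dq (y t) q : F.M) : ℂ) = l) : Ind (XX F y) ((p + 1) * (t + 1)) := by
  intro b hb
  have hval : ∀ q ∈ Lam y t, ∑ j : Fin (p + 1), b ((p + 1) * t + j) * F.e j (dq (y t) q) = 0 := by
    intro q hq
    have h1 := congrArg (fun v => dq v q) hb
    simp only [Gg_dq_sum] at h1
    have h0 : dq (0 : Fin n → ℂ) q = 0 := by simp [dq]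
    rw [h0, Nat.mul_succ, Finset.sum_range_add, Finset.sum_eq_zero, zero_add, Finset.sum_range] at h1
    · rw [← h1]
      exact Finset.sum_congr rfl fun j _ => by rw [XX_dq]
    · intro l hl
      rw [XX_Lam F y t l (Finset.mem_range.mp hl) q hq, mul_zero]
  have hz : (fun j : Fin (p + 1) => b ((p + 1) * t + j)) = 0 := by
    apply indep_emb F hF
    intro x
    obtain ⟨q, hq, hx⟩ := hsurj x
    have h2 : dq (y t) q = Subfield.inclusion F.LM x := Subtype.ext hx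
    have h3 := hval q hq
    rw [h2] at h3
    exact h3
  have hz' : ∀ j < p + 1, b ((p + 1) * t + j) = 0 := fun j hj => congrFun hz ⟨j, hj⟩
  have hb2 : ∑ l ∈ Finset.range ((p + 1) * t), b l • XX F y l = 0 := by
    rw [Nat.mul_succ, Finset.sum_range_add] at hb
    rw [Finset.sum_eq_zero (s := Finset.range (p + 1))] at hb
    · rwa [add_zero] at hb
    · intro j hj
      rw [hz' j (Finset.mem_range.mp hj), zero_smul]
  intro l hl
  by_cases hlt : l < (p + 1) * t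
  · exact h b hb2 l hlt
  · have h4 := hz' (l - (p + 1) * t) (by rw [Nat.mul_succ] at hl; omega)
    rwa [Nat.add_sub_cancel' (not_lt.mp hlt)] at h4

/-- row Gg. One more functional. Proof: evaluate a relation at `q ∈ Lam y t` with `dq (y t) q ≠ 0`. -/
theorem Ind_succ (F : FD K p) (hF : FDP F) {n : ℕ} (y : ℕ → Fin n → F.M) (t : ℕ) (h : Ind (XX F y) ((p + 1) * t))
    (hne : ∃ q ∈ Lam y t, dq (y t) q ≠ 0) : Ind (XX F y) ((p + 1) * t + 1) := by
  intro b hb
  obtain ⟨q, hq, hq0⟩ := hne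
  have hz : b ((p + 1) * t) = 0 := by
    have h1 := congrArg (fun v => dq v q) hb
    simp only [Gg_dq_sum] at h1
    have h0 : dq (0 : Fin n → ℂ) q = 0 := by simp [dq]
    rw [h0, Finset.sum_range_succ, Finset.sum_eq_zero, zero_add] at h1
    · have h2 := XX_dq F y t 0 q
      rw [Fin.val_zero, add_zero] at h2
      rw [h2] at h1
      rcases mul_eq_zero.mp h1 with h3 | h3
      · exact h3
      · exact absurd ((map_eq_zero (F.e 0)).mp h3) hq0
    · intro l hl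
      rw [XX_Lam F y t l (Finset.mem_range.mp hl) q hq, mul_zero]
  have hb2 : ∑ l ∈ Finset.range ((p + 1) * t), b l • XX F y l = 0 := by
    rw [Finset.sum_range_succ, hz, zero_smul, add_zero] at hb
    exact hb
  intro l hl
  rcases Nat.lt_succ_iff_lt_or_eq.mp hl with hlt | heq
  · exact h b hb2 l hlt
  · rw [heq]; exact hz

/-- the properties of the step `t`; they depend on `y 0, ..., y t` only -/
structure SG (F : FD K p) {n : ℕ} (m : ℕ) (R : Submodule F.M (Fin n → F.M)) (y : ℕ → Fin n → F.M) (t : ℕ) : Prop where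
  mem : y t ∈ R
  dim : finrank ℚ (Lam y t) + 2 * ((p + 1) * t) = 2 * ((p + 1) * m) + 1
  real : ∀ q ∈ Lam y t, ((dq (y t) q : F.M) : ℂ).im = 0
  ne : ∃ q ∈ Lam y t, dq (y t) q ≠ 0
  surj : t < m → ∀ l : F.L, ∃ q ∈ Lam y t, ((dq (y t) q : F.M) : ℂ) = l

/-- row Gh. -/
theorem SG.congr {F : FD K p} {n m : ℕ} {R : Submodule F.M (Fin n → F.M)} {x y : ℕ → Fin n → F.M} {t : ℕ}
    (h : ∀ l ≤ t, x l = y l) (hx : SG F m R x t) : SG F m R y t := by
  have h1 : Lam x t = Lam y t := Lam_congr fun l hl => h l hl.le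
  have h2 : x t = y t := h t le_rfl
  refine ⟨?_, ?_, ?_, ?_, ?_⟩
  · rw [← h2]; exact hx.mem
  · rw [← h1]; exact hx.dim
  · rw [← h1, ← h2]; exact hx.real
  · rw [← h1, ← h2]; exact hx.ne
  · rw [← h1, ← h2]; exact hx.surj

theorem Gh_lam {L : Type*} [Field L] [CharZero L] {n : ℕ} (x : ℕ → Fin n → L) (i : ℕ) (q : Fin n → ℚ) :
    q ∈ Lam x (i + 1) ↔ q ∈ Lam x i ∧ dq (x i) q = 0 := by
  constructor
  · intro h
    exact ⟨fun l hl => h l (by omega), h i (by omega)⟩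
  · rintro ⟨h1, h2⟩ l hl
    rcases Nat.lt_succ_iff_lt_or_eq.1 hl with h | rfl
    · exact h1 l h
    · exact h2

/-- the independence of the blocks before `t`, from the surjectivity of the earlier steps -/
theorem Gh_ind (F : FD K p) (hF : FDP F) {n : ℕ} (y : ℕ → Fin n → F.M) (t : ℕ)
    (h : ∀ l < t, ∀ x : F.L, ∃ q ∈ Lam y l, ((dq (y l) q : F.M) : ℂ) = x) : Ind (XX F y) ((p + 1) * t) := by
  induction t with
  | zero =>
    intro b _ l hl
    exact absurd hl (by omega)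
  | succ t ih =>
    exact Ind_block F hF y t (ih fun l hl => h l (by omega)) (h t (by omega))

/-- row Gh. The recursion. Proof: as `DA.exists_flag` (D3, copy it): by induction on `t ≤ m + 1` there is `y` with `SG` for all `l < t` and (if `t ≤ m`) `finrank (Lam y t) + 2 (p+1) t = 2 (p+1) m + 1`.
Step `t → t+1`, `t ≤ m`: `i := (p+1) t`; `hGM (Lam y t)` gives `hann` (`Lam y t ≠ ⊥` as its dimension is odd), `exists_realG` gives the new functional `v`; `y' := Function.update y t v`. `surj` (for `t < m`): `surjG`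
with `c := (p+1) m`, the family `x l := XX F y' l` (`l : Fin ((p+1) t)`), independent by `Ind_block` (induction, from the earlier `surj`), in `RC` by `hRC'`, in `ann ℂ (Lam y' t)` by `XX_Lam`. The dimension of the next
`Lam`: `finrank_next`. -/
theorem exists_flagG (F : FD K p) (hF : FDP F) {n m : ℕ} (hn : n = 2 * ((p + 1) * m) + 1) (R : Submodule F.M (Fin n → F.M)) (hR : finrank F.M R = (p + 1) * m + 1)
    (hGM : ∀ Λ : Submodule ℚ (Fin n → ℚ), Λ ≠ ⊥ → finrank ℚ Λ + 2 * finrank F.M (R ⊓ ann F.M Λ : Submodule F.M (Fin n → F.M)) + 1 ≤ 2 * finrank F.M R)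
    (RC : Submodule ℂ (Fin n → ℂ)) (hRC : finrank ℂ RC = (p + 1) * m + 1)
    (hG : ∀ Λ : Submodule ℚ (Fin n → ℚ), Λ ≠ ⊥ → finrank ℚ Λ + 2 * finrank ℂ (RC ⊓ ann ℂ Λ : Submodule ℂ (Fin n → ℂ)) + 1 ≤ 2 * finrank ℂ RC)
    (hRR : ∀ v ∈ R, ∀ j, (fun k => F.e j (v k)) ∈ RC) :
    ∃ y : ℕ → Fin n → F.M, ∀ t ≤ m, SG F m R y t := by
  have key : ∀ t ≤ m + 1, ∃ y : ℕ → Fin n → F.M, (∀ l < t, SG F m R y l) ∧
      (t ≤ m → finrank ℚ (Lam y t) + 2 * ((p + 1) * t) = 2 * ((p + 1) * m) + 1) := by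
    intro t
    induction t with
    | zero =>
      intro _
      refine ⟨0, fun l hl => absurd hl (by omega), fun _ => ?_⟩
      have h1 : Lam (0 : ℕ → Fin n → F.M) 0 = ⊤ := by
        rw [eq_top_iff]
        intro q _ l hl
        exact absurd hl (by omega)
      rw [h1, finrank_top, finrank_fin_fun, hn]
      omega
    | succ t ih =>
      intro ht
      obtain ⟨y, hy, hdim⟩ := ih (by omega)
      have htm : t ≤ m := by omega
      have hd := hdim htm
      have hne : Lam y t ≠ ⊥ := by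
        intro h
        rw [h, finrank_bot] at hd
        omega
      have hann : finrank F.M (R ⊓ ann F.M (Lam y t) : Submodule F.M (Fin n → F.M)) ≤ (p + 1) * t := by
        have h1 := hGM (Lam y t) hne
        rw [hR] at h1
        omega
      obtain ⟨v, hvR, hvr, hvn⟩ := exists_realG F hF R (Lam y t) ((p + 1) * t) (by rw [hR]; omega) hann
      set y' : ℕ → Fin n → F.M := Function.update y t v with hy'
      have hlt : ∀ l < t, y l = y' l := fun l hl => by rw [hy', Function.update_of_ne (by omega)]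
      have hyt : y' t = v := by rw [hy', Function.update_self]
      have hLam : Lam y t = Lam y' t := Lam_congr hlt
      have hsteps : ∀ l < t, SG F m R y' l := fun l hl => (hy l hl).congr fun k hk => hlt k (by omega)
      have hdx : finrank ℚ (Lam y' t) + 2 * ((p + 1) * t) = 2 * ((p + 1) * m) + 1 := by rw [← hLam]; exact hd
      have hre : ∀ q ∈ Lam y' t, ((dq (y' t) q : F.M) : ℂ).im = 0 := by
        rw [← hLam, hyt]; exact hvr
      have hnz : ∃ q ∈ Lam y' t, dq (y' t) q ≠ 0 := by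
        rw [← hLam, hyt]; exact hvn
      have hmem : ∀ l ≤ t, y' l ∈ R := by
        intro l hl
        rcases Nat.lt_or_ge l t with h | h
        · exact (hsteps l h).mem
        · rw [show l = t by omega, hyt]; exact hvR
      have hInd : Ind (XX F y') ((p + 1) * t) := Gh_ind F hF y' t fun l hl => (hsteps l hl).surj (by omega)
      have hsurj : t < m → ∀ l : F.L, ∃ q ∈ Lam y' t, ((dq (y' t) q : F.M) : ℂ) = l := by
        intro h
        have hi : (p + 1) * t + (p + 1) ≤ (p + 1) * m := by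
          have : (p + 1) * (t + 1) ≤ (p + 1) * m := Nat.mul_le_mul_left _ (by omega)
          rw [Nat.mul_add, Nat.mul_one] at this
          exact this
        refine surjG F hF RC hRC hG (Lam y' t) hdx hi (fun l : Fin ((p + 1) * t) => XX F y' l) ((Ind_iff _ _).1 hInd) ?_ (y' t)
          (hRR _ (hmem t le_rfl)) hre hnz
        intro l
        rw [Submodule.mem_inf]
        constructor
        · have hl : (l : ℕ) / (p + 1) < t := by
            rw [Nat.div_lt_iff_lt_mul (Nat.succ_pos p)]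
            exact lt_of_lt_of_eq l.2 (Nat.mul_comm _ _)
          exact hRR _ (hmem _ hl.le) _
        · intro q hq
          exact XX_Lam F y' t l l.2 q hq
      refine ⟨y', ?_, fun h => ?_⟩
      · intro l hl
        rcases Nat.lt_or_ge l t with h | h
        · exact hsteps l h
        · have hl' : l = t := by omega
          subst hl'
          exact ⟨hmem l le_rfl, hdx, hre, hnz, hsurj⟩
      · have h1 := finrank_next F hF (Lam y' t) (Lam y' (t + 1)) (y' t) (fun q => Gh_lam y' t q) hre (hsurj (by omega))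
        have h2 : (p + 1) * (t + 1) = (p + 1) * t + (p + 1) := by ring
        rw [h2]
        omega
  obtain ⟨y, hy, _⟩ := key (m + 1) le_rfl
  exact ⟨y, fun t ht => hy t (by omega)⟩

private theorem Gi_val {n : ℕ} (v : Fin n → ℂ) (q : Fin n → ℚ) : v ⬝ᵥ rv (fun j => (q j : ℝ)) = dq v q := by
  simp only [dotProduct, rv, dq]
  push_cast
  rfl

/-- the real functional `b ↦ Re (y · b)` -/
private def Gi_re {n : ℕ} (y : Fin n → ℂ) : (Fin n → ℝ) →ₗ[ℝ] ℝ where
  toFun b := (y ⬝ᵥ rv b).re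
  map_add' p q := by
    simp only [dotProduct, rv, Pi.add_apply, ofReal_add, mul_add, Finset.sum_add_distrib, add_re]
  map_smul' r q := by
    simp only [dotProduct, rv, Pi.smul_apply, smul_eq_mul, ofReal_mul, RingHom.id_apply, re_sum]
    rw [Finset.mul_sum]
    refine Finset.sum_congr rfl fun j _ => ?_
    rw [mul_left_comm, re_ofReal_mul]

/-- the real functional `b ↦ Im (y · b)` -/
private def Gi_im {n : ℕ} (y : Fin n → ℂ) : (Fin n → ℝ) →ₗ[ℝ] ℝ where
  toFun b := (y ⬝ᵥ rv b).im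
  map_add' p q := by
    simp only [dotProduct, rv, Pi.add_apply, ofReal_add, mul_add, Finset.sum_add_distrib, add_im]
  map_smul' r q := by
    simp only [dotProduct, rv, Pi.smul_apply, smul_eq_mul, ofReal_mul, RingHom.id_apply, im_sum]
    rw [Finset.mul_sum]
    refine Finset.sum_congr rfl fun j _ => ?_
    rw [mul_left_comm, im_ofReal_mul]

/-- row Gi. The width argument (F5). Proof: as `DA.im_ne` (D3h, copy it). `i := (p+1) t`, `X := XX F y`; suppose `Im (dq (y (t+1)) q) = Re (∑_j a j * e j (dq (y t) q))` for all `q ∈ Lam y t`.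
`f := X (i+p+1) - I • ∑_j a j • X (i+j)`; `f · q` is real for `q ∈ Lam y t`. The `i + 2` functionals `X 0, ..., X i, f` are independent (a relation: the coefficient of `f` is `0` because `X 0, ..., X (i+p+1)` are independent,
`hInd`), they kill `ker P`; `B0 :=` real span of `Lam y t` (dimension `2 (c-i) + 1`), `B := {b ∈ B0 | X i · b = 0, f · b = 0}`: two real conditions, `finrank ℝ B ≥ 2 (c-i) - 1`; `real_width` gives
`finrank ℝ B + 2 (i + 2) ≤ 2 (c + 1)`. Contradiction. -/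
theorem cs_ne (F : FD K p) (hF : FDP F) {n m : ℕ} (hn : n = 2 * ((p + 1) * m) + 1) (P : Matrix (Fin n) (Fin n) ℂ) (hreal : ∀ b : Fin n → ℝ, P *ᵥ rv b = 0 → b = 0)
    (hker : (p + 1) * m ≤ finrank ℂ (LinearMap.ker (Matrix.mulVecLin P))) (y : ℕ → Fin n → F.M)
    (hP : ∀ l ≤ (p + 1) * m, ∀ u, P *ᵥ u = 0 → XX F y l ⬝ᵥ u = 0) (t : ℕ) (ht : t < m) (hInd : Ind (XX F y) ((p + 1) * (t + 1) + 1))
    (hdim : finrank ℚ (Lam y t) + 2 * ((p + 1) * t) = 2 * ((p + 1) * m) + 1) (hre : ∀ q ∈ Lam y t, ((dq (y t) q : F.M) : ℂ).im = 0)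
    (a : Fin (p + 1) → ℂ) (ha : ∀ q ∈ Lam y t, ((dq (y (t + 1)) q : F.M) : ℂ).im = (∑ j, a j * F.e j (dq (y t) q)).re) : False := by
  obtain ⟨i, hi⟩ : ∃ i, i = (p + 1) * t := ⟨_, rfl⟩
  obtain ⟨N, hN⟩ : ∃ N, N = (p + 1) * (t + 1) := ⟨_, rfl⟩
  have hNi : N = i + (p + 1) := by rw [hN, hi]; ring
  have hNc : N ≤ (p + 1) * m := by
    rw [hN]
    exact Nat.mul_le_mul_left _ ht
  set X : ℕ → Fin n → ℂ := XX F y with hX
  set g : Fin n → ℂ := ∑ j : Fin (p + 1), a j • X (i + j) with hg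
  set f : Fin n → ℂ := X N - I • g with hf
  -- linear independence
  have hli : LinearIndependent ℂ (fun l : Fin (N + 1) => X l) := by
    rw [hN]
    exact (Ind_iff X _).1 hInd
  have hli2 : LinearIndependent ℂ (fun l : Fin (i + 1) => X l) := by
    have := hli.comp (Fin.castLE (by omega : i + 1 ≤ N + 1)) (Fin.castLE_injective _)
    exact this
  have hsn : (fun l : Fin (N + 1) => X l) = Fin.snoc (α := fun _ => Fin n → ℂ) (fun l : Fin N => X l) (X N) := by
    funext l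
    refine Fin.lastCases ?_ (fun l => ?_) l
    · simp
    · simp
  rw [hsn, linearIndependent_finSnoc] at hli
  obtain ⟨-, hnot⟩ := hli
  set z : Fin (i + 1 + 1) → Fin n → ℂ := Fin.snoc (α := fun _ => Fin n → ℂ) (fun l : Fin (i + 1) => X l) f with hz
  have hzli : LinearIndependent ℂ z := by
    rw [hz, linearIndependent_finSnoc]
    refine ⟨hli2, fun hmem => hnot ?_⟩
    have h1 : X N = f + I • g := by rw [hf]; abel
    rw [h1]
    refine Submodule.add_mem _ ?_ (Submodule.smul_mem _ _ (Submodule.sum_mem _ fun j _ => Submodule.smul_mem _ _ (subset_span ⟨⟨i + j, ?_⟩, rfl⟩)))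
    · refine (span_mono ?_) hmem
      rintro _ ⟨l, rfl⟩
      exact ⟨⟨l, by have := l.2; omega⟩, rfl⟩
    · have := j.2
      omega
  -- the kernel of P
  have hgP : ∀ u, P *ᵥ u = 0 → g ⬝ᵥ u = 0 := by
    intro u hu
    rw [hg, sum_dotProduct]
    refine Finset.sum_eq_zero fun j _ => ?_
    rw [smul_dotProduct, hP _ (by have := j.2; omega) u hu, smul_zero]
  have hfP : ∀ u, P *ᵥ u = 0 → f ⬝ᵥ u = 0 := by
    intro u hu
    rw [hf, sub_dotProduct, smul_dotProduct, hP _ hNc u hu, hgP u hu, smul_zero, sub_zero]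
  have hzP : ∀ u, P *ᵥ u = 0 → ∀ l, z l ⬝ᵥ u = 0 := by
    intro u hu l
    refine Fin.lastCases ?_ (fun l => ?_) l
    · rw [hz, Fin.snoc_last]
      exact hfP u hu
    · rw [hz, Fin.snoc_castSucc]
      exact hP _ (by have := l.2; omega) u hu
  -- values on rational vectors
  have hcoe : ∀ (s : ℕ) (γ : Fin n → ℚ), dq (X ((p + 1) * s)) γ = ((dq (y s) γ : F.M) : ℂ) := by
    intro s γ
    have e1 : X ((p + 1) * s) = fun k => (y s k : ℂ) := by
      funext k
      exact XX_zero F hF y s k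
    rw [e1]
    simp only [dq]
    push_cast
    rfl
  have h0 : ∀ γ ∈ Lam y t, ∀ l < i, X l ⬝ᵥ rv (fun j => (γ j : ℝ)) = 0 := by
    intro γ hγ l hl
    rw [Gi_val]
    exact XX_Lam F y t l (by omega) γ hγ
  have h1 : ∀ γ ∈ Lam y t, (X i ⬝ᵥ rv (fun j => (γ j : ℝ))).im = 0 := by
    intro γ hγ
    rw [Gi_val, hi, hcoe]
    exact hre γ hγ
  have h2 : ∀ γ ∈ Lam y t, (f ⬝ᵥ rv (fun j => (γ j : ℝ))).im = 0 := by
    intro γ hγ
    have e1 : g ⬝ᵥ rv (fun j => (γ j : ℝ)) = ∑ j, a j * F.e j (dq (y t) γ) := by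
      rw [hg, sum_dotProduct]
      refine Finset.sum_congr rfl fun j _ => ?_
      rw [smul_dotProduct, Gi_val, smul_eq_mul, hi, hX, XX_dq]
    rw [hf, sub_dotProduct, smul_dotProduct, e1, Gi_val, hN, hcoe, sub_im, ha γ hγ, smul_eq_mul, I_mul_im, sub_self]
  -- the real span of `Lam y t`
  let q := finBasis ℚ (Lam y t)
  let w : Fin (finrank ℚ (Lam y t)) → Fin n → ℝ := fun s j => ((q s : Fin n → ℚ) j : ℝ)
  have hw : LinearIndependent ℝ w := by
    have h3 : LinearIndependent ℚ (fun s => (q s : Fin n → ℚ)) := by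
      have := q.linearIndependent.map' (Submodule.subtype _) (Submodule.ker_subtype _)
      exact this
    exact (linearIndependent_algebraMap_comp_iff (R := ℚ) (S := ℝ)).2 h3
  set B0 : Submodule ℝ (Fin n → ℝ) := span ℝ (Set.range w) with hB0
  have hB0f : finrank ℝ B0 = finrank ℚ (Lam y t) := by
    rw [hB0, finrank_span_eq_card hw, Fintype.card_fin]
  have hB00 : ∀ β ∈ B0, ∀ l < i, X l ⬝ᵥ rv β = 0 := by
    intro β hβ l hl
    have hr : B0 ≤ LinearMap.ker (Gi_re (X l)) := by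
      rw [hB0, span_le]
      rintro _ ⟨s, rfl⟩
      have := h0 (q s) (q s).2 l hl
      exact congrArg Complex.re this
    have hi' : B0 ≤ LinearMap.ker (Gi_im (X l)) := by
      rw [hB0, span_le]
      rintro _ ⟨s, rfl⟩
      have := h0 (q s) (q s).2 l hl
      exact congrArg Complex.im this
    exact Complex.ext (hr hβ) (hi' hβ)
  have hB01 : ∀ β ∈ B0, (X i ⬝ᵥ rv β).im = 0 := by
    have hi' : B0 ≤ LinearMap.ker (Gi_im (X i)) := by
      rw [hB0, span_le]
      rintro _ ⟨s, rfl⟩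
      exact h1 (q s) (q s).2
    exact fun β hβ => hi' hβ
  have hB02 : ∀ β ∈ B0, (f ⬝ᵥ rv β).im = 0 := by
    have hi' : B0 ≤ LinearMap.ker (Gi_im f) := by
      rw [hB0, span_le]
      rintro _ ⟨s, rfl⟩
      exact h2 (q s) (q s).2
    exact fun β hβ => hi' hβ
  -- two conditions
  set ψ : B0 →ₗ[ℝ] (ℝ × ℝ) := ((Gi_re (X i)).prod (Gi_re f)).domRestrict B0 with hψ
  have hrn := LinearMap.finrank_range_add_finrank_ker ψ
  have hr2 : finrank ℝ (LinearMap.range ψ) ≤ 2 := by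
    have := Submodule.finrank_le (LinearMap.range ψ)
    simpa using this
  have hB : finrank ℝ ((LinearMap.ker ψ).map B0.subtype) = finrank ℝ (LinearMap.ker ψ) :=
    finrank_map_subtype_eq _ _
  have hwid := real_width hn P hreal hker z hzli hzP ((LinearMap.ker ψ).map B0.subtype) (by
    rintro _ ⟨β, hβ, rfl⟩ l
    have hβ' : ψ β = 0 := hβ
    have h3 : (X i ⬝ᵥ rv (β : Fin n → ℝ)).re = 0 := congrArg Prod.fst hβ'
    have h4 : (f ⬝ᵥ rv (β : Fin n → ℝ)).re = 0 := congrArg Prod.snd hβ'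
    have h5 : X i ⬝ᵥ rv (β : Fin n → ℝ) = 0 := Complex.ext h3 (hB01 β β.2)
    have h6 : f ⬝ᵥ rv (β : Fin n → ℝ) = 0 := Complex.ext h4 (hB02 β β.2)
    refine Fin.lastCases ?_ (fun l => ?_) l
    · rw [hz, Fin.snoc_last]
      exact h6
    · rw [hz, Fin.snoc_castSucc]
      rcases Nat.lt_succ_iff_lt_or_eq.1 l.2 with hl | hl
      · exact hB00 β β.2 l hl
      · rw [hl]
        exact h5)
  rw [hB] at hwid
  rw [← hi] at hdim
  omega

private theorem Gj_dq_add {L : Type*} [Field L] [CharZero L] {n : ℕ} (x : Fin n → L) (p q : Fin n → ℚ) :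
    dq x (p + q) = dq x p + dq x q := by
  simp only [dq, Pi.add_apply, Rat.cast_add, mul_add, Finset.sum_add_distrib]

private theorem Gj_dq_smul {L : Type*} [Field L] [CharZero L] {n : ℕ} (x : Fin n → L) (a : ℚ) (q : Fin n → ℚ) :
    dq x (a • q) = (a : L) * dq x q := by
  simp only [dq, Pi.smul_apply, smul_eq_mul, Rat.cast_mul]
  rw [Finset.mul_sum]
  exact Finset.sum_congr rfl fun j _ => by ring

private theorem Gj_Ind_mono {n : ℕ} (X : ℕ → Fin n → ℂ) {N N' : ℕ} (h : N' ≤ N) (hX : Ind X N) : Ind X N' := by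
  intro b hb l hl
  have h1 : ∑ l ∈ Finset.range N, (if l < N' then b l else 0) • X l = 0 := by
    rw [← hb]
    symm
    apply Finset.sum_subset_zero_on_sdiff
    · intro x hx
      rw [Finset.mem_range] at *
      omega
    · intro x hx
      rw [Finset.mem_sdiff, Finset.mem_range, Finset.mem_range] at hx
      rw [if_neg hx.2, zero_smul]
    · intro x hx
      rw [Finset.mem_range] at hx
      rw [if_pos hx]
  have h2 := hX (fun l => if l < N' then b l else 0) h1 l (lt_of_lt_of_le hl h)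
  simpa [hl] using h2

/-- the map `Lam y t → L` -/
private def Gj_psi (F : FD K p) (hF : FDP F) {n : ℕ} (y : ℕ → Fin n → F.M) (t : ℕ)
    (hre : ∀ q ∈ Lam y t, ((dq (y t) q : F.M) : ℂ).im = 0) : Lam y t →ₗ[ℚ] F.L where
  toFun q := ⟨((dq (y t) (q : Fin n → ℚ) : F.M) : ℂ), (hF.hL _).2 ⟨(dq (y t) (q : Fin n → ℚ) : F.M).2, hre q q.2⟩⟩
  map_add' u v := by
    apply Subtype.ext
    simp only [Submodule.coe_add, Gj_dq_add]
    push_cast
    rfl
  map_smul' a u := by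
    apply Subtype.ext
    simp only [Submodule.coe_smul, Gj_dq_smul, RingHom.id_apply, Rat.smul_def]
    push_cast
    rfl

/-- the map `q ↦ Im (dq y q)` -/
private def Gj_eta {M : Subfield ℂ} {n : ℕ} (y : Fin n → M) (Λ : Submodule ℚ (Fin n → ℚ)) : Λ →ₗ[ℚ] ℝ where
  toFun q := ((dq y (q : Fin n → ℚ) : M) : ℂ).im
  map_add' u v := by
    simp only [Submodule.coe_add, Gj_dq_add]
    push_cast
    simp
  map_smul' a u := by
    simp only [Submodule.coe_smul, Gj_dq_smul, RingHom.id_apply]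
    push_cast
    rw [Rat.smul_def]
    rw [show ((a : ℚ) : ℂ) = ((a : ℝ) : ℂ) by push_cast; rfl, Complex.im_ofReal_mul]

/-- row Gj. The function `φ`: `Im (y_{t+1} · q) = c s(l) + Re ∑ a_j f_j (l)`, `l = y_t · q`, with `c ≠ 0`. Proof: `φ : L →ₗ[ℚ] ℝ`, `φ l := Im (dq (y (t+1)) q)` for any `q ∈ Lam y t` with `dq (y t) q = l`: well defined because for
`dq (y t) q = 0` we have `q ∈ Lam y (t+1)` and `SG.real` for `t+1`; take a `ℚ`-linear section of the surjective map `Lam y t → L` (`LinearMap.exists_rightInverse_of_surjective`). `span_emb_real`; `c ≠ 0` by `cs_ne`. -/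
theorem exists_phi (F : FD K p) (hF : FDP F) {n m : ℕ} (hn : n = 2 * ((p + 1) * m) + 1) (P : Matrix (Fin n) (Fin n) ℂ) (hreal : ∀ b : Fin n → ℝ, P *ᵥ rv b = 0 → b = 0)
    (hker : (p + 1) * m ≤ finrank ℂ (LinearMap.ker (Matrix.mulVecLin P))) (y : ℕ → Fin n → F.M) (R : Submodule F.M (Fin n → F.M)) (hy : ∀ t ≤ m, SG F m R y t)
    (hP : ∀ l ≤ (p + 1) * m, ∀ u, P *ᵥ u = 0 → XX F y l ⬝ᵥ u = 0) (hInd : Ind (XX F y) ((p + 1) * m + 1)) (t : ℕ) (ht : t < m) :
    ∃ (c : ℝ) (a : Fin (p + 1) → ℂ), c ≠ 0 ∧ ∀ q ∈ Lam y t, ∀ l : F.L, ((dq (y t) q : F.M) : ℂ) = l →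
      ((dq (y (t + 1)) q : F.M) : ℂ).im = c * F.s l + (∑ j, a j * F.f j l).re := by
  have hS := hy t ht.le
  have hS1 := hy (t + 1) ht
  obtain ⟨ψ, hψ⟩ : ∃ ψ : Lam y t →ₗ[ℚ] F.L, ∀ q : Lam y t, ((ψ q : F.L) : ℂ) = ((dq (y t) (q : Fin n → ℚ) : F.M) : ℂ) :=
    ⟨Gj_psi F hF y t hS.real, fun q => rfl⟩
  obtain ⟨η, hη⟩ : ∃ η : Lam y t →ₗ[ℚ] ℝ, ∀ q : Lam y t, η q = ((dq (y (t + 1)) (q : Fin n → ℚ) : F.M) : ℂ).im :=
    ⟨Gj_eta (y (t + 1)) (Lam y t), fun q => rfl⟩
  have hsurj : LinearMap.range ψ = ⊤ := by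
    rw [LinearMap.range_eq_top]
    intro l
    obtain ⟨q, hq, hql⟩ := hS.surj ht l
    refine ⟨⟨q, hq⟩, ?_⟩
    apply Subtype.ext
    rw [hψ]
    exact hql
  obtain ⟨g, hg⟩ := LinearMap.exists_rightInverse_of_surjective ψ hsurj
  have hg' : ∀ l, ψ (g l) = l := fun l => by
    have := congrArg (fun f => f l) hg
    simpa using this
  obtain ⟨c, a, hca⟩ := span_emb_real F hF (η.comp g)
  have hker : ∀ q : Lam y t, ψ q = 0 → η q = 0 := by
    intro q hq
    rw [hη]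
    apply hS1.real
    intro l hl
    rcases Nat.lt_succ_iff_lt_or_eq.1 hl with h | h
    · exact q.2 l h
    · subst h
      apply Subtype.ext
      rw [← hψ, hq]
      rfl
  have hval : ∀ q : Lam y t, η q = c * F.s (ψ q) + (∑ j, a j * F.f j (ψ q)).re := by
    intro q
    have h1 : η (q - g (ψ q)) = 0 := by
      apply hker
      rw [map_sub, hg', sub_self]
    rw [map_sub, sub_eq_zero] at h1
    rw [h1, ← hca]
    rfl
  refine ⟨c, a, ?_, ?_⟩
  · intro hc0
    refine cs_ne F hF hn P hreal ‹_› y hP t ht (Gj_Ind_mono _ ?_ hInd) hS.dim hS.real a ?_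
    · have : (p + 1) * (t + 1) ≤ (p + 1) * m := Nat.mul_le_mul_left _ ht
      omega
    · intro q hq
      have h1 := hval ⟨q, hq⟩
      rw [hη, hc0, zero_mul, zero_add] at h1
      rw [h1]
      congr 1
      apply Finset.sum_congr rfl
      intro j _
      congr 1
      show F.e j (Subfield.inclusion F.LM (ψ ⟨q, hq⟩)) = _
      congr 1
      apply Subtype.ext
      exact hψ ⟨q, hq⟩
  · intro q hq l hl
    have h1 := hval ⟨q, hq⟩
    rw [hη] at h1
    have h2 : ψ ⟨q, hq⟩ = l := by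
      apply Subtype.ext
      rw [hψ]
      exact hl
    rw [h2] at h1
    exact h1

/-- row Gk. Integral vectors. Proof: `int_gen`: generators `b i` of the integers of `L`; `q i ∈ Lam y t` with `dq (y t) (q i) = b i`; a common denominator `d` of all the `q i` (`DA.D4h_den`, for the index type `Fin N × Fin n`). For an
integral `l = ∑ a i * b i` take `∑ a i • (d q i)`. -/
theorem exists_lat (F : FD K p) (hF : FDP F) {n : ℕ} (y : ℕ → Fin n → F.M) (t : ℕ) (hsurj : ∀ l : F.L, ∃ q ∈ Lam y t, ((dq (y t) q : F.M) : ℂ) = l) :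
    ∃ d : ℕ, 0 < d ∧ ∀ l : F.L, IsIntegral ℤ l → ∃ g : Fin n → ℤ, (fun j => (g j : ℚ)) ∈ Lam y t ∧ ((dq (y t) (fun j => (g j : ℚ)) : F.M) : ℂ) = d * l := by
  classical
  obtain ⟨N, b, hb⟩ := int_gen F hF
  choose q hqm hq using fun i => hsurj (b i)
  obtain ⟨d, g, hd, hg⟩ := D4h_den (fun ij : Fin N × Fin n => q ij.1 ij.2)
  refine ⟨d, hd, fun l hl => ?_⟩
  obtain ⟨a, ha⟩ := hb l hl
  have key : (fun j => ((∑ i, a i * g (i, j) : ℤ) : ℚ)) = ∑ i, ((a i : ℚ) * d) • q i := by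
    funext j
    rw [Finset.sum_apply, Int.cast_sum]
    refine Finset.sum_congr rfl fun i _ => ?_
    rw [Int.cast_mul, hg (i, j), Pi.smul_apply, smul_eq_mul, mul_assoc]
  have hdq : ∀ c : Fin N → ℚ, dq (y t) (∑ i, c i • q i) = ∑ i, (c i : F.M) * dq (y t) (q i) := by
    intro c
    simp only [dq, Finset.sum_apply, Pi.smul_apply, smul_eq_mul, Rat.cast_sum, Rat.cast_mul, Finset.mul_sum]
    rw [Finset.sum_comm]
    exact Finset.sum_congr rfl fun i _ => Finset.sum_congr rfl fun j _ => by ring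
  refine ⟨fun j => ∑ i, a i * g (i, j), ?_, ?_⟩
  · rw [key]
    exact Submodule.sum_mem _ fun i _ => Submodule.smul_mem _ _ (hqm i)
  · rw [key, hdq, ha]
    push_cast
    rw [Finset.mul_sum]
    refine Finset.sum_congr rfl fun i _ => ?_
    rw [hq i]
    ring

theorem Gl_re_le (z : ℂ) : |z.re| ≤ ‖z‖ := Complex.abs_re_le_norm z

/-- row Gl. The covering property in abstract form. Proof: `C0` from `cov_L`; `A := 1 + ∑ ‖a j‖`; apply `cov_L` with `r/d`, `ρ/d`, `k/(4 d |c|)`-like radii: `C := max (4 d ^ (2 p + 2) |c| C0) (4 A) + ...` such that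
`C ≤ r ρ^{2p} k` gives `C0 ≤ (r/d) (ρ/d)^{2p} (k/(4 d |c|))`, and `C r ≤ ρ`, `C ρ ≤ k` give `‖a 0‖ r ≤ k/4`, `(∑_{j ≥ 1} ‖a j‖) ρ ≤ k/4`. Targets: `x := w0 / d`, `w i := w (i) / d`, `y := (Y - Re (a 0 w0 + ∑ a j w j)) / (c d)`. -/
theorem cov_abs (F : FD K p) (hF : FDP F) (d : ℕ) (hd : 0 < d) (c : ℝ) (hc : c ≠ 0) (a : Fin (p + 1) → ℂ) :
    ∃ C : ℝ, 0 < C ∧ ∀ r ρ k : ℝ, 0 < r → 0 < ρ → 0 < k → C ≤ r * ρ ^ (2 * p) * k → C * r ≤ ρ → C * ρ ≤ k → ∀ (w0 : ℝ) (w : Fin p → ℂ) (Y : ℝ),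
      ∃ l : F.L, IsIntegral ℤ l ∧ |w0 - d * (l : ℂ).re| ≤ r ∧ (∀ i : Fin p, ‖w i - d * F.f i.succ l‖ ≤ ρ) ∧
        |Y - d * (c * F.s l + (∑ j, a j * F.f j l).re)| ≤ k := by
  obtain ⟨C0, hC0, hcov⟩ := cov_L F hF
  have hD : (0 : ℝ) < d := by exact_mod_cast hd
  have hc' : 0 < |c| := abs_pos.mpr hc
  set A : ℝ := ∑ j, ‖a j‖ with hA
  have hA0 : 0 ≤ A := Finset.sum_nonneg (fun j _ => norm_nonneg _)
  set C : ℝ := 1 + 2 * A + 2 * |c| * (d : ℝ) ^ (2 * p + 2) * C0 with hCdef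
  have hC1 : 0 ≤ 2 * |c| * (d : ℝ) ^ (2 * p + 2) * C0 := by positivity
  have hCpos : 0 < C := by positivity
  refine ⟨C, hCpos, fun r ρ k hr hρ hk h1 h2 h3 w0 w Y => ?_⟩
  have hvol : C0 ≤ r / d * (ρ / d) ^ (2 * p) * (k / (2 * d * |c|)) := by
    have e : r / d * (ρ / d) ^ (2 * p) * (k / (2 * d * |c|)) = r * ρ ^ (2 * p) * k / (2 * |c| * (d : ℝ) ^ (2 * p + 2)) := by
      rw [div_pow]
      field_simp
      ring
    rw [e, le_div_iff₀ (by positivity)]
    calc C0 * (2 * |c| * (d : ℝ) ^ (2 * p + 2)) = 2 * |c| * (d : ℝ) ^ (2 * p + 2) * C0 := by ring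
      _ ≤ C := by rw [hCdef]; linarith
      _ ≤ _ := h1
  set T : ℝ := (a 0 * (w0 : ℂ) + ∑ i : Fin p, a i.succ * w i).re with hT
  obtain ⟨l, hl0, hl1, hl2, hl3⟩ := hcov (r / d) (ρ / d) (k / (2 * d * |c|)) (by positivity) (by positivity) (by positivity) hvol
    (w0 / d) (fun i => w i / d) ((Y - T) / (d * c))
  have hdC : (d : ℂ) ≠ 0 := by exact_mod_cast hD.ne'
  have b1 : |w0 - d * (l : ℂ).re| ≤ r := by
    have e : w0 - d * (l : ℂ).re = d * (w0 / d - (l : ℂ).re) := by field_simp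
    rw [e, abs_mul, abs_of_pos hD]
    calc (d : ℝ) * |w0 / d - (l : ℂ).re| ≤ d * (r / d) := mul_le_mul_of_nonneg_left hl1 hD.le
      _ = r := by field_simp
  have b2 : ∀ i : Fin p, ‖w i - d * F.f i.succ l‖ ≤ ρ := by
    intro i
    have e : w i - d * F.f i.succ l = d * (w i / d - F.f i.succ l) := by field_simp
    rw [e, norm_mul, Complex.norm_natCast]
    calc (d : ℝ) * ‖w i / d - F.f i.succ l‖ ≤ d * (ρ / d) := mul_le_mul_of_nonneg_left (hl2 i) hD.le
      _ = ρ := by field_simp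
  refine ⟨l, hl0, b1, b2, ?_⟩
  have b3 : |Y - T - d * (c * F.s l)| ≤ k / 2 := by
    have hdc : (d : ℝ) * c ≠ 0 := mul_ne_zero hD.ne' hc
    have e : Y - T - d * (c * F.s l) = (d * c) * ((Y - T) / (d * c) - F.s l) := by
      rw [mul_sub, mul_div_cancel₀ _ hdc]
      ring
    rw [e, abs_mul, abs_mul, abs_of_pos hD]
    calc (d : ℝ) * |c| * |(Y - T) / (d * c) - F.s l| ≤ d * |c| * (k / (2 * d * |c|)) := mul_le_mul_of_nonneg_left hl3 (by positivity)
      _ = k / 2 := by field_simp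
  have hrρ : r ≤ ρ := by
    have : 1 ≤ C := by rw [hCdef]; linarith
    nlinarith
  have hf0 : F.f 0 l = ((l : ℂ).re : ℂ) := by
    have e : F.f 0 l = (l : ℂ) := by
      show F.e 0 (Subfield.inclusion F.LM l) = (l : ℂ)
      rw [hF.e0]
      rfl
    rw [e]
    have him : (l : ℂ).im = 0 := ((hF.hL l).mp l.2).2
    exact Complex.ext rfl him
  have b4 : |T - d * (∑ j, a j * F.f j l).re| ≤ k / 2 := by
    have e : T - d * (∑ j, a j * F.f j l).re =
        (a 0 * (((w0 - d * (l : ℂ).re : ℝ)) : ℂ) + ∑ i : Fin p, a i.succ * (w i - d * F.f i.succ l)).re := by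
      have e1 : (d : ℝ) * (∑ j, a j * F.f j l).re = ((d : ℂ) * ∑ j, a j * F.f j l).re := by
        rw [← Complex.ofReal_natCast, Complex.re_ofReal_mul]
      rw [e1, hT, ← Complex.sub_re]
      congr 1
      rw [Fin.sum_univ_succ, hf0, mul_add, Finset.mul_sum]
      simp only [mul_sub, Finset.sum_sub_distrib]
      push_cast
      have e2 : ∀ i : Fin p, (d : ℂ) * (a i.succ * F.f i.succ l) = a i.succ * (d * F.f i.succ l) := fun i => by ring
      simp only [e2]
      ring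
    rw [e]
    refine (Gl_re_le _).trans ?_
    calc ‖a 0 * (((w0 - d * (l : ℂ).re : ℝ)) : ℂ) + ∑ i : Fin p, a i.succ * (w i - d * F.f i.succ l)‖
        ≤ ‖a 0 * (((w0 - d * (l : ℂ).re : ℝ)) : ℂ)‖ + ‖∑ i : Fin p, a i.succ * (w i - d * F.f i.succ l)‖ := norm_add_le _ _
      _ ≤ ‖a 0‖ * ρ + ∑ i : Fin p, ‖a i.succ‖ * ρ := by
          refine add_le_add ?_ ?_
          · rw [norm_mul, Complex.norm_real, Real.norm_eq_abs]
            exact mul_le_mul_of_nonneg_left (b1.trans hrρ) (norm_nonneg _)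
          · refine (norm_sum_le _ _).trans (Finset.sum_le_sum fun i _ => ?_)
            rw [norm_mul]
            exact mul_le_mul_of_nonneg_left (b2 i) (norm_nonneg _)
      _ = A * ρ := by rw [hA, Fin.sum_univ_succ, add_mul, Finset.sum_mul]
      _ ≤ k / 2 := by
          have : 2 * A ≤ C := by rw [hCdef]; linarith
          nlinarith
  have e : Y - d * (c * F.s l + (∑ j, a j * F.f j l).re) = (Y - T - d * (c * F.s l)) + (T - d * (∑ j, a j * F.f j l).re) := by ring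
  rw [e]
  calc _ ≤ |Y - T - d * (c * F.s l)| + |T - d * (∑ j, a j * F.f j l).re| := abs_add_le _ _
    _ ≤ k / 2 + k / 2 := add_le_add b3 b4
    _ = k := by ring

/-- row Gm. `CovX` for the block `t`. Proof: `exists_phi`, `exists_lat`, `cov_abs` (with `w0 := (w ⟨(p+1) t, _⟩).re`, `w i := w ⟨(p+1) t + i + 1, _⟩`, `Y := (w ⟨(p+1) t + p + 1, _⟩).im`). For integral `l` take `g` of `exists_lat`:
`XX l' ⬝ᵥ zv g = dq (XX l') g` (cast), `= 0` for `l' < (p+1) t` (`XX_Lam`), `= F.e j (dq (y t) g) = d * F.f j l` for `l' = (p+1) t + j` (`XX_dq`; `dq (y t) g = d * l` in `F.M`), and `Im (XX ((p+1)(t+1)) ⬝ᵥ zv g) = Im (dq (y (t+1)) g) = c s (d l) + Re ∑ a_j f_j (d l)`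
(`XX_zero`). -/
theorem covX (F : FD K p) (hF : FDP F) {n m : ℕ} (hn : n = 2 * ((p + 1) * m) + 1) (P : Matrix (Fin n) (Fin n) ℂ) (hreal : ∀ b : Fin n → ℝ, P *ᵥ rv b = 0 → b = 0)
    (hker : (p + 1) * m ≤ finrank ℂ (LinearMap.ker (Matrix.mulVecLin P))) (y : ℕ → Fin n → F.M) (R : Submodule F.M (Fin n → F.M)) (hy : ∀ t ≤ m, SG F m R y t)
    (hP : ∀ l ≤ (p + 1) * m, ∀ u, P *ᵥ u = 0 → XX F y l ⬝ᵥ u = 0) (hInd : Ind (XX F y) ((p + 1) * m + 1)) (t : ℕ) (ht : t < m)
    {c : ℕ} (hc : c = (p + 1) * m) : CovX p ((p + 1) * t) (fun i : Fin (c + 1) => XX F y i) := by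
  obtain ⟨c0, a, hc0, hphi⟩ := exists_phi F hF hn P hreal hker y R hy hP hInd t ht
  obtain ⟨d, hd, hlat⟩ := exists_lat F hF y t ((hy t ht.le).surj ht)
  obtain ⟨C, hC, hcov⟩ := cov_abs F hF d hd c0 hc0 a
  have hle : (p + 1) * t + (p + 1) ≤ c := by
    rw [hc, ← Nat.mul_succ]
    exact Nat.mul_le_mul_left _ ht
  refine ⟨C, hC, fun r ρ k hr hρ hk h1 h2 h3 w => ?_⟩
  obtain ⟨l, hl, hA, hB, hD⟩ := hcov r ρ k hr hρ hk h1 h2 h3 (w ⟨(p + 1) * t, by omega⟩).re
    (fun i : Fin p => w ⟨(p + 1) * t + i + 1, by have := i.2; omega⟩) (w ⟨(p + 1) * t + p + 1, by omega⟩).im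
  obtain ⟨g, hg, hgd⟩ := hlat l hl
  -- the value at the integral vector
  have hdot : ∀ x : Fin n → ℂ, x ⬝ᵥ zv g = dq x (fun j => (g j : ℚ)) := by
    intro x
    unfold dq zv
    rw [dotProduct]
    refine Finset.sum_congr rfl fun j _ => ?_
    rw [Rat.cast_intCast]
  have hcoe : ∀ s, (fun k => ((y s k : F.M) : ℂ)) ⬝ᵥ zv g = ((dq (y s) (fun j => (g j : ℚ)) : F.M) : ℂ) := by
    intro s
    rw [coe_dq]
    congr 1
  have hlim : (l : ℂ).im = 0 := ((hF.hL l).1 l.2).2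
  have hdl : dq (y t) (fun j => (g j : ℚ)) = (d : F.M) * Subfield.inclusion F.LM l := by
    apply Subtype.ext
    rw [hgd]
    push_cast
    rfl
  refine ⟨g, ?_, ?_, ?_, ?_⟩
  · intro l' hl'
    simp only []
    rw [hdot]
    exact XX_Lam F y t l' hl' _ hg
  · intro l' hl'
    have e1 : XX F y (l' : ℕ) ⬝ᵥ zv g = (d : ℂ) * l := by
      rw [hl']
      have e2 : XX F y ((p + 1) * t) = fun k => ((y t k : F.M) : ℂ) := funext fun k => XX_zero F hF y t k
      rw [e2, hcoe, hgd]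
    have e3 : l' = ⟨(p + 1) * t, by omega⟩ := Fin.ext hl'
    constructor
    · rw [e1, Complex.mul_im, hlim]
      simp
    · rw [e1, Complex.mul_re, hlim, Complex.natCast_re, mul_zero, sub_zero, e3]
      exact hA
  · intro l' h4 h5
    obtain ⟨i, hi⟩ : ∃ i : Fin p, (l' : ℕ) = (p + 1) * t + i + 1 := ⟨⟨(l' : ℕ) - (p + 1) * t - 1, by omega⟩, by
      show (l' : ℕ) = (p + 1) * t + ((l' : ℕ) - (p + 1) * t - 1) + 1
      omega⟩
    have e1 : XX F y (l' : ℕ) ⬝ᵥ zv g = (d : ℂ) * F.f i.succ l := by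
      have e2 : (l' : ℕ) = (p + 1) * t + (i.succ : Fin (p + 1)) := by
        rw [hi, Fin.val_succ, add_assoc]
      rw [hdot, e2, XX_dq, hdl, map_mul, map_natCast]
      rfl
    have e3 : l' = ⟨(p + 1) * t + i + 1, by omega⟩ := Fin.ext hi
    rw [e1, e3]
    exact hB i
  · intro l' hl'
    have e1 : (XX F y (l' : ℕ) ⬝ᵥ zv g).im = d * (c0 * F.s l + (∑ j, a j * F.f j l).re) := by
      have e2 : (l' : ℕ) = (p + 1) * (t + 1) := by
        rw [hl']; ring
      have e4 : XX F y ((p + 1) * (t + 1)) = fun k => ((y (t + 1) k : F.M) : ℂ) := funext fun k => XX_zero F hF y (t + 1) k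
      rw [e2, e4, hcoe, hphi _ hg ((d : F.L) * l) (by rw [hgd]; push_cast; rfl)]
      rw [map_mul, map_natCast]
      have e5 : ∑ j, a j * F.f j ((d : F.L) * l) = ((d : ℝ) : ℂ) * ∑ j, a j * F.f j l := by
        rw [Finset.mul_sum]
        refine Finset.sum_congr rfl fun j _ => ?_
        rw [map_mul, map_natCast, Complex.ofReal_natCast]
        ring
      rw [e5, Complex.re_ofReal_mul]
      ring
    have e3 : l' = ⟨(p + 1) * t + p + 1, by omega⟩ := Fin.ext hl'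
    rw [e1, e3]
    exact hD

/-- row Gn: `x · (d q) = d (x · q)` -/
theorem Gn_dq_int {n : ℕ} (x : Fin n → ℂ) (q : Fin n → ℚ) {d : ℕ} {g : Fin n → ℤ}
    (hg : ∀ i, ((g i : ℤ) : ℚ) = d * q i) : x ⬝ᵥ zv g = d * dq x q := by
  rw [dq, dotProduct, Finset.mul_sum]
  apply Finset.sum_congr rfl
  intro j _
  have h1 : ((g j : ℤ) : ℂ) = (d : ℂ) * ((q j : ℚ) : ℂ) := by
    have := congrArg (fun t : ℚ => (t : ℂ)) (hg j)
    push_cast at this
    exact this
  rw [zv, h1]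
  ring

/-- row Gn. The last step. Proof: `SG.ne` for `t = m`, common denominator (`D4h_den`), `XX_Lam`, `XX_zero`, `SG.real`. -/
theorem lastX (F : FD K p) (hF : FDP F) {n m : ℕ} (y : ℕ → Fin n → F.M) (R : Submodule F.M (Fin n → F.M)) (hy : SG F m R y m)
    {c : ℕ} (hc : c = (p + 1) * m) : ∃ a : Fin n → ℤ, (∀ l : Fin (c + 1), (l : ℕ) < c → XX F y l ⬝ᵥ zv a = 0) ∧
      XX F y (Fin.last c : Fin (c + 1)) ⬝ᵥ zv a ≠ 0 ∧ (XX F y (Fin.last c : Fin (c + 1)) ⬝ᵥ zv a).im = 0 := by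
  subst hc
  obtain ⟨q, hq, hne⟩ := hy.ne
  obtain ⟨d, g, hd, hg⟩ := D4h_den q
  have hlast : XX F y ((Fin.last ((p + 1) * m) : Fin ((p + 1) * m + 1)) : ℕ) = fun k => (y m k : ℂ) := by
    funext k
    rw [Fin.val_last]
    exact XX_zero F hF y m k
  have hval : XX F y ((Fin.last ((p + 1) * m) : Fin ((p + 1) * m + 1)) : ℕ) ⬝ᵥ zv g = d * ((dq (y m) q : F.M) : ℂ) := by
    rw [hlast]
    exact coe_dq_int F.M (y m) q hg
  refine ⟨g, fun l hl => ?_, ?_, ?_⟩
  · rw [Gn_dq_int _ q hg, XX_Lam F y m l hl q hq, mul_zero]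
  · rw [hval]
    refine mul_ne_zero (by exact_mod_cast hd.ne') ?_
    intro h0
    exact hne (Subtype.ext h0)
  · rw [hval]
    have h1 := hy.real q hq
    have h2 : ((d : ℂ)).im = 0 := Complex.natCast_im d
    rw [Complex.mul_im, h1, h2]
    ring

end Pool.Agent.LT.VA
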