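import Mathlib
import Pool.Agent.Lib.MP_f58a57_nt.LT.Z
import Pool.Agent.Lib.MP_f58a57_nt.LT.V.V0
import Pool.Agent.Lib.MP_f58a57_nt.LT.V.QGz

/-!
# MP_f58a57_nt, large transcendence degree, version 2: the assembly
-/

open Complex MvPolynomial Matrix

noncomputable section

namespace Pool.Agent.LT.ZA

open Pool.Agent.MSD (jj)

theorem cp_eq (p m : ℕ) : cp p m = (p + 1) * m := by
  induction m with
  | zero => rfl
  | succ m ih => rw [cp, ih]; ring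

/-- THE MAIN THEOREM, version 2, from the parts, for `(p + 1) m + 1` points -/
theorem main_ofG1 (hA : ThmA) (hC : ThmC) (hD1 : ThmD1G) (hD2 : ThmD2G) (hE : ThmE) (K : Subfield ℂ) (p : ℕ) (hK : QG K p) (m : ℕ)
    (z : Fin (cp p m + 1) → ℂ) (hzK : ∀ i, z i ∈ K) (him : ∀ i, 0 < (z i).im) (hNQ : ∀ i, NQ (z i))
    (hind : ∀ i j, i ≠ j → ¬ GEq (z i) (z j)) (hj : ∀ i, deriv jj (z i) ≠ 0) :
    ((2 * cp p m + 1 : ℕ) : Cardinal) ≤ Algebra.trdeg ℚ (IntermediateField.adjoin ℚ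
      (⋃ i, {z i, jj (z i), deriv jj (z i), deriv (deriv jj) (z i)} : Set ℂ)) := by
  obtain ⟨D, idx, hidx⟩ := hD1 K hK.dim (cp p m) z hzK him hNQ hind
  have hDK : ∀ j, D.z j ∈ K := fun j => by rw [hidx]; exact hzK _
  have hDN : ∀ j, NQ (D.z j) := fun j => by rw [hidx]; exact hNQ _
  have hDG : ∀ i j, D.z i ≠ D.z j → ¬ GEq (D.z i) (D.z j) := by
    intro i j hij
    rw [hidx, hidx] at hij ⊢
    exact hind _ _ fun h => hij (by rw [h])
  obtain ⟨Φ, C, C', hker, m', θ, lam, CE, hlam, htr, hP⟩ := hE (cp p m) D hDN (fun j => by rw [hidx]; exact hj _)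
  obtain ⟨hI1, hI2⟩ := hD2 K p hK m D hDK hDN hDG
  obtain ⟨hLB, hUB⟩ := hC (cp p m) D Φ C C' hker
  have h1 := core hA (cp p m) (hLB (hI1 C hker.mulu) (hI2 C' hker.muls)) hUB θ hlam CE hP
  refine h1.trans (htr.trans ?_)
  have hsub : (⋃ j, {D.z j, jj (D.z j), deriv jj (D.z j), deriv (deriv jj) (D.z j)} : Set ℂ) ⊆
      ⋃ i, {z i, jj (z i), deriv jj (z i), deriv (deriv jj) (z i)} := by
    apply Set.iUnion_subset
    intro j
    rw [hidx j]
    exact Set.subset_iUnion (fun i => ({z i, jj (z i), deriv jj (z i), deriv (deriv jj) (z i)} : Set ℂ)) (idx j)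
  have hle := IntermediateField.adjoin.mono ℚ _ _ hsub
  exact trdeg_le_of_injective (IntermediateField.inclusion hle) (IntermediateField.inclusion_injective hle)

/-- THE MAIN THEOREM, version 2, from the parts, for `n` points -/
theorem main_ofG (hA : ThmA) (hC : ThmC) (hD1 : ThmD1G) (hD2 : ThmD2G) (hE : ThmE) (K : Subfield ℂ) (p : ℕ) (hK : QG K p) (n : ℕ)
    (hn : 1 ≤ n) (z : Fin n → ℂ) (hzK : ∀ i, z i ∈ K) (him : ∀ i, 0 < (z i).im) (hNQ : ∀ i, NQ (z i))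
    (hind : ∀ i j, i ≠ j → ¬ GEq (z i) (z j)) (hj : ∀ i, deriv jj (z i) ≠ 0) :
    ((2 * (p + 1) * ((n - 1) / (p + 1)) + 1 : ℕ) : Cardinal) ≤ Algebra.trdeg ℚ (IntermediateField.adjoin ℚ
      (⋃ i, {z i, jj (z i), deriv jj (z i), deriv (deriv jj) (z i)} : Set ℂ)) := by
  set m : ℕ := (n - 1) / (p + 1) with hm
  have hle : cp p m + 1 ≤ n := by
    have h1 : (p + 1) * m ≤ n - 1 := Nat.mul_div_le (n - 1) (p + 1)
    rw [cp_eq]
    omega
  have h1 := main_ofG1 hA hC hD1 hD2 hE K p hK m (fun i => z (Fin.castLE hle i)) (fun i => hzK _) (fun i => him _) (fun i => hNQ _)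
    (fun i j hij => hind _ _ fun h => hij (Fin.castLE_injective hle h)) (fun i => hj _)
  rw [show 2 * (p + 1) * m + 1 = 2 * cp p m + 1 by rw [cp_eq]; ring]
  refine h1.trans ?_
  have hsub : (⋃ i : Fin (cp p m + 1), {z (Fin.castLE hle i), jj (z (Fin.castLE hle i)), deriv jj (z (Fin.castLE hle i)),
      deriv (deriv jj) (z (Fin.castLE hle i))} : Set ℂ) ⊆ ⋃ i, {z i, jj (z i), deriv jj (z i), deriv (deriv jj) (z i)} := by
    apply Set.iUnion_subset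
    intro j
    exact Set.subset_iUnion (fun i => ({z i, jj (z i), deriv jj (z i), deriv (deriv jj) (z i)} : Set ℂ)) (Fin.castLE hle j)
  have hle2 := IntermediateField.adjoin.mono ℚ _ _ hsub
  exact trdeg_le_of_injective (IntermediateField.inclusion hle2) (IntermediateField.inclusion_injective hle2)

/-- THE MAIN THEOREM, version 2, from the parts, all nonreal quartic fields; `s = [K K̄ : K]` -/
theorem main_of2 (hA : ThmA) (hC : ThmC) (hD1 : ThmD1G) (hD2 : ThmD2G) (hE : ThmE) (K : Subfield ℂ) (hdeg : Module.finrank ℚ K = 4)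
    (hnr : ∃ x ∈ K, x.im ≠ 0) (n : ℕ) (z : Fin n → ℂ) (hzK : ∀ i, z i ∈ K) (him : ∀ i, 0 < (z i).im) (hNQ : ∀ i, NQ (z i))
    (hind : ∀ i j, i ≠ j → ¬ GEq (z i) (z j)) (hj : ∀ i, deriv jj (z i) ≠ 0) :
    ∃ s : ℕ, (s = 1 ∨ s = 2 ∨ s = 3) ∧ Module.finrank ℚ ↥(K ⊔ K.map (starRingEnd ℂ)) = 4 * s ∧
      (s = 1 ↔ ∃ Δ : ℕ, ¬ IsSquare Δ ∧ ((Real.sqrt Δ : ℝ) : ℂ) ∈ K) ∧
      (1 ≤ n → ((2 * s * ((n - 1) / s) + 1 : ℕ) : Cardinal) ≤ Algebra.trdeg ℚ (IntermediateField.adjoin ℚ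
        (⋃ i, {z i, jj (z i), deriv jj (z i), deriv (deriv jj) (z i)} : Set ℂ))) ∧
      ((2 * n - (2 * s - 1) : ℕ) : Cardinal) ≤ Algebra.trdeg ℚ (IntermediateField.adjoin ℚ
        (⋃ i, {z i, jj (z i), deriv jj (z i), deriv (deriv jj) (z i)} : Set ℂ)) := by
  obtain ⟨p, hp, hK⟩ := QGf.exists_p K hdeg hnr
  have hmain := fun hn => main_ofG hA hC hD1 hD2 hE K p hK n hn z hzK him hNQ hind hj
  refine ⟨p + 1, by omega, hK.rel, ⟨?_, ?_⟩, hmain, ?_⟩
  · intro h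
    obtain rfl : p = 0 := by omega
    exact (QGf.to_QF hK).rq
  · intro h
    have := QGf.p_unique hK (QGf.of_QF ⟨hdeg, hnr, h⟩)
    omega
  · rcases Nat.eq_zero_or_pos n with rfl | hn
    · simp
    refine le_trans ?_ (hmain hn)
    have h1 : n - 1 < (p + 1) * ((n - 1) / (p + 1)) + (p + 1) := Nat.lt_mul_div_succ (n - 1) (Nat.succ_pos p)
    have h2 : 2 * (p + 1) * ((n - 1) / (p + 1)) = 2 * ((p + 1) * ((n - 1) / (p + 1))) := by ring
    rw [h2]
    generalize (p + 1) * ((n - 1) / (p + 1)) = q at h1 ⊢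
    exact_mod_cast (by omega : 2 * n - (2 * (p + 1) - 1) ≤ 2 * q + 1)

end Pool.Agent.LT.ZA
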